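import Pool.Agent.Lib.MP_b2e238_gt.C.Cut
import Pool.Agent.Lib.MP_b2e238_gt.K.Dif
import Pool.Agent.Lib.MP_b2e238_gt.B.J

/-! The planar model: smoothness of the height, the sign of `log p`, the wall and the two ends. -/

open scoped ContDiff Topology
open Set Metric

noncomputable section

namespace Pool.Agent.Lib.MP_b2e238_gt

variable {i : ℕ} {e b : ℤ} {p : ℂ → ℝ} {τ g Λ : ℂ → ℂ} {R M : ℝ} {d : JD}

theorem ModB_ne (t : ℝ) : ex t ≠ 0 := by
  rw [← norm_ne_zero_iff, norm_ex]; exact one_ne_zero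

theorem ModB_pow (n : ℕ) (t : ℝ) : ex (n * t) = ex t ^ n := by
  simp only [ex]
  rw [← Complex.exp_nat_mul]; congr 1; push_cast; ring

theorem ModB_mT {Z : ℂ} (h0 : Z ≠ 0) : mT Z = ex (ang Z + mS (mX Z)) := by
  rw [ex_add, ex_ang h0, mT]

theorem ModB_lo {Z : ℂ} (h0 : Z ≠ 0) (k : mX Z ≤ -1) : mH i e b Z = mT Z := by
  have h1 := (mS_val (mX Z)).2.2.1 k
  have h2 := (ang_mem Z).2
  rw [mH, (mG_val i e b _).1 (by linarith), ModB_mT h0]

theorem ModB_hi {Z : ℂ} (h0 : Z ≠ 0) (k : 1 ≤ mX Z) : mH i e b Z = (mT Z ^ i)⁻¹ := by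
  have h1 := (mS_val (mX Z)).2.1 k
  have h2 := (ang_mem Z).1
  rw [mH, (mG_val i e b _).2.2.2.2 (by linarith), ModB_mT h0, ← ModB_pow]
  refine eq_inv_of_mul_eq_one_left ?_
  rw [← ex_add, sub_add_cancel, ← Int.cast_sub, ex_int]

theorem ModB_pos {Z : ℂ} (hZ : Z ∈ Om) (h1 : Z.im = 0) (h2 : 0 ≤ Z.re) : mX Z < -1 ∨ 1 < mX Z := by
  obtain ⟨r, rfl⟩ : ∃ r : ℝ, Z = r := ⟨Z.re, Complex.ext (by simp) (by simp [h1])⟩
  have h0 : r ≠ 0 := fun h => hZ.1 (by simp [h])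
  have hr : 0 < r := lt_of_le_of_ne (by simpa using h2) h0.symm
  have h3 : 1 / 2 < |1 - r⁻¹| := by
    have := hZ.2
    rwa [← Complex.ofReal_inv, ← Complex.ofReal_one, ← Complex.ofReal_sub, Complex.norm_real,
      Real.norm_eq_abs] at this
  have h4 : mX (r : ℂ) = 4 * Real.log r := by simp [mX]
  have hi : 0 < r⁻¹ := inv_pos.2 hr
  have h5 : r * r⁻¹ = 1 := mul_inv_cancel₀ h0
  rw [h4]
  rcases lt_abs.1 h3 with h | h
  · right
    have := Real.log_le_sub_one_of_pos hi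
    rw [Real.log_inv] at this
    linarith
  · left
    have := Real.log_le_sub_one_of_pos hr
    have : r < 2 / 3 := by nlinarith
    linarith

theorem ModB_mX {Z : ℂ} (h0 : Z ≠ 0) : ContDiffAt ℝ ∞ mX Z :=
  contDiffAt_const.mul ((contDiffAt_norm ℝ h0).log (norm_ne_zero_iff.2 h0))

theorem ModB_mTs {Z : ℂ} (h0 : Z ≠ 0) : ContDiffAt ℝ ∞ mT Z :=
  (ph_at contDiffAt_id h0).mul
    (contDiff_ex.contDiffAt.comp Z (mS_sm.contDiffAt.comp Z (ModB_mX h0)))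

theorem mH_sm (i : ℕ) (e b : ℤ) : ContDiffOn ℝ ∞ (mH i e b) Om := by
  intro Z hZ
  have h0 := hZ.1
  refine ContDiffAt.contDiffWithinAt ?_
  by_cases hs : -Z ∈ Complex.slitPlane
  · exact contDiff_ex.contDiffAt.comp Z ((mG_sm i e b).contDiffAt.comp Z
      ((ang_sm hs).add (mS_sm.contDiffAt.comp Z (ModB_mX h0))))
  · rw [Complex.mem_slitPlane_iff, not_or, not_not, not_lt] at hs
    have n0 : ∀ᶠ W in 𝓝 Z, W ≠ 0 := isOpen_ne.mem_nhds h0
    rcases ModB_pos hZ (by simpa using hs.2) (by simpa using hs.1) with h | h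
    · refine (ModB_mTs h0).congr_of_eventuallyEq ?_
      filter_upwards [n0, (ModB_mX h0).continuousAt.eventually (gt_mem_nhds h)] with W a c
      exact ModB_lo a c.le
    · have n1 : mT Z ^ i ≠ 0 := by rw [ModB_mT h0]; exact pow_ne_zero _ (ModB_ne _)
      refine (((ModB_mTs h0).pow i).inv n1).congr_of_eventuallyEq ?_
      filter_upwards [n0, (ModB_mX h0).continuousAt.eventually (lt_mem_nhds h)] with W a c
      exact ModB_hi a c.le

theorem ModB_ang {Z : ℂ} (hZ : Z ∈ Om) (k : |mX Z| ≤ 1) : ang Z < 1 := by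
  refine lt_of_le_of_ne (ang_mem Z).2 fun h => ?_
  have hp := Real.pi_pos
  have h1 : (-Z).arg = Real.pi := by
    rw [ang] at h
    have : (-Z).arg / (2 * Real.pi) = 1 / 2 := by linarith
    rw [div_eq_iff (by positivity)] at this
    linarith
  rw [Complex.arg_eq_pi_iff] at h1
  have h2 := abs_le.1 k
  rcases ModB_pos hZ (by simpa using h1.2) (by simpa using h1.1.le) with h | h <;> linarith

theorem ModB_ang' {y : ℝ} (h0 : 0 < y) (h1 : y ≤ 1) : ang (ex y) = y := by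
  simpa using ang_ex h0 h1 one_pos

theorem mod_sign (h : 2 ≤ M) {Z : ℂ} (hZ : Z ∈ Om) {y : ℝ} (hy : y = ang Z + mS (mX Z)) :
    (y ≤ 3 / 20 ∨ y ∈ Icc (57 / 100 : ℝ) (7 / 10) → mP M Z < 1) ∧
    (y ∈ Icc (3 / 10 : ℝ) (21 / 50) ∨ 17 / 20 ≤ y → 1 < mP M Z) := by
  have hA := ang_mem Z
  obtain ⟨-, c0, c1, c2, -⟩ := mC_val h (mX Z)
  obtain ⟨s1, s2, s3, -⟩ := mS_val (mX Z)
  have w := abs_le.1 (mW_le (mT Z))
  simp only [mP, Real.exp_lt_one_iff, Real.one_lt_exp_iff, mem_Icc]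
  rcases le_total 1 (mX Z) with k | k
  · have := s2 k
    refine ⟨fun a => ?_, fun _ => ?_⟩
    · rcases a with a | a <;> linarith [a]
    · nlinarith
  rcases le_total (mX Z) (-1) with k' | k'
  · have := s3 k'
    refine ⟨fun _ => ?_, fun a => ?_⟩
    · nlinarith
    · rcases a with a | a <;> linarith [a]
  have hx : |mX Z| ≤ 1 := abs_le.2 ⟨k', k⟩
  have hA1 := ModB_ang hZ hx
  have hT : mT Z = ex y := by rw [hy, ModB_mT hZ.1]
  rw [s1 hx] at hy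
  rw [c2 hx, mul_one, hT, mW]
  rcases le_or_gt y 0 with y0 | y0
  · have q : ang (ex y) = y + 1 := by rw [← ex_one, ModB_ang' (by linarith) (by linarith)]
    have n := (mN_val (y + 1)).2.1
    rw [q]
    refine ⟨fun _ => by linarith, fun a => ?_⟩
    rcases a with a | a <;> linarith [a]
  rcases le_or_gt y 1 with y1 | y1
  · obtain ⟨-, -, n1, n2, n3, n4⟩ := mN_val y
    rw [ModB_ang' y0 y1]
    refine ⟨fun a => ?_, fun a => ?_⟩
    · rcases a with a | a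
      · rw [n1 a]; linarith
      · rw [n3 a]; linarith
    · rcases a with a | a
      · rw [n2 a]; linarith
      · rw [n4 a]; linarith
  · have q : ang (ex y) = y - 1 := by
      rw [← ModB_ang' (y := y - 1) (by linarith) (by linarith), ← ex_one (y - 1), sub_add_cancel]
    have n := (mN_val (y - 1)).1
    rw [q]
    refine ⟨fun a => ?_, fun _ => by linarith⟩
    rcases a with a | a <;> linarith [a]

theorem mod_wall (h : 2 ≤ M) {Z : ℂ} (hZ : Z ∈ Om) (k : mP M Z = 1) : mH i e b Z = 1 := by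
  obtain ⟨a1, a2⟩ := mod_sign h hZ rfl
  rw [k] at a1 a2
  simp only [lt_irrefl, imp_false, not_or, mem_Icc, not_and_or, not_le] at a1 a2
  obtain ⟨-, g1, g2, g3, -⟩ := mG_val i e b (ang Z + mS (mX Z))
  rw [mH]
  rcases a2.1 with u | u
  · rw [g1 ⟨a1.1.le, u.le⟩]; simpa using ex_int 0
  rcases a1.2 with v | v
  · rw [g2 ⟨u.le, v.le⟩, ex_int]
  · rw [g3 ⟨v.le, a2.2.le⟩, ← Int.cast_sub, ex_int]

theorem ModB_far (h : 2 ≤ M) {Z : ℂ} (h0 : Z ≠ 0) (k : M ≤ |mX Z|) :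
    mP M Z = ‖Z‖ ∧ mT Z = ph Z := by
  constructor
  · rw [mP, (mC_val h (mX Z)).2.2.2.2 k, mul_zero, sub_zero, mX, mul_div_cancel_left₀ _ four_ne_zero,
      Real.exp_log (norm_pos_iff.2 h0)]
  · obtain ⟨-, -, -, s1, s2⟩ := mS_val (mX Z)
    rcases le_abs.1 k with a | a
    · rw [mT, s1 (h.trans a), show (2 : ℝ) = ((2 : ℤ) : ℝ) by norm_num, ex_int, mul_one]
    · rw [mT, s2 (by linarith), show (-2 : ℝ) = ((-2 : ℤ) : ℝ) by norm_num, ex_int, mul_one]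

theorem mod_left (h : 2 ≤ M) {Z : ℂ} (h0 : Z ≠ 0) (k : mX Z ≤ -M) :
    mP M Z = ‖Z‖ ∧ mT Z = ph Z ∧ mH i e b Z = ph Z := by
  obtain ⟨a, c⟩ := ModB_far h h0 (le_abs.2 (Or.inr (by linarith)))
  exact ⟨a, c, by rw [ModB_lo h0 (by linarith), c]⟩

theorem mod_right (h : 2 ≤ M) {Z : ℂ} (k : M ≤ mX Z) :
    mP M Z = ‖Z‖ ∧ mT Z = ph Z ∧ mH i e b Z = (ph Z ^ i)⁻¹ := by
  have h0 : Z ≠ 0 := by
    rintro rfl
    simp only [mX, norm_zero, Real.log_zero, mul_zero] at k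
    linarith
  obtain ⟨a, c⟩ := ModB_far h h0 (le_abs.2 (Or.inl k))
  exact ⟨a, c, by rw [ModB_hi h0 (by linarith), c]⟩

end Pool.Agent.Lib.MP_b2e238_gt
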