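import Pool.Agent.Lib.MP_b2e238_gt.C.ModB

/-! The word read by the third boundary curve of the planar model. -/

open scoped ContDiff Topology
open Set Metric

noncomputable section

namespace Pool.Agent.Lib.MP_b2e238_gt

variable {M : ℝ}

/-- the inverse of the point of the circle -/
def mcW (t : ℝ) : ℂ := 1 - (3 / 5 + 0 : ℝ) * ex (-t)
/-- the angle in turns -/
def mcA (t : ℝ) : ℝ := (cir t 0).arg / (2 * Real.pi)
/-- the logarithmic radius -/
def mcX (t : ℝ) : ℝ := mX (cir t 0)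
/-- the height parameter up to an integer -/
def mcU (t : ℝ) : ℝ := mcA t + mS (mcX t)

theorem mc_cir (t : ℝ) : cir t 0 = (mcW t)⁻¹ := rfl

theorem mc_ex (t : ℝ) :
    (ex (-t)).re = Real.cos (2 * Real.pi * t) ∧ (ex (-t)).im = -Real.sin (2 * Real.pi * t) := by
  have e : ex (-t) = Complex.exp ((-(2 * Real.pi * t) : ℝ) * .I) := by
    unfold ex; congr 1; push_cast; ring
  rw [e, Complex.exp_ofReal_mul_I_re, Complex.exp_ofReal_mul_I_im, Real.cos_neg, Real.sin_neg]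
  exact ⟨rfl, rfl⟩

theorem mc_re (t : ℝ) : (mcW t).re = 1 - 3 / 5 * Real.cos (2 * Real.pi * t) := by
  simp only [mcW, Complex.sub_re, Complex.one_re, Complex.re_ofReal_mul, (mc_ex t).1, add_zero]

theorem mc_im (t : ℝ) : (mcW t).im = 3 / 5 * Real.sin (2 * Real.pi * t) := by
  simp only [mcW, Complex.sub_im, Complex.one_im, Complex.im_ofReal_mul, (mc_ex t).2, add_zero]
  ring

theorem mc_pos (t : ℝ) : 0 < (mcW t).re := by
  rw [mc_re]; linarith [Real.cos_le_one (2 * Real.pi * t)]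

theorem mc_ne (t : ℝ) : mcW t ≠ 0 := fun h => by simpa [h] using mc_pos t

theorem mc_ne' (t : ℝ) : cir t 0 ≠ 0 := inv_ne_zero (mc_ne t)

theorem mc_sq (t : ℝ) : ‖mcW t‖ ^ 2 = 34 / 25 - 6 / 5 * Real.cos (2 * Real.pi * t) := by
  rw [Complex.sq_norm, Complex.normSq_apply, mc_re, mc_im]
  nlinarith [Real.sin_sq_add_cos_sq (2 * Real.pi * t)]

theorem mc_om (t : ℝ) : cir t 0 ∈ Om := by
  refine ⟨mc_ne' t, ?_⟩
  rw [mc_cir, inv_inv, mcW, sub_sub_cancel, norm_mul, norm_ex, Complex.norm_real]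
  norm_num

theorem mc_x (t : ℝ) : mcX t = -4 * Real.log ‖mcW t‖ := by
  rw [mcX, mX, mc_cir, norm_inv, Real.log_inv]; ring

theorem mc_cw : Continuous mcW :=
  continuous_const.sub (continuous_const.mul (contDiff_ex.continuous.comp continuous_neg))

theorem mc_cc : Continuous fun t => cir t 0 := mc_cw.inv₀ mc_ne

theorem mc_cx : Continuous mcX :=
  continuous_const.mul (mc_cc.norm.log fun t => norm_ne_zero_iff.2 (mc_ne' t))

theorem mc_arg (t : ℝ) : mcA t = -(mcW t).arg / (2 * Real.pi) := by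
  rw [mcA, mc_cir, Complex.arg_inv, if_neg]
  intro h
  linarith [(Complex.arg_eq_pi_iff.1 h).1, mc_pos t]

theorem mc_ca : Continuous mcA := by
  rw [funext mc_arg]
  refine Continuous.div_const (Continuous.neg (continuous_iff_continuousAt.2 fun t => ?_)) _
  exact (Complex.continuousAt_arg (Or.inl (mc_pos t))).comp mc_cw.continuousAt

theorem mc_cu : Continuous mcU := mc_ca.add (mS_sm.continuous.comp mc_cx)

theorem mc_abs (t : ℝ) : -(1 / 8) ≤ mcA t ∧ mcA t ≤ 1 / 8 := by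
  have p := Real.pi_pos
  have n : 0 < ‖mcW t‖ := norm_pos_iff.2 (mc_ne t)
  have h : |(mcW t).im| ≤ 3 / 5 * ‖mcW t‖ := by
    refine abs_le_of_sq_le_sq' ?_ (by positivity) |> abs_le.2
    rw [mul_pow, mc_sq, mc_im]
    nlinarith [Real.sin_sq_add_cos_sq (2 * Real.pi * t),
      sq_nonneg (Real.cos (2 * Real.pi * t) - 3 / 5)]
  have s : (3 / 5 : ℝ) ≤ Real.sin (Real.pi / 4) := by
    rw [Real.sin_pi_div_four]
    have : (6 / 5 : ℝ) ≤ √2 := Real.le_sqrt_of_sq_le (by norm_num)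
    linarith
  have k (y : ℝ) (hy : y ≤ 3 / 5) : Real.arcsin y ≤ Real.pi / 4 :=
    (Real.arcsin_le_arcsin (hy.trans s)).trans_eq
      (Real.arcsin_sin (by linarith) (by linarith))
  have k1 := k ((mcW t).im / ‖mcW t‖) ((div_le_iff₀ n).2 (abs_le.1 h).2)
  have k2 := k (-((mcW t).im / ‖mcW t‖)) (by
    rw [← neg_div]; exact (div_le_iff₀ n).2 (by linarith [(abs_le.1 h).1]))
  rw [Real.arcsin_neg] at k2
  rw [mc_arg, Complex.arg_of_re_nonneg (mc_pos t).le, le_div_iff₀ (by positivity),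
    div_le_iff₀ (by positivity)]
  constructor <;> linarith

theorem mc_a1 {t : ℝ} (h0 : 0 ≤ t) (h1 : t ≤ 1 / 2) : mcA t ≤ 0 := by
  have p := Real.pi_pos
  rw [mc_arg]
  refine div_nonpos_of_nonpos_of_nonneg (neg_nonpos.2 (Complex.arg_nonneg_iff.2 ?_)) (by positivity)
  rw [mc_im]
  exact mul_nonneg (by norm_num)
    (Real.sin_nonneg_of_nonneg_of_le_pi (by positivity) (by nlinarith))

theorem mc_a2 {t : ℝ} (h0 : 1 / 2 < t) (h1 : t < 1) : 0 < mcA t := by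
  have p := Real.pi_pos
  rw [mc_arg]
  refine div_pos (neg_pos.2 (Complex.arg_neg_iff.2 ?_)) (by positivity)
  have := Real.sin_pos_of_pos_of_lt_pi (x := 2 * Real.pi - 2 * Real.pi * t) (by nlinarith)
    (by nlinarith)
  rw [Real.sin_two_pi_sub] at this
  rw [mc_im]
  linarith

theorem mc_pol (t : ℝ) : cir t 0 = (‖cir t 0‖ : ℝ) * ex (mcA t) := by
  have p := Real.pi_pos
  have e : ex (mcA t) = Complex.exp ((cir t 0).arg * .I) := by
    unfold ex mcA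
    congr 2
    have : (Real.pi : ℂ) ≠ 0 := by exact_mod_cast p.ne'
    push_cast
    field_simp
  rw [e, Complex.norm_mul_exp_arg_mul_I]

theorem mc_ang1 {t : ℝ} (h0 : 0 ≤ t) (h1 : t ≤ 1 / 2) : ang (cir t 0) = mcA t + 1 := by
  rw [mc_pol, ← ex_one]
  exact ang_ex (by linarith [(mc_abs t).1]) (by linarith [mc_a1 h0 h1])
    (norm_pos_iff.2 (mc_ne' t))

theorem mc_ang2 {t : ℝ} (h0 : 1 / 2 < t) (h1 : t < 1) : ang (cir t 0) = mcA t := by
  rw [mc_pol]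
  exact ang_ex (mc_a2 h0 h1) (by linarith [(mc_abs t).2]) (norm_pos_iff.2 (mc_ne' t))

theorem mc_int (t : ℝ) (k : ℤ) : cir (t + k) 0 = cir t 0 := by
  have : ex (-(t + k)) = ex (-t) := by
    rw [neg_add, ex_add, ← Int.cast_neg, ex_int, mul_one]
  rw [cir, cir, this]

theorem mc_fr (t : ℝ) : cir (Int.fract t) 0 = cir t 0 := by
  rw [← mc_int _ ⌊t⌋, Int.fract_add_floor]

theorem mc_anti {s t : ℝ} (h0 : 0 ≤ s) (h : s ≤ t) (h1 : t ≤ 1 / 2) : mcX t ≤ mcX s := by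
  have p := Real.pi_pos
  have c := Real.cos_le_cos_of_nonneg_of_le_pi (x := 2 * Real.pi * s) (y := 2 * Real.pi * t)
    (by positivity) (by nlinarith) (by nlinarith)
  have n : ‖mcW s‖ ≤ ‖mcW t‖ := by
    rw [← sq_le_sq₀ (norm_nonneg _) (norm_nonneg _), mc_sq, mc_sq]; linarith
  rw [mc_x, mc_x]
  linarith [Real.log_le_log (norm_pos_iff.2 (mc_ne s)) n]

theorem mc_sym (t : ℝ) : mcX (1 - t) = mcX t := by
  have n : ‖mcW (1 - t)‖ = ‖mcW t‖ := by
    rw [← sq_eq_sq₀ (norm_nonneg _) (norm_nonneg _), mc_sq, mc_sq, mul_sub (2 * Real.pi), mul_one,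
      Real.cos_two_pi_sub]
  rw [mc_x, mc_x, n]

theorem mc_mono {s t : ℝ} (h0 : 1 / 2 ≤ s) (h : s ≤ t) (h1 : t ≤ 1) : mcX s ≤ mcX t := by
  rw [← mc_sym s, ← mc_sym t]
  exact mc_anti (by linarith) (by linarith) (by linarith)

theorem mc_x0 : 2 ≤ mcX 0 := by
  have n : ‖mcW 0‖ = (5 / 2)⁻¹ := by
    rw [← sq_eq_sq₀ (norm_nonneg _) (by norm_num), mc_sq]; norm_num
  rw [mc_x, n, Real.log_inv]
  linarith [Real.one_sub_inv_le_log_of_pos (x := 5 / 2) (by norm_num)]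

theorem mc_xh : mcX (1 / 2) ≤ -1 := by
  have n : ‖mcW (1 / 2)‖ = 8 / 5 := by
    rw [← sq_eq_sq₀ (norm_nonneg _) (by norm_num), mc_sq,
      show 2 * Real.pi * (1 / 2) = Real.pi by ring, Real.cos_pi]; norm_num
  rw [mc_x, n]
  linarith [Real.one_sub_inv_le_log_of_pos (x := 8 / 5) (by norm_num)]

theorem mc_time (c : ℝ) (h0 : -1 < c) (h1 : c < 1) : ∃ t, 0 < t ∧ t < 1 / 2 ∧ mcX t = c := by
  obtain ⟨t, ⟨a, b⟩, e⟩ := intermediate_value_Icc' (a := 0) (b := 1 / 2) (by norm_num)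
    mc_cx.continuousOn (show c ∈ Icc _ _ from ⟨by linarith [mc_xh], by linarith [mc_x0]⟩)
  refine ⟨t, a.lt_of_ne ?_, b.lt_of_ne ?_, e⟩
  · rintro rfl; linarith [mc_x0]
  · rintro rfl; linarith [mc_xh]

theorem mc_le {x c : ℝ} (h : x ≤ c) (h0 : -1 ≤ c) (h1 : c ≤ 1) : mS x ≤ c := by
  rcases le_total x (-1) with k | k
  · linarith [(mS_val x).2.2.1 k]
  · rw [(mS_val x).1 (abs_le.2 ⟨k, h.trans h1⟩)]; exact h

theorem mc_ge {x c : ℝ} (h : c ≤ x) (h0 : -1 ≤ c) (h1 : c ≤ 1) : c ≤ mS x := by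
  rcases le_total 1 x with k | k
  · linarith [(mS_val x).2.1 k]
  · rw [(mS_val x).1 (abs_le.2 ⟨h0.trans h, k⟩)]; exact h

/-- the height parameter -/
def mcY (t : ℝ) : ℝ := ang (cir t 0) + mS (mX (cir t 0))

theorem mc_y1 {t : ℝ} (h0 : 0 ≤ t) (h1 : t ≤ 1 / 2) : mcY t = mcU t + 1 := by
  rw [mcY, mc_ang1 h0 h1, mcU, mcX]; ring

theorem mc_y2 {t : ℝ} (h0 : 1 / 2 < t) (h1 : t < 1) : mcY t = mcU t := by
  rw [mcY, mc_ang2 h0 h1, mcU, mcX]

theorem mc_b1 {t c : ℝ} (h0 : 0 ≤ t) (h1 : t ≤ 1 / 2) (c0 : -1 ≤ c) (c1 : c ≤ 1) :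
    (mcX t ≤ c → mcY t ≤ c + 1) ∧ (c ≤ mcX t → c + 7 / 8 ≤ mcY t) := by
  rw [mc_y1 h0 h1, mcU]
  exact ⟨fun k => by linarith [mc_le k c0 c1, mc_a1 h0 h1],
    fun k => by linarith [mc_ge k c0 c1, (mc_abs t).1]⟩

theorem mc_b2 {t c : ℝ} (h0 : 1 / 2 < t) (h1 : t < 1) (c0 : -1 ≤ c) (c1 : c ≤ 1) :
    (mcX t ≤ c → mcY t ≤ c + 1 / 8) ∧ (c ≤ mcX t → c ≤ mcY t) := by
  rw [mc_y2 h0 h1, mcU]
  exact ⟨fun k => by linarith [mc_le k c0 c1, (mc_abs t).2],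
    fun k => by linarith [mc_ge k c0 c1, mc_a2 h0 h1]⟩

theorem mc_phi (i : ℕ) (e b : ℤ) : ∃ φ : ℝ → ℝ, Continuous φ ∧ (∀ t, φ (t + 1) = φ t + (1 + i)) ∧
    (∀ t, ∃ k : ℤ, φ t = mG i e b (mcY t) + k) ∧
    (∀ t, 0 ≤ t → t ≤ 1 / 2 → φ t = mG i e b (mcY t)) ∧
    ∀ t, 1 / 2 < t → t < 1 → φ t = mG i e b (mcY t) + 1 := by
  have g := (mG_sm i e b).continuous
  let ψ : ℝ → ℝ := fun t => if t ≤ 1 / 2 then mG i e b (mcU t + 1) else mG i e b (mcU t) + 1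
  have cψ : Continuous ψ := by
    refine Continuous.if_le (g.comp (mc_cu.add continuous_const))
      ((g.comp mc_cu).add continuous_const) continuous_id continuous_const fun t ht => ?_
    obtain rfl : t = 1 / 2 := ht
    have : mcU (1 / 2) ≤ -1 := by
      rw [mcU]; linarith [mc_a1 (t := 1 / 2) (by norm_num) le_rfl, (mS_val _).2.2.1 mc_xh]
    rw [(mG_val i e b _).1 (by linarith), (mG_val i e b _).1 (by linarith)]
  have u0 : 1 ≤ mcU 0 := by rw [mcU, (mS_val _).2.2.2.1 mc_x0]; linarith [(mc_abs 0).1]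
  have u1 : mcU 1 = mcU 0 := by
    have := mc_int 0 1
    rw [Int.cast_one, zero_add] at this
    rw [mcU, mcU, mcA, mcA, mcX, mcX, this]
  have p1 {t : ℝ} (h0 : 0 ≤ t) (h1 : t ≤ 1 / 2) : ψ t = mG i e b (mcY t) := by
    rw [mc_y1 h0 h1]; exact if_pos h1
  have p2 {t : ℝ} (h0 : 1 / 2 < t) (h1 : t < 1) : ψ t = mG i e b (mcY t) + 1 := by
    rw [mc_y2 h0 h1]; exact if_neg h0.not_ge
  have fr {t : ℝ} (h0 : 0 ≤ t) (h1 : t < 1) : ψ (Int.fract t) + (1 + i) * ⌊t⌋ = ψ t := by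
    rw [Int.fract_eq_self.2 ⟨h0, h1⟩, Int.floor_eq_zero_iff.2 ⟨h0, h1⟩, Int.cast_zero, mul_zero,
      add_zero]
  refine ⟨fun t => ψ (Int.fract t) + (1 + i) * ⌊t⌋, ?_, fun t => ?_, fun t => ?_,
    fun t h0 h1 => (fr h0 (by linarith)).trans (p1 h0 h1),
    fun t h0 h1 => (fr (by linarith) h1).trans (p2 h0 h1)⟩
  · have := ContinuousOn.comp_fract'' (f := fun t => ψ t - (1 + i) * t) (by fun_prop) (by
      simp only [ψ]
      rw [if_pos (by norm_num), if_neg (by norm_num), u1, (mG_val i e b _).2.2.2.2 (by linarith),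
        (mG_val i e b _).2.2.2.2 (by linarith)]
      ring)
    refine (this.add (continuous_const.mul continuous_id : Continuous fun t : ℝ => (1 + i) * t)).congr
      fun t => ?_
    change ψ (Int.fract t) - (1 + i) * (t - ⌊t⌋) + (1 + i) * t = _
    ring
  · simp only [Int.fract_add_one, Int.floor_add_one]
    push_cast
    ring
  · have y : mcY (Int.fract t) = mcY t := by rw [mcY, mcY, mc_fr]
    rcases le_or_gt (Int.fract t) (1 / 2) with k | k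
    · exact ⟨(1 + i) * ⌊t⌋, by simp only [p1 (Int.fract_nonneg t) k, y]; push_cast; ring⟩
    · exact ⟨1 + (1 + i) * ⌊t⌋, by simp only [p2 k (Int.fract_lt_one t), y]; push_cast; ring⟩

theorem mod_word (h : 2 ≤ M) (i : ℕ) (e b : ℤ) :
    WL i e b fun t => mP M (cir t 0) * mH i e b (cir t 0) := by
  obtain ⟨φ, f1, f2, f3, f4, f5⟩ := mc_phi i e b
  let s : ℝ → ℝ := fun t => (mcX t - mW (mT (cir t 0)) * mC M (mcX t)) / 4
  have es (t) : mP M (cir t 0) = Real.exp (s t) := rfl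
  have sg (t) := mod_sign h (mc_om t) (y := mcY t) rfl
  have neg {t} (k : mcY t ≤ 3 / 20 ∨ mcY t ∈ Icc (57 / 100 : ℝ) (7 / 10)) : 0 < -1 * s t := by
    have := (sg t).1 k
    rw [es, Real.exp_lt_one_iff] at this
    linarith
  have pos {t} (k : mcY t ∈ Icc (3 / 10 : ℝ) (21 / 50) ∨ 17 / 20 ≤ mcY t) : 0 < 1 * s t := by
    have := (sg t).2 k
    rw [es, Real.one_lt_exp_iff] at this
    linarith
  have w {t} (k : ∃ m : ℤ, mG i e b (mcY t) = m) : ∃ m : ℤ, φ t = m := by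
    obtain ⟨m, hm⟩ := k
    obtain ⟨n, hn⟩ := f3 t
    exact ⟨m + n, by rw [hn, hm, Int.cast_add]⟩
  have G (t) := mG_val i e b (mcY t)
  have w1 {t} (a : 3 / 20 ≤ mcY t) (c : mcY t ≤ 3 / 10) : ∃ m : ℤ, φ t = m :=
    w ⟨0, ((G t).2.1 ⟨a, c⟩).trans Int.cast_zero.symm⟩
  have w2 {t} (a : 21 / 50 ≤ mcY t) (c : mcY t ≤ 57 / 100) : ∃ m : ℤ, φ t = m :=
    w ⟨b, (G t).2.2.1 ⟨a, c⟩⟩
  have w3 {t} (a : 7 / 10 ≤ mcY t) (c : mcY t ≤ 17 / 20) : ∃ m : ℤ, φ t = m :=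
    w ⟨b - e, ((G t).2.2.2.1 ⟨a, c⟩).trans (Int.cast_sub _ _).symm⟩
  have sA {t} (a : 21 / 50 ≤ mcY t) (c : mcY t ≤ 17 / 20) : (∃ m : ℤ, φ t = m) ∨ 0 < -1 * s t := by
    rcases le_total (mcY t) (57 / 100) with k | k
    · exact .inl (w2 a k)
    · exact (le_total (mcY t) (7 / 10)).elim (fun l => .inr (neg (.inr ⟨k, l⟩))) fun l =>
        .inl (w3 l c)
  have sB {t} (a : 3 / 20 ≤ mcY t) (c : mcY t ≤ 57 / 100) : (∃ m : ℤ, φ t = m) ∨ 0 < 1 * s t := by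
    rcases le_total (mcY t) (3 / 10) with k | k
    · exact .inl (w1 a k)
    · exact (le_total (mcY t) (21 / 50)).elim (fun l => .inr (pos (.inl ⟨k, l⟩))) fun l =>
        .inl (w2 l c)
  have sC {t} (c : mcY t ≤ 3 / 10) : (∃ m : ℤ, φ t = m) ∨ 0 < -1 * s t :=
    (le_total (mcY t) (3 / 20)).elim (fun l => .inr (neg (.inl l))) fun l => .inl (w1 l c)
  have sD {t} (a : 7 / 10 ≤ mcY t) : (∃ m : ℤ, φ t = m) ∨ 0 < 1 * s t :=
    (le_total (mcY t) (17 / 20)).elim (fun l => .inl (w3 a l)) fun l => .inr (pos (.inr l))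
  obtain ⟨t0, a0, b0, e0⟩ := mc_time (-(3 / 20)) (by norm_num) (by norm_num)
  obtain ⟨t1, a1, b1, e1⟩ := mc_time (-(43 / 100)) (by norm_num) (by norm_num)
  obtain ⟨t2, a2, b2, e2⟩ := mc_time (-(7 / 10)) (by norm_num) (by norm_num)
  obtain ⟨r3, a3, b3, e3⟩ := mc_time (3 / 20) (by norm_num) (by norm_num)
  obtain ⟨r4, a4, b4, e4⟩ := mc_time (21 / 50) (by norm_num) (by norm_num)
  obtain ⟨r5, a5, b5, e5⟩ := mc_time (7 / 10) (by norm_num) (by norm_num)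
  have lt {u v : ℝ} (hv : 0 < v) (hu : u < 1 / 2) (k : mcX v < mcX u) : u < v :=
    lt_of_not_ge fun l => k.not_ge (mc_anti hv.le l hu.le)
  have l1 : t0 < t1 := lt a1 b0 (by rw [e0, e1]; norm_num)
  have l2 : t1 < t2 := lt a2 b1 (by rw [e1, e2]; norm_num)
  have l4 : r4 < r3 := lt a3 b4 (by rw [e3, e4]; norm_num)
  have l5 : r5 < r4 := lt a4 b5 (by rw [e4, e5]; norm_num)
  rw [← mc_sym] at e3 e4 e5
  have U1 {t u c : ℝ} (h0 : 0 ≤ u) (k : u ≤ t) (h1 : t ≤ 1 / 2) (q : mcX u = c) (c0 : -1 ≤ c)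
      (c1 : c ≤ 1) : mcY t ≤ c + 1 := (mc_b1 (h0.trans k) h1 c0 c1).1 (q ▸ mc_anti h0 k h1)
  have L1 {t u c : ℝ} (h0 : 0 ≤ t) (k : t ≤ u) (h1 : u ≤ 1 / 2) (q : mcX u = c) (c0 : -1 ≤ c)
      (c1 : c ≤ 1) : c + 7 / 8 ≤ mcY t := (mc_b1 h0 (k.trans h1) c0 c1).2 (q ▸ mc_anti h0 k h1)
  have U2 {t u c : ℝ} (h0 : 1 / 2 < t) (k : t ≤ u) (h1 : u < 1) (q : mcX u = c) (c0 : -1 ≤ c)
      (c1 : c ≤ 1) : mcY t ≤ c + 1 / 8 :=
    (mc_b2 h0 (k.trans_lt h1) c0 c1).1 (q ▸ mc_mono h0.le k h1.le)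
  have L2 {t u c : ℝ} (h0 : 1 / 2 < u) (k : u ≤ t) (h1 : t < 1) (q : mcX u = c) (c0 : -1 ≤ c)
      (c1 : c ≤ 1) : c ≤ mcY t := (mc_b2 (h0.trans_le k) h1 c0 c1).2 (q ▸ mc_mono h0.le k h1.le)
  have B1 {t c : ℝ} (h0 : 0 < t) (h1 : t < 1 / 2) (q : mcX t = c) (c0 : -1 ≤ c) (c1 : c ≤ 1) :
      c + 7 / 8 ≤ mcY t ∧ mcY t ≤ c + 1 :=
    ⟨L1 h0.le le_rfl h1.le q c0 c1, U1 h0.le le_rfl h1.le q c0 c1⟩
  have B2 {t c : ℝ} (h0 : 0 < t) (h1 : t < 1 / 2) (q : mcX (1 - t) = c) (c0 : -1 ≤ c)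
      (c1 : c ≤ 1) : c ≤ mcY (1 - t) ∧ mcY (1 - t) ≤ c + 1 / 8 :=
    ⟨L2 (by linarith) le_rfl (by linarith) q c0 c1, U2 (by linarith) le_rfl (by linarith) q c0 c1⟩
  have per (t : ℝ) : cir (t + 1) 0 = cir t 0 := by simpa only [Int.cast_one] using mc_int t 1
  refine ⟨s, φ, b - e, t0, t1, t2, 1 - r3, 1 - r4, 1 - r5, ?_, f1, fun t => ⟨?_, ?_, f2 t⟩, l1, l2,
    by linarith, by linarith, by linarith, by linarith, ?_, ?_, ?_, ?_, ?_, ?_,
    fun t ⟨p, q⟩ => sA ?_ ?_, fun t ⟨p, q⟩ => sB ?_ ?_, fun t ⟨p, q⟩ => sC ?_,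
    fun t ⟨p, q⟩ => sB ?_ ?_, fun t ⟨p, q⟩ => sA ?_ ?_, fun t ⟨p, q⟩ => sD ?_⟩
  · have n (t : ℝ) : ((‖cir t 0‖ : ℝ) : ℂ) ≠ 0 :=
      Complex.ofReal_ne_zero.2 (norm_ne_zero_iff.2 (mc_ne' t))
    have cT : Continuous fun t => mT (cir t 0) :=
      (mc_cc.div (Complex.continuous_ofReal.comp mc_cc.norm) n).mul
        (contDiff_ex.continuous.comp (mS_sm.continuous.comp mc_cx))
    have cW : Continuous fun t => mW (mT (cir t 0)) :=
      mW_sm.continuousOn.comp_continuous cT fun t => mul_ne_zero (div_ne_zero (mc_ne' t) (n t))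
        (norm_ne_zero_iff.1 (by rw [norm_ex]; exact one_ne_zero))
    exact (mc_cx.sub (cW.mul ((mC_val h 0).1.continuous.comp mc_cx))).div_const 4
  · obtain ⟨k, hk⟩ := f3 t
    rw [hk, ex_add, ex_int, mul_one]
    rfl
  · simp only [s, mcX, per]
  · have := B1 a0 b0 e0 (by norm_num) (by norm_num)
    rw [f4 _ a0.le b0.le, (G _).2.2.2.1 ⟨by linarith [this.1], by linarith [this.2]⟩]
    push_cast; ring
  · have := B1 a1 b1 e1 (by norm_num) (by norm_num)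
    rw [f4 _ a1.le b1.le, (G _).2.2.1 ⟨by linarith [this.1], by linarith [this.2]⟩]
    push_cast; ring
  · have := B1 a2 b2 e2 (by norm_num) (by norm_num)
    rw [f4 _ a2.le b2.le, (G _).2.1 ⟨by linarith [this.1], by linarith [this.2]⟩]
    push_cast; ring
  · have := B2 a3 b3 e3 (by norm_num) (by norm_num)
    rw [f5 _ (by linarith) (by linarith), (G _).2.1 ⟨by linarith [this.1], by linarith [this.2]⟩]
    push_cast; ring
  · have := B2 a4 b4 e4 (by norm_num) (by norm_num)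
    rw [f5 _ (by linarith) (by linarith), (G _).2.2.1 ⟨by linarith [this.1], by linarith [this.2]⟩]
    push_cast; ring
  · have := B2 a5 b5 e5 (by norm_num) (by norm_num)
    rw [f5 _ (by linarith) (by linarith),
      (G _).2.2.2.1 ⟨by linarith [this.1], by linarith [this.2]⟩]
    push_cast; ring
  · linarith [L1 (a0.le.trans p) q b1.le e1 (by norm_num) (by norm_num)]
  · linarith [U1 a0.le p (q.trans b1.le) e0 (by norm_num) (by norm_num)]
  · linarith [L1 (a1.le.trans p) q b2.le e2 (by norm_num) (by norm_num)]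
  · linarith [U1 a1.le p (q.trans b2.le) e1 (by norm_num) (by norm_num)]
  · rcases le_or_gt t (1 / 2) with k | k
    · linarith [U1 a2.le p k e2 (by norm_num) (by norm_num)]
    · linarith [U2 k q (by linarith) e3 (by norm_num) (by norm_num)]
  · linarith [L2 (by linarith) p (by linarith) e3 (by norm_num) (by norm_num)]
  · linarith [U2 (by linarith) q (by linarith) e4 (by norm_num) (by norm_num)]
  · linarith [L2 (by linarith) p (by linarith) e4 (by norm_num) (by norm_num)]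
  · linarith [U2 (by linarith) q (by linarith) e5 (by norm_num) (by norm_num)]
  · rcases lt_or_ge t 1 with k | k
    · linarith [L2 (by linarith) p k e5 (by norm_num) (by norm_num)]
    · have y : mcY t = mcY (t - 1) := by rw [mcY, mcY, ← per (t - 1), sub_add_cancel]
      linarith [L1 (t := t - 1) (by linarith) (by linarith) b0.le e0 (by norm_num) (by norm_num)]

end Pool.Agent.Lib.MP_b2e238_gt
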