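import Pool.Agent.Lib.MP_b2e238_gt.C.ModA
import Pool.Agent.Lib.MP_b2e238_gt.C.ModB
import Pool.Agent.Lib.MP_b2e238_gt.C.ModC

/-! The planar model exists. -/

open scoped ContDiff Topology
open Set Metric

noncomputable section

namespace Pool.Agent.Lib.MP_b2e238_gt

theorem model (i : ℕ) (e b : ℤ) : ∃ p τ g R, Mod i e b p τ g R := by
  obtain ⟨M, h, k⟩ := mC_ex
  have p := Real.exp_pos (M / 4)
  have l : Real.exp (M / 4) ≤ max 100 (Real.exp (M / 4)) := le_max_right _ _
  refine ⟨mP M, mT, mH i e b, max 100 (Real.exp (M / 4)), le_max_left _ _, mod_dif h k,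
    mH_sm i e b, fun Z _ => mem_S1.2 (norm_ex _), fun Z hZ => mod_wall h hZ,
    fun Z h0 hZ => mod_left h h0 ?_, fun Z hZ => mod_right h ?_, mod_word h i e b⟩
  · have := Real.log_le_log (norm_pos_iff.2 h0) (hZ.trans (inv_anti₀ p l))
    rw [Real.log_inv, Real.log_exp] at this
    rw [mX]
    linarith
  · have := Real.log_le_log p (l.trans hZ)
    rw [Real.log_exp] at this
    rw [mX]
    linarith

end Pool.Agent.Lib.MP_b2e238_gt
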