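import Pool.Agent.Lib.MP_b2e238_gt.B.Defs
import Pool.Agent.Lib.MP_b2e238_gt.K.Mat

/-! Coordinates `(η, c, T)` on the regular part of the trefoil exterior times a circle. -/

open scoped ContDiff Topology
open Set Metric

noncomputable section

namespace Pool.Agent.Lib.MP_b2e238_gt

/-- `0` for `x ≤ a`, `1` for `b ≤ x`. -/
def cut (a b x : ℝ) : ℝ := Real.smoothTransition ((x - a) / (b - a))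

/-- The base `η = y ^ 3 / z ^ n`: `0` is the `3`-fibre, `-1` the `2`-fibre, `∞` the end. -/
def CC : Set ℂ := {0, -1}ᶜ

/-- `1` near `0`, `1 + η` in the middle, `η` near `∞`. -/
def lam (η : ℂ) : ℂ := (1 - cut 4 9 (‖η‖ ^ 2) : ℝ) + (cut (1 / 9) (1 / 4) (‖η‖ ^ 2) : ℝ) * η

def gA (η : ℂ) : ℂ := ph (lam η) * ph (sq (1 + (cut 4 9 (‖η‖ ^ 2) : ℝ) / η)) / ph η

def gB (k : ℤ) (η : ℂ) : ℂ := ph (lam η) ^ k / ph η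

/-- The point of `Yn 1` over `η` with `ph (x / y) = c`. -/
def sec (η c : ℂ) : C3 :=
  toY 1 (-c ^ 3 * η / (1 + η), -c ^ 2 * η / (1 + η), -c ^ 6 * η ^ 2 / (1 + η) ^ 3)

/-- The gauge in which the pair of pants is a graph; `i = 1, 2`. -/
def PiE (i : ℕ) (u : C3) : C3 × ℂ := (sec u.1 (u.2.1 * gA u.1), u.2.2 * gB (4 - i) u.1)

/-- The inverse of `PiE`. -/
def PiI (i : ℕ) (a : C3 × ℂ) : C3 :=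
  (a.1.2.1 ^ 3 / a.1.2.2, ph (a.1.1 / a.1.2.1) / gA (a.1.2.1 ^ 3 / a.1.2.2),
    a.2 / gB (4 - i) (a.1.2.1 ^ 3 / a.1.2.2))

/-- The regular part. -/
def YR : Set (C3 × ℂ) := {a | a ∈ YO 1 ∧ a.1.1 ≠ 0 ∧ a.1.2.1 ≠ 0}

/-- The collar of the end in the angles `(3 β - h, β, ∂ / ∂ arg η)`. -/
def cl (i : ℕ) (u : ℝ × C3) : C3 × ℂ :=
  PiE i ((((u.1 ^ 3)⁻¹ : ℝ) : ℂ) * (u.2.2.2 / (u.2.1 ^ 3 * u.2.2.1) ^ i), u.2.1⁻¹, u.2.1 ^ 3 * u.2.2.1)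

/-- The chart at the `3`-fibre. -/
def F3 (u : C3) : C3 × ℂ :=
  (toY 1 (-u.1 / (1 + u.2.1 ^ 3 / u.1 ^ 2), -u.2.1 / (1 + u.2.1 ^ 3 / u.1 ^ 2),
    -u.1 ^ 2 / (1 + u.2.1 ^ 3 / u.1 ^ 2) ^ 3), u.2.2)

/-- Exponents of a monomial embedding of `YO 1` in `MM n`. -/
structure JD where
  n : ℕ
  i₁ : ℤ
  i₂ : ℤ
  e₁ : ℤ
  e₂ : ℤ
  k : ℤ
  l : ℤ

def JD.OK (d : JD) : Prop :=
  d.n ≠ 0 ∧ 6 * d.i₁ + 1 = d.n * d.e₁ ∧ 6 * d.i₂ = d.n * d.e₂ ∧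
    (d.e₁ * d.l - d.e₂ * d.k = 1 ∨ d.e₁ * d.l - d.e₂ * d.k = -1)

def JD.j (d : JD) (a : C3 × ℂ) : C3 × ℂ :=
  (toB d.n (Jm (1 / d.n) d.i₁ d.i₂ d.e₁ d.e₂ d.k d.l a).1,
    (Jm (1 / d.n) d.i₁ d.i₂ d.e₁ d.e₂ d.k d.l a).2)

def jS (s : ℤ) : JD := ⟨(6 * s + 1).natAbs, s, 0, (6 * s + 1).sign, 0, 3 * s, 1⟩
def jA : JD := ⟨5, 4, -5, 5, -6, -6, 7⟩

/-- The loop in `Bri n` over the loop `η`. -/
def JD.lp (d : JD) (i : ℕ) (η : ℝ → ℂ) (t : ℝ) : C3 := (d.j (PiE i (η t, ex t, 1))).1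

/-- On `[a, b]` the angle is an integer or the radius has the sign `σ`. -/
def Seg (s φ : ℝ → ℝ) (a b σ : ℝ) : Prop := ∀ t ∈ Icc a b, (∃ k : ℤ, φ t = k) ∨ 0 < σ * s t

/-- `η` is a loop in `CC` that reads `f ^ e ξ ^ b f ξ ^ (-b) f ^ (-e) ξ ^ (-i)`, where `f` is a
positive turn inside and `ξ` a negative turn outside the unit circle. -/
def WL (i : ℕ) (e b : ℤ) (η : ℝ → ℂ) : Prop :=
  ∃ (s φ : ℝ → ℝ) (c : ℤ) (t₀ t₁ t₂ t₃ t₄ t₅ : ℝ), Continuous s ∧ Continuous φ ∧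
    (∀ t, η t = Real.exp (s t) * ex (φ t) ∧ s (t + 1) = s t ∧ φ (t + 1) = φ t + (1 + i)) ∧
    t₀ < t₁ ∧ t₁ < t₂ ∧ t₂ < t₃ ∧ t₃ < t₄ ∧ t₄ < t₅ ∧ t₅ < t₀ + 1 ∧
    φ t₀ = c ∧ φ t₁ = c + e ∧ φ t₂ = c + e - b ∧ φ t₃ = c + e - b + 1 ∧ φ t₄ = c + e + 1 ∧
    φ t₅ = c + 1 ∧ Seg s φ t₀ t₁ (-1) ∧ Seg s φ t₁ t₂ 1 ∧ Seg s φ t₂ t₃ (-1) ∧ Seg s φ t₃ t₄ 1 ∧
    Seg s φ t₄ t₅ (-1) ∧ Seg s φ t₅ (t₀ + 1) 1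

/-- The surgery of `Bri n × S¹` on the graph of `γ` with `k` full turns is `S⁴`. -/
def RK (n : ℕ) (γ : ℝ → C3) (k : ℤ) : Prop :=
  Gq (Bri n) (om n) γ (fun t => mu (ex (k * t))) S4

/-- The domain of the pair of pants, in the coordinate `Z`. -/
def Om : Set ℂ := {Z | Z ≠ 0 ∧ 1 / 2 < ‖1 - Z⁻¹‖}

/-- The circle `‖1 - Z⁻¹‖ = 3 / 5 + r`, clockwise. -/
def cir (t r : ℝ) : ℂ := (1 - (3 / 5 + r : ℝ) * ex (-t))⁻¹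

/-- The planar model: `Z ↦ (p Z, τ Z)` is a diffeomorphism onto a cylinder, `g` the height. -/
structure Mod (i : ℕ) (e b : ℤ) (p : ℂ → ℝ) (τ g : ℂ → ℂ) (R : ℝ) : Prop where
  big : 100 ≤ R
  dif : ∃ ψ, Dif ({0}ᶜ : Set ℂ) (Ioi (0 : ℝ) ×ˢ S1) (fun Z => (p Z, τ Z)) ψ
  sm : ContDiffOn ℝ ∞ g Om
  mem : MapsTo g Om S1
  wall : ∀ Z ∈ Om, p Z = 1 → g Z = 1
  left : ∀ Z ≠ 0, ‖Z‖ ≤ R⁻¹ → p Z = ‖Z‖ ∧ τ Z = ph Z ∧ g Z = ph Z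
  right : ∀ Z, R ≤ ‖Z‖ → p Z = ‖Z‖ ∧ τ Z = ph Z ∧ g Z = (ph Z ^ i)⁻¹
  word : WL i e b fun t => p (cir t 0) * g (cir t 0)

/-- The tube round the third boundary curve of the pair of pants, in the coordinates of `PiE`. -/
def tb0 (p : ℂ → ℝ) (τ g : ℂ → ℂ) (u : ℝ × E3) : C3 :=
  (p (cir u.1 u.2.1.re) * g (cir u.1 u.2.1.re) * ex u.2.1.im, ex (u.1 + u.2.2), τ (cir u.1 u.2.1.re))

/-- The shear of the circle factor by a function of the fibre coordinate. -/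
def Sh (i : ℕ) (χ G : ℂ → ℝ) (a : C3 × ℂ) : C3 × ℂ :=
  (a.1, a.2 * ex (χ (PiI i a).1 * G (PiI i a).2.1))

/-- The phase of `z` at `PiE i (η, c, T)`. -/
def wz (η c : ℂ) : ℂ := -(c * gA η) ^ 6 * ph η ^ 2 / ph (1 + η) ^ 3

/-- The horizontal coefficient of the coframe is `hz * d log η`. -/
def hz (n : ℕ) (a : C3) : ℂ := -(a.2.1 * a.2.2 / a.1) *
  (‖(grd n a).1‖ ^ 2 + ‖(grd n a).2.1‖ ^ 2 + ‖(grd n a).2.2‖ ^ 2 : ℝ)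

def nE (n : ℕ) (a : C3) : ℝ := ‖(eul n a).1‖ ^ 2 + ‖(eul n a).2.1‖ ^ 2 + ‖(eul n a).2.2‖ ^ 2

/-- Logarithmic coordinates. -/
def JD.jt (d : JD) (i : ℕ) (u : ℂ × ℝ × ℝ) : C3 × ℂ :=
  d.j (PiE i (Complex.exp u.1, ex u.2.1, ex u.2.2))

/-- The number of turns of the frame of the tube. -/
def JD.tw (d : JD) (i : ℕ) : ℤ := 1 + (d.e₁ - d.i₁) * (2 - i) + (d.e₂ - d.i₂)

end Pool.Agent.Lib.MP_b2e238_gt
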