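import Pool.Agent.Lib.MP_b2e238_gt.C.MDefs
import Pool.Agent.Lib.MP_b2e238_gt.B.FillI
import Pool.Agent.Lib.MP_b2e238_gt.TL.Cmap

/-! One-variable facts. -/

open scoped ContDiff Topology
open Set Metric

noncomputable section

namespace Pool.Agent.Lib.MP_b2e238_gt

variable {i : ℕ} {e b : ℤ} {p : ℂ → ℝ} {τ g Λ : ℂ → ℂ} {R M : ℝ} {d : JD}

theorem cut_sm (a b : ℝ) : ContDiff ℝ ∞ (cut a b) :=
  Real.smoothTransition.contDiff.comp ((contDiff_id.sub contDiff_const).div_const _)

theorem cut_zero {a b x : ℝ} (h : a < b) (k : x ≤ a) : cut a b x = 0 :=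
  Real.smoothTransition.zero_of_nonpos
    (div_nonpos_of_nonpos_of_nonneg (sub_nonpos.2 k) (sub_pos.2 h).le)

theorem cut_mem (a b x : ℝ) : 0 ≤ cut a b x ∧ cut a b x ≤ 1 :=
  ⟨Real.smoothTransition.nonneg _, Real.smoothTransition.le_one _⟩

theorem cut_mono {a b : ℝ} (h : a < b) : Monotone (cut a b) := fun _ _ k =>
  Real.smoothTransition.monotone (div_le_div_of_nonneg_right (sub_le_sub_right k a) (sub_pos.2 h).le)

theorem mG_sm (i : ℕ) (e b : ℤ) : ContDiff ℝ ∞ (mG i e b) :=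
  (((contDiff_id.mul (contDiff_const.sub (cut_sm _ _))).add (contDiff_const.mul (cut_sm _ _))).sub
    (contDiff_const.mul (cut_sm _ _))).sub ((contDiff_const.mul contDiff_id).mul (cut_sm _ _))

theorem mG_val (i : ℕ) (e b : ℤ) (x : ℝ) : (x ≤ 1 / 10 → mG i e b x = x) ∧
    (x ∈ Icc (3 / 20 : ℝ) (3 / 10) → mG i e b x = 0) ∧
    (x ∈ Icc (21 / 50 : ℝ) (57 / 100) → mG i e b x = b) ∧
    (x ∈ Icc (7 / 10 : ℝ) (17 / 20) → mG i e b x = b - e) ∧
    (9 / 10 ≤ x → mG i e b x = b - e - i * x) := by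
  refine ⟨fun h => ?_, fun ⟨h, k⟩ => ?_, fun ⟨h, k⟩ => ?_, fun ⟨h, k⟩ => ?_, fun h => ?_⟩
  · rw [mG, cut_zero (by norm_num) h, cut_zero (by norm_num) (by linarith),
      cut_zero (by norm_num) (by linarith), cut_zero (by norm_num) (by linarith)]
    ring
  · rw [mG, cut_one (by norm_num) h, cut_zero (by norm_num) k,
      cut_zero (by norm_num) (by linarith), cut_zero (by norm_num) (by linarith)]
    ring
  · rw [mG, cut_one (by norm_num) (by linarith), cut_one (by norm_num) h,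
      cut_zero (by norm_num) k, cut_zero (by norm_num) (by linarith)]
    ring
  · rw [mG, cut_one (by norm_num) (by linarith), cut_one (by norm_num) (by linarith),
      cut_one (by norm_num) h, cut_zero (by norm_num) k]
    ring
  · rw [mG, cut_one (by norm_num) (by linarith), cut_one (by norm_num) (by linarith),
      cut_one (by norm_num) (by linarith), cut_one (by norm_num) h]
    ring

theorem mN_val (y : ℝ) : 0 ≤ mN y ∧ mN y ≤ 1 ∧ (y ≤ 3 / 20 → mN y = 0) ∧
    (y ∈ Icc (3 / 10 : ℝ) (21 / 50) → mN y = 1) ∧ (y ∈ Icc (57 / 100 : ℝ) (7 / 10) → mN y = 0) ∧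
    (17 / 20 ≤ y → mN y = 1) := by
  have a := cut_mem (3 / 20) (3 / 10) y
  have b := cut_mem (21 / 50) (57 / 100) y
  have c := cut_mem (7 / 10) (17 / 20) y
  have a0 := cut_zero (a := 3 / 20) (b := 3 / 10) (x := y) (by norm_num)
  have a1 := cut_one (a := 3 / 20) (b := 3 / 10) (x := y) (by norm_num)
  have b0 := cut_zero (a := 21 / 50) (b := 57 / 100) (x := y) (by norm_num)
  have b1 := cut_one (a := 21 / 50) (b := 57 / 100) (x := y) (by norm_num)
  have c0 := cut_zero (a := 7 / 10) (b := 17 / 20) (x := y) (by norm_num)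
  have c1 := cut_one (a := 7 / 10) (b := 17 / 20) (x := y) (by norm_num)
  unfold mN
  refine ⟨?_, ?_, fun h => ?_, fun ⟨h, k⟩ => ?_, fun ⟨h, k⟩ => ?_, fun h => ?_⟩
  · rcases le_total y (21 / 50) with h | h
    · linarith [b0 h]
    · linarith [a1 (by linarith)]
  · rcases le_total y (7 / 10) with h | h
    · linarith [c0 h]
    · linarith [b1 (by linarith)]
  · linarith [a0 h, b0 (by linarith), c0 (by linarith)]
  · linarith [a1 h, b0 k, c0 (by linarith)]
  · linarith [a1 (by linarith), b1 h, c0 k]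
  · linarith [a1 (by linarith), b1 (by linarith), c1 h]

theorem mS_sm : ContDiff ℝ ∞ mS :=
  ((contDiff_id.mul ((cut_sm _ _).sub (cut_sm _ _))).add (contDiff_const.mul (cut_sm _ _))).sub
    (contDiff_const.mul (contDiff_const.sub (cut_sm _ _)))

theorem mS_val (x : ℝ) : (|x| ≤ 1 → mS x = x) ∧ (1 ≤ x → 1 ≤ mS x) ∧ (x ≤ -1 → mS x ≤ -1) ∧
    (2 ≤ x → mS x = 2) ∧ (x ≤ -2 → mS x = -2) := by
  have a := cut_mem (-2) (-1) x
  have b := cut_mem 1 2 x
  refine ⟨fun h => ?_, fun h => ?_, fun h => ?_, fun h => ?_, fun h => ?_⟩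
  · rw [mS, cut_one (by norm_num) (abs_le.1 h).1, cut_zero (by norm_num) (abs_le.1 h).2]
    ring
  · rw [mS, cut_one (by norm_num) (by linarith)]
    nlinarith
  · rw [mS, cut_zero (a := 1) (by norm_num) (by linarith)]
    nlinarith
  · rw [mS, cut_one (by norm_num) (by linarith), cut_one (by norm_num) h]
    ring
  · rw [mS, cut_zero (by norm_num) h, cut_zero (by norm_num) (by linarith)]
    ring

theorem ang_mem (Z : ℂ) : 0 < ang Z ∧ ang Z ≤ 1 := by
  have p : 0 < 2 * Real.pi := Real.two_pi_pos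
  have a : -(1 / 2) < (-Z).arg / (2 * Real.pi) := by
    rw [lt_div_iff₀ p]; linarith [Complex.neg_pi_lt_arg (-Z)]
  have b : (-Z).arg / (2 * Real.pi) ≤ 1 / 2 := by
    rw [div_le_iff₀ p]; linarith [Complex.arg_le_pi (-Z)]
  unfold ang
  constructor <;> linarith

theorem cut_half : ex (1 / 2) = -1 := by
  rw [ex, ← Complex.exp_pi_mul_I]
  congr 1
  push_cast
  ring

theorem cut_polar (Z : ℂ) : (‖Z‖ : ℂ) * ex (Z.arg / (2 * Real.pi)) = Z := by
  have p : (Real.pi : ℂ) ≠ 0 := Complex.ofReal_ne_zero.2 Real.pi_ne_zero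
  conv_rhs => rw [← Complex.norm_mul_exp_arg_mul_I Z]
  rw [ex]
  congr 2
  push_cast
  field_simp

theorem ex_ang {Z : ℂ} (h : Z ≠ 0) : ex (ang Z) = ph Z := by
  have k := cut_polar (-Z)
  rw [norm_neg] at k
  rw [ang, ex_add, cut_half, ph, eq_div_iff (Complex.ofReal_ne_zero.2 (norm_ne_zero_iff.2 h))]
  linear_combination -k

theorem ang_ex {y : ℝ} (h0 : 0 < y) (h1 : y ≤ 1) {r : ℝ} (hr : 0 < r) : ang (r * ex y) = y := by
  have e : -((r : ℂ) * ex y) = r * ex (y - 1 / 2) := by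
    conv_lhs => rw [← sub_add_cancel y (1 / 2), ex_add, cut_half]
    ring
  rw [ang, e, Complex.arg_real_mul _ hr, cmap_arg_ex ⟨by linarith, by linarith⟩, sub_add_cancel]

theorem ang_sm {Z : ℂ} (h : -Z ∈ Complex.slitPlane) : ContDiffAt ℝ ∞ ang Z :=
  ((ContDiffAt.comp (g := Complex.arg) Z (cmap_arg h) contDiffAt_id.neg).div_const _).add
    contDiffAt_const

theorem cut_mN : ContDiff ℝ ∞ mN := ((cut_sm _ _).sub (cut_sm _ _)).add (cut_sm _ _)

theorem mW_sm : ContDiffOn ℝ ∞ mW {0}ᶜ := fun T h => by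
  by_cases k : -T ∈ Complex.slitPlane
  · exact ((ang_sm k).sub (cut_mN.contDiffAt.comp T (ang_sm k))).contDiffWithinAt
  rw [Complex.mem_slitPlane_iff, not_or, not_lt, not_not, Complex.neg_re, Complex.neg_im,
    neg_nonpos, neg_eq_zero] at k
  have a : T.arg = 0 := Complex.arg_eq_zero_iff.2 k
  have s : T ∈ Complex.slitPlane := Complex.mem_slitPlane_iff_arg.2 ⟨by
    rw [a]; exact Real.pi_ne_zero.symm, h⟩
  have c := (cmap_arg s).div_const (2 * Real.pi)
  refine (c.congr_of_eventuallyEq ?_).contDiffWithinAt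
  filter_upwards [c.continuousAt.eventually (Ioo_mem_nhds (a := -(3 / 20)) (b := 3 / 20)
    (by norm_num [a]) (by norm_num [a])), isOpen_ne.mem_nhds h] with w m n
  have p := norm_pos_iff.2 n
  have e := cut_polar w
  generalize w.arg / (2 * Real.pi) = v at m e
  rcases lt_or_ge 0 v with l | l
  · have := ang_ex l (by linarith [m.2]) p
    rw [e] at this
    rw [mW, this, (mN_val v).2.2.1 m.2.le, sub_zero]
  · have := ang_ex (y := v + 1) (by linarith [m.1]) (by linarith) p
    rw [ex_one, e] at this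
    rw [mW, this, (mN_val _).2.2.2.2.2 (by linarith [m.1]), add_sub_cancel_right]

theorem mW_le (T : ℂ) : |mW T| ≤ 17 / 20 := by
  obtain ⟨a, b⟩ := ang_mem T
  obtain ⟨c, d, e, -, -, f⟩ := mN_val (ang T)
  rw [mW, abs_le]
  constructor
  · rcases le_total (ang T) (3 / 20) with h | h
    · linarith [e h]
    · linarith
  · rcases le_total (ang T) (17 / 20) with h | h
    · linarith
    · linarith [f h]

theorem cut_bd : ∃ K : ℝ, 0 ≤ K ∧ ∀ x, |deriv Real.smoothTransition x| ≤ K := by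
  have c : Continuous (deriv Real.smoothTransition) :=
    (Real.smoothTransition.contDiff (n := 1)).continuous_deriv le_rfl
  obtain ⟨K, h⟩ := (isCompact_Icc (a := (0 : ℝ)) (b := 1)).exists_bound_of_continuousOn
    c.continuousOn
  have k : 0 ≤ K := (norm_nonneg _).trans (h 0 (by simp))
  refine ⟨K, k, fun x => ?_⟩
  rcases lt_or_ge x 0 with a | a
  · rwa [(Filter.EventuallyEq.deriv_eq (f := fun _ => (0 : ℝ)) ((eventually_lt_nhds a).mono
      fun y m => Real.smoothTransition.zero_of_nonpos m.le)), deriv_const, abs_zero]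
  rcases lt_or_ge 1 x with b | b
  · rwa [(Filter.EventuallyEq.deriv_eq (f := fun _ => (1 : ℝ)) ((eventually_gt_nhds b).mono
      fun y m => Real.smoothTransition.one_of_one_le m.le)), deriv_const, abs_zero]
  · exact h x ⟨a, b⟩

theorem cut_der (a b x : ℝ) : HasDerivAt (cut a b)
    (deriv Real.smoothTransition ((x - a) / (b - a)) * (1 / (b - a))) x :=
  ((Real.smoothTransition.contDiff (n := 1)).differentiable one_ne_zero _).hasDerivAt.comp x
    (((hasDerivAt_id x).sub_const a).div_const _)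

theorem mC_ex : ∃ M : ℝ, 2 ≤ M ∧ ∀ x, |deriv (mC M) x| ≤ 1 := by
  obtain ⟨K, k, h⟩ := cut_bd
  refine ⟨2 * K + 2, by linarith, fun x => ?_⟩
  have d : HasDerivAt (mC (2 * K + 2)) _ x := (cut_der _ _ x).sub (cut_der _ _ x)
  have p : 0 < 2 * K + 2 - 1 := by linarith
  rw [d.deriv, show -1 - -(2 * K + 2) = 2 * K + 2 - 1 by ring, ← sub_mul, mul_one_div, abs_div,
    abs_of_pos p, div_le_one p]
  exact (abs_sub _ _).trans ((add_le_add (h _) (h _)).trans (by linarith))

theorem mC_val (h : 2 ≤ M) (x : ℝ) : ContDiff ℝ ∞ (mC M) ∧ 0 ≤ mC M x ∧ mC M x ≤ 1 ∧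
    (|x| ≤ 1 → mC M x = 1) ∧ (M ≤ |x| → mC M x = 0) := by
  have a := cut_mem (-M) (-1) x
  have b := cut_mem 1 M x
  have a0 := cut_zero (a := -M) (b := -1) (x := x) (by linarith)
  have a1 := cut_one (a := -M) (b := -1) (x := x) (by linarith)
  have b0 := cut_zero (a := 1) (b := M) (x := x) (by linarith)
  have b1 := cut_one (a := 1) (b := M) (x := x) (by linarith)
  refine ⟨(cut_sm _ _).sub (cut_sm _ _), ?_, ?_, fun k => ?_, fun k => ?_⟩ <;> unfold mC
  · rcases le_total x 1 with k | k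
    · linarith [b0 k]
    · linarith [a1 (by linarith)]
  · linarith
  · linarith [a1 (abs_le.1 k).1, b0 (abs_le.1 k).2]
  · rcases le_abs.1 k with k | k
    · linarith [a1 (by linarith), b1 k]
    · linarith [a0 (by linarith), b0 (by linarith)]

end Pool.Agent.Lib.MP_b2e238_gt
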