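import Pool.Agent.Lib.MP_b2e238_gt.C.Pin
import Pool.Agent.Lib.MP_b2e238_gt.K.Emb

/-! The thickened three-valued section is an open embedding. -/

open scoped ContDiff Topology
open Set Metric

noncomputable section

namespace Pool.Agent.Lib.MP_b2e238_gt

variable {Λ : ℂ → ℂ}

theorem d1_opn : IsOpen ({0} ∪ Z3 : Set ℂ)ᶜ :=
  (isClosed_singleton.union (isClosed_eq (by fun_prop) continuous_const)).isOpen_compl

theorem d1_ne {z : ℂ} (h : z ∉ ({0} ∪ Z3 : Set ℂ)) : z ≠ 0 ∧ dQ z ≠ 0 ∧ dQ z ≠ 1 := by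
  have z0 : z ≠ 0 := fun e => h (.inl e)
  refine ⟨z0, fun e => h (.inr (inv_eq_one.1 (sub_eq_zero.1 e).symm)), fun e => ?_⟩
  exact pow_ne_zero 3 z0 (inv_eq_zero.1 (sub_eq_self.1 e))

theorem d1_Q {z : ℂ} (h : z ≠ 0) : ContDiffAt ℝ ∞ dQ z :=
  contDiffAt_const.sub ((contDiffAt_id.pow 3).inv (pow_ne_zero 3 h))

theorem d1_dQ {z : ℂ} (h : z ≠ 0) : Function.Injective (fderiv ℝ dQ z) := by
  have a : HasDerivAt dQ (-(-(((3 : ℕ) : ℂ) * z ^ (3 - 1)) / (z ^ 3) ^ 2)) z :=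
    ((hasDerivAt_pow 3 z).inv (pow_ne_zero 3 h)).const_sub 1
  rw [(a.hasFDerivAt.restrictScalars ℝ).fderiv]
  refine (injective_iff_map_eq_zero _).2 fun v e => ?_
  simpa [h] using e

theorem Pin.dZ (h : Pin Λ) : ContDiffOn ℝ ∞ (dZ Λ) ({0} ∪ Z3)ᶜ ∧ ∀ z ∉ ({0} ∪ Z3 : Set ℂ),
    dZ Λ z ∈ Om' ∧ Function.Injective (fderiv ℝ (dZ Λ) z) ∧ (4 / 5 ≤ ‖dQ z‖ → dZ Λ z = z ^ 3) ∧
      (‖dQ z‖ < 4 / 5 → ‖dZ Λ z‖ ≤ 5) ∧
      ∀ z' ∉ ({0} ∪ Z3 : Set ℂ), dZ Λ z = dZ Λ z' → z ^ 3 = z' ^ 3 := by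
  obtain ⟨Λ', d⟩ := h.dif
  have n1 : ∀ z ∉ ({0} ∪ Z3 : Set ℂ), 1 - Λ (dQ z) ≠ 0 := fun z hz e =>
    (d1_ne hz).2.2 (d.injOn (d1_ne hz).2.1 (one_ne_zero (α := ℂ))
      ((sub_eq_zero.1 e).symm.trans (h.far 1 (by norm_num)).symm))
  have iv : ∀ z, 1 - (Pool.Agent.Lib.MP_b2e238_gt.dZ Λ z)⁻¹ = Λ (dQ z) := fun z => by
    rw [Pool.Agent.Lib.MP_b2e238_gt.dZ, inv_inv, sub_sub_cancel]
  have sm : ∀ z ∉ ({0} ∪ Z3 : Set ℂ), ContDiffAt ℝ ∞ (Pool.Agent.Lib.MP_b2e238_gt.dZ Λ) z :=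
    fun z hz => (contDiffAt_const.sub ((d.cF.contDiffAt
      (isOpen_compl_singleton.mem_nhds (d1_ne hz).2.1)).comp z (d1_Q (d1_ne hz).1))).inv (n1 z hz)
  refine ⟨fun z hz => (sm z hz).contDiffWithinAt, fun z hz => ⟨⟨inv_ne_zero (n1 z hz), ?_⟩, ?_,
    fun k => ?_, fun k => ?_, fun z' hz' e => ?_⟩⟩
  · rw [iv]
    exact d.mF (d1_ne hz).2.1
  · have c : ContDiffAt ℝ ∞ (fun Z : ℂ => Λ' (1 - Z⁻¹)) (Pool.Agent.Lib.MP_b2e238_gt.dZ Λ z) := by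
      refine ContDiffAt.comp (g := Λ') _ ?_
        (contDiffAt_const.sub (contDiffAt_id.inv (inv_ne_zero (n1 z hz))))
      rw [iv]
      exact d.cG.contDiffAt ((isOpen_lt continuous_const continuous_norm).mem_nhds
        (d.mF (d1_ne hz).2.1))
    have e : dQ =ᶠ[𝓝 z] (fun Z : ℂ => Λ' (1 - Z⁻¹)) ∘ Pool.Agent.Lib.MP_b2e238_gt.dZ Λ :=
      Filter.mem_of_superset (d1_opn.mem_nhds hz) fun y hy => by
        change dQ y = Λ' _
        rw [iv, d.gf _ (d1_ne hy).2.1]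
    have k := d1_dQ (d1_ne hz).1
    rw [e.fderiv_eq, fderiv_comp z (c.differentiableAt (by simp))
      ((sm z hz).differentiableAt (by simp))] at k
    exact Function.Injective.of_comp k
  · rw [Pool.Agent.Lib.MP_b2e238_gt.dZ, h.far _ k, dQ, sub_sub_cancel, inv_inv]
  · have a := (h.mid _ (d1_ne hz).2.1).2 k
    have b := norm_sub_norm_le 1 (Λ (dQ z))
    rw [norm_one] at b
    rw [Pool.Agent.Lib.MP_b2e238_gt.dZ, norm_inv, inv_le_comm₀ (by linarith) (by norm_num)]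
    linarith
  · have a := d.injOn (d1_ne hz).2.1 (d1_ne hz').2.1 (by rw [← iv, ← iv, e])
    exact inv_injective (sub_right_injective a)

theorem d1_pol (z : ℂ) : ‖z‖ * ex (z.arg / (2 * Real.pi)) = z := by
  have p : (Real.pi : ℂ) ≠ 0 := Complex.ofReal_ne_zero.2 Real.pi_ne_zero
  conv_rhs => rw [← Complex.norm_mul_exp_arg_mul_I z]
  rw [ex]
  congr 2
  push_cast
  field_simp

theorem d1_arg (z : ℂ) : -(1 / 2) < z.arg / (2 * Real.pi) ∧ z.arg / (2 * Real.pi) ≤ 1 / 2 := by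
  have p := Real.pi_pos
  rw [lt_div_iff₀ (by positivity), div_le_iff₀ (by positivity)]
  exact ⟨by linarith [Complex.neg_pi_lt_arg z], by linarith [Complex.arg_le_pi z]⟩

theorem d1_ex0 (t : ℝ) : ex t ≠ 0 := norm_ne_zero_iff.1 (by rw [norm_ex]; exact one_ne_zero)

theorem d1_far {z : ℂ} (h0 : z ≠ 0) (h : z ∉ Complex.slitPlane) : 1 / 20 < ‖dQ z‖ := by
  rw [Complex.mem_slitPlane_iff, not_or, not_lt, not_not] at h
  obtain ⟨x, rfl⟩ : ∃ x : ℝ, z = x := ⟨z.re, Complex.ext rfl h.2⟩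
  have a : x < 0 := lt_of_le_of_ne h.1 (Complex.ofReal_ne_zero.1 h0)
  have b : (x ^ 3)⁻¹ < 0 := inv_lt_zero.2 (Odd.pow_neg (by decide) a)
  have e : dQ x = (1 - (x ^ 3)⁻¹ : ℝ) := by rw [dQ]; push_cast; rfl
  rw [e, Complex.norm_real, Real.norm_eq_abs, abs_of_pos (by linarith)]
  linarith

theorem d1_sm {x : ℂ × ℝ × ℝ} (h : x.1 ∉ ({0} ∪ Z3 : Set ℂ)) :
    ContDiffAt ℝ ∞ (fun u : ℂ × ℝ × ℝ => ex (dM u.1 * dA u.1 u.2.1)) x := by
  have z0 := (d1_ne h).1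
  have w3 : ContDiffAt ℝ ∞ (fun u : ℂ × ℝ × ℝ => u.2.1 / 3) x := contDiffAt_snd.fst.div_const 3
  by_cases s : x.1 ∈ Complex.slitPlane
  · have a : ContDiffAt ℝ ∞ Complex.arg x.1 :=
      (Complex.imCLM.contDiff.contDiffAt.comp _
        ((Complex.contDiffAt_log s).restrict_scalars ℝ)).congr_of_eventuallyEq
        (.of_forall fun y => (Complex.log_im y).symm)
    exact contDiff_ex.contDiffAt.comp x
      (((dM_facts.1.contDiffAt (d1_opn.mem_nhds h)).comp x contDiffAt_fst).mul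
        (w3.sub ((a.comp x contDiffAt_fst).div_const _)))
  · have n : ∀ᶠ y in 𝓝 x.1, y ∉ ({0} ∪ Z3 : Set ℂ) ∧ 1 / 20 < ‖dQ y‖ :=
      (d1_opn.eventually_mem h).and
        (continuousAt_const.eventually_lt (d1_Q z0).continuousAt.norm (d1_far z0 s))
    refine ((contDiff_ex.contDiffAt.comp x w3).mul
      ((ph_at contDiffAt_fst z0).inv (ph_ne z0))).congr_of_eventuallyEq
      ((continuousAt_fst.eventually n).mono fun u hu => ?_)
    have e : ph u.1 = ex (u.1.arg / (2 * Real.pi)) := by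
      conv_lhs => rw [← d1_pol u.1]
      exact ph_pos_mul (norm_pos_iff.2 (d1_ne hu.1).1) (norm_ex _)
    change ex (dM u.1 * dA u.1 u.2.1) = ex (u.2.1 / 3) * (ph u.1)⁻¹
    rw [(dM_facts.2 _ fun k => hu.1 (.inr k)).2.2.2 hu.2.le, one_mul, e, eq_mul_inv_iff_mul_eq₀
      (d1_ex0 _), ← ex_add, dA, sub_add_cancel]

theorem d1_inj {z z' : ℂ} {w w' m : ℝ} (z0 : z ≠ 0) (e : z ^ 3 = z' ^ 3) (hw : w ∈ I5)
    (hw' : w' ∈ I5) (m0 : 0 < m) (m1 : m ≤ 1) (k : ex (m * dA z w) = ex (m * dA z' w')) :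
    z = z' ∧ w = w' := by
  have n : ‖z‖ = ‖z'‖ := (pow_left_inj₀ (norm_nonneg _) (norm_nonneg _) three_ne_zero).1
    (by rw [← norm_pow, e, norm_pow])
  have p := d1_pol z
  have p' := d1_pol z'
  have b := d1_arg z
  have b' := d1_arg z'
  rw [dA, dA] at k
  generalize z.arg / (2 * Real.pi) = a at *
  generalize z'.arg / (2 * Real.pi) = a' at *
  rw [← p, ← p', ← n, mul_pow, mul_pow] at e
  have e3 := mul_left_cancel₀ (pow_ne_zero 3 (Complex.ofReal_ne_zero.2 (norm_ne_zero_iff.2 z0))) e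
  rw [pow_three', pow_three', ← ex_add, ← ex_add, ← ex_add, ← ex_add] at e3
  obtain ⟨j, hj⟩ := ex_eq e3
  obtain ⟨l, hl⟩ := ex_eq k
  have j1 : j < 3 := by exact_mod_cast (show (j : ℝ) < 3 by linarith [b.1, b'.2])
  have j2 : -3 < j := by exact_mod_cast (show (-3 : ℝ) < j by linarith [b.2, b'.1])
  have j3 : (j : ℝ) ≤ 2 := by exact_mod_cast (show j ≤ 2 by omega)
  have j4 : (-2 : ℝ) ≤ j := by exact_mod_cast (show -2 ≤ j by omega)
  have l0 : (l : ℝ) = m * ((w' - w - j) / 3) := by linear_combination -hl - m / 3 * hj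
  obtain ⟨w1, w2⟩ := hw
  obtain ⟨w3, w4⟩ := hw'
  have l1 : l < 1 := by exact_mod_cast (show (l : ℝ) < 1 by nlinarith)
  have l2 : -1 < l := by exact_mod_cast (show (-1 : ℝ) < l by nlinarith)
  obtain rfl : l = 0 := by omega
  have q : w' - w = j := by
    have := (mul_eq_zero.1 (l0.symm.trans Int.cast_zero)).resolve_left m0.ne'
    linarith
  have j5 : j < 1 := by exact_mod_cast (show (j : ℝ) < 1 by linarith)
  have j6 : -1 < j := by exact_mod_cast (show (-1 : ℝ) < j by linarith)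
  obtain rfl : j = 0 := by omega
  rw [Int.cast_zero] at q hj
  exact ⟨p.symm.trans (by rw [n, show a = a' by linarith, p']), by linarith⟩

theorem Pin.d1 (h : Pin Λ) : Emb (({0} ∪ Z3)ᶜ ×ˢ I5 ×ˢ I5)
    (Om' ×ˢ Ioo (-(1 / 2) : ℝ) (1 / 2) ×ˢ S1) (d1 Λ) := by
  obtain ⟨cZ, hZ⟩ := h.dZ
  have oO : IsOpen Om' := by
    have : Om' = {0}ᶜ ∩ (fun Z : ℂ => ‖1 - Z⁻¹‖) ⁻¹' Ioi (3 / 5) := rfl
    exact this ▸ (continuousOn_const.sub continuousOn_inv₀).norm.isOpen_inter_preimage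
      isOpen_compl_singleton isOpen_Ioi
  have mG : ∀ z ∉ ({0} ∪ Z3 : Set ℂ),
      Pool.Agent.Lib.MP_b2e238_gt.dZ Λ z ∈ ({0, 1}ᶜ : Set ℂ) := fun z hz k => by
    rcases k with k | k
    · exact (hZ z hz).1.1 k
    · have := (hZ z hz).1.2
      rw [show Pool.Agent.Lib.MP_b2e238_gt.dZ Λ z = 1 from k] at this
      norm_num at this
  have hM : ∀ z ∉ ({0} ∪ Z3 : Set ℂ), 0 < dM z ∧ dM z ≤ 1 := fun z hz =>
    ⟨(dM_facts.2 z fun k => hz (.inr k)).1, (dM_facts.2 z fun k => hz (.inr k)).2.1⟩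
  have sZ : ∀ z ∉ ({0} ∪ Z3 : Set ℂ), ContDiffAt ℝ ∞ (Pool.Agent.Lib.MP_b2e238_gt.dZ Λ) z :=
    fun z hz => cZ.contDiffAt (d1_opn.mem_nhds hz)
  have sm : ∀ x : ℂ × ℝ × ℝ, x.1 ∉ ({0} ∪ Z3 : Set ℂ) →
      ContDiffAt ℝ ∞ (Pool.Agent.Lib.MP_b2e238_gt.d1 Λ) x := fun x hx => by
    have a := (sZ _ hx).comp x contDiffAt_fst
    have b : ContDiffAt ℝ ∞ dG (Pool.Agent.Lib.MP_b2e238_gt.dZ Λ x.1) :=
      dG_facts.1.contDiffAt ((toFinite _).isClosed.isOpen_compl.mem_nhds (mG _ hx))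
    exact a.prodMk ((((dM_facts.1.contDiffAt (d1_opn.mem_nhds hx)).comp x contDiffAt_fst).mul
      contDiffAt_snd.snd).prodMk ((ContDiffAt.comp (g := dG) x b a).mul (d1_sm hx)))
  refine emb_of_inj (mf_open (d1_opn.prod (isOpen_Ioo.prod isOpen_Ioo)))
    ((mf_open oO).prod ((mf_open isOpen_Ioo).prod mf_circle))
    (fun x hx => (sm x hx.1).contDiffWithinAt) (fun x hx => ⟨(hZ _ hx.1).1, ?_, ?_⟩)
    (fun x hx y hy e => ?_) fun x hx => ⟨(sm x hx.1).differentiableAt (by simp), fun ξ _ e => ?_⟩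
  · obtain ⟨m0, m1⟩ := hM _ hx.1
    obtain ⟨v0, v1⟩ := hx.2.2
    change -(1 / 2) < dM x.1 * x.2.2 ∧ dM x.1 * x.2.2 < 1 / 2
    constructor <;> nlinarith
  · refine mem_S1.2 ((norm_mul _ _).trans ?_)
    rw [mem_S1.1 (dG_facts.2.1 (mG _ hx.1)), norm_ex, one_mul]
  · have e1 : Pool.Agent.Lib.MP_b2e238_gt.dZ Λ x.1 = Pool.Agent.Lib.MP_b2e238_gt.dZ Λ y.1 :=
      congrArg Prod.fst e
    have e2 : dM x.1 * x.2.2 = dM y.1 * y.2.2 := congrArg (·.2.1) e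
    have e3 : dG (Pool.Agent.Lib.MP_b2e238_gt.dZ Λ x.1) * ex (dM x.1 * dA x.1 x.2.1) =
        dG (Pool.Agent.Lib.MP_b2e238_gt.dZ Λ y.1) * ex (dM y.1 * dA y.1 y.2.1) :=
      congrArg (·.2.2) e
    have c := (hZ _ hx.1).2.2.2.2 _ hy.1 e1
    have m : dM y.1 = dM x.1 := by rw [dM, dM, dQ, dQ, c]
    rw [m] at e2 e3
    rw [← e1] at e3
    obtain ⟨a, b⟩ := d1_inj (d1_ne hx.1).1 c hx.2.1 hy.2.1 (hM _ hx.1).1 (hM _ hx.1).2
      (mul_left_cancel₀ (S1_ne (dG_facts.2.1 (mG _ hx.1))) e3)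
    exact Prod.ext a (Prod.ext b (mul_left_cancel₀ (hM _ hx.1).1.ne' e2))
  · obtain ⟨z, w, v⟩ := x
    obtain ⟨ζ, o, ν⟩ := ξ
    have F := ((sm _ hx.1).differentiableAt (by simp)).hasFDerivAt
    have a := F.fst.unique ((((sZ _ hx.1).differentiableAt (by simp)).hasFDerivAt).comp
      (z, w, v) hasFDerivAt_fst)
    obtain rfl : ζ = 0 := (injective_iff_map_eq_zero _).1 (hZ _ hx.1).2.1 ζ
      ((DFunLike.congr_fun a (ζ, o, ν)).symm.trans (congrArg Prod.fst e))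
    have lw : HasDerivAt (fun t : ℝ => w + t * o) o 0 := by
      simpa using ((hasDerivAt_id (0 : ℝ)).mul_const o).const_add w
    have lv : HasDerivAt (fun t : ℝ => v + t * ν) ν 0 := by
      simpa using ((hasDerivAt_id (0 : ℝ)).mul_const ν).const_add v
    have c := F.comp_hasDerivAt_of_eq 0 ((hasDerivAt_const (0 : ℝ) z).prodMk (lw.prodMk lv))
      (by simp)
    rw [e] at c
    have c2 := ((ContinuousLinearMap.snd ℝ ℂ (ℝ × ℂ)).hasFDerivAt.comp_hasDerivAt 0 c)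
    have b1 := ((ContinuousLinearMap.fst ℝ ℝ ℂ).hasFDerivAt.comp_hasDerivAt 0 c2).unique
      (lv.const_mul (dM z))
    have b2 := ((ContinuousLinearMap.snd ℝ ℝ ℂ).hasFDerivAt.comp_hasDerivAt 0 c2).unique
      (((hasDerivAt_ex _).scomp 0 (((lw.div_const 3).sub_const
        (z.arg / (2 * Real.pi))).const_mul (dM z))).const_mul
        (dG (Pool.Agent.Lib.MP_b2e238_gt.dZ Λ z)))
    have m0 : dM z ≠ 0 := (hM _ hx.1).1.ne'
    have g0 : dG (Pool.Agent.Lib.MP_b2e238_gt.dZ Λ z) ≠ 0 := S1_ne (dG_facts.2.1 (mG _ hx.1))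
    have n0 : ν = 0 := by simpa [m0] using b1
    have w0 : o = 0 := by simpa [m0, g0, d1_ex0, Real.pi_ne_zero] using b2
    rw [n0, w0]
    rfl

end Pool.Agent.Lib.MP_b2e238_gt
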