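import Pool.Agent.Lib.MP_b2e238_gt.C.Pin
import Pool.Agent.Lib.MP_b2e238_gt.K.Emb
import Pool.Agent.Lib.MP_b2e238_gt.K.Sph
import Pool.Agent.Lib.MP_b2e238_gt.TL.Xi

/-! The meridian disc of the `3`-fibre and the polar coordinates at the surgery sphere. -/

open scoped ContDiff Topology
open Set Metric

noncomputable section

namespace Pool.Agent.Lib.MP_b2e238_gt

open TL

variable {i : ℕ} {e b : ℤ} {p : ℂ → ℝ} {τ g Λ : ℂ → ℂ} {R M : ℝ} {d : JD}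

theorem D2_ag {w r : ℝ} (h : w ∈ I5) (hr : 0 < r) :
    ag (r * ex w) = w ∧ (r * ex w : ℂ) ∈ Complex.slitPlane := by
  obtain ⟨a, c⟩ := ag_ex (w := w) (abs_lt.2 ⟨by linarith [h.1], by linarith [h.2]⟩)
  have k := Complex.arg_real_mul (ex w) hr
  refine ⟨by rw [ag, k]; exact a, Complex.mem_slitPlane_iff_arg.2 ⟨?_, ?_⟩⟩
  · rw [k]; exact Complex.slitPlane_arg_ne_pi c
  · exact mul_ne_zero (by exact_mod_cast hr.ne') (Complex.slitPlane_ne_zero c)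

theorem D2_at {V : Type} [NormedAddCommGroup V] [NormedSpace ℝ V] {f : V → ℂ} {x : V}
    (c : ContDiffAt ℝ ∞ f x) (h : f x ∈ Complex.slitPlane) : ContDiffAt ℝ ∞ (fun y => ag (f y)) x :=
  (contDiffOn_ag.contDiffAt (Complex.isOpen_slitPlane.mem_nhds h)).comp x c

theorem D2_ex {V : Type} [NormedAddCommGroup V] [NormedSpace ℝ V] {f : V → ℝ} {x : V}
    (c : ContDiffAt ℝ ∞ f x) : ContDiffAt ℝ ∞ (fun y => ex (f y)) x :=
  contDiff_ex.contDiffAt.comp x c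

theorem D2_re {V : Type} [NormedAddCommGroup V] [NormedSpace ℝ V] {f : V → ℝ} {x : V}
    (c : ContDiffAt ℝ ∞ f x) : ContDiffAt ℝ ∞ (fun y => (f y : ℂ)) x :=
  Complex.ofRealCLM.contDiff.contDiffAt.comp x c

theorem D2_st {V : Type} [NormedAddCommGroup V] [NormedSpace ℝ V] {f : V → ℂ} {x : V}
    (c : ContDiffAt ℝ ∞ f x) : ContDiffAt ℝ ∞ (fun y => star (f y)) x :=
  Complex.conjCLE.contDiff.contDiffAt.comp x c

theorem D2_ne (t : ℝ) : ex t ≠ 0 := left_ne_zero_of_mul_eq_one (rg_neg t)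

theorem D2_neg {v : ℝ} (h : v ∈ I5) : -v ∈ I5 := ⟨by linarith [h.2], by linarith [h.1]⟩

/-- The inverse of `d2`. -/
def D2_inv (a : C3) : ℂ × ℝ × ℝ :=
  (a.2.1 * ex (-(2 * ag (-a.1 / a.2.2 ^ 2) / 3 + ag a.2.2)), ag (-a.1 / a.2.2 ^ 2), -ag a.2.2)

theorem D2_quo (u : ℂ × ℝ × ℝ) : -(d2 u).1 / (d2 u).2.2 ^ 2 = (1 : ℝ) * ex u.2.1 := by
  have : ex (u.2.1 - 2 * u.2.2) = ex u.2.1 * ex (-u.2.2) ^ 2 := by
    rw [pow_two, ← ex_add, ← ex_add]; congr 1; ring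
  simp only [d2, neg_neg, this]
  rw [mul_div_cancel_right₀ _ (pow_ne_zero _ (D2_ne _)), Complex.ofReal_one, one_mul]

theorem d2_emb : Emb (ball 0 (1 / 2) ×ˢ I5 ×ˢ I5) (S1 ×ˢ ball 0 (1 / 2) ×ˢ S1) d2 := by
  have o : IsOpen (ball (0 : ℂ) (1 / 2) ×ˢ I5 ×ˢ I5) :=
    isOpen_ball.prod (isOpen_Ioo.prod isOpen_Ioo)
  have q (u : ℂ × ℝ × ℝ) : (d2 u).2.2 = (1 : ℝ) * ex (-u.2.2) := by simp [d2]
  refine emb_of_left (P := ℂ × ℝ × ℝ) (mf_open o)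
    ((mf_S1.prod ((mf_open isOpen_ball).prod mf_S1)).dim (by simp)) (χ := D2_inv)
    (fun u _ => ContDiffAt.contDiffWithinAt ?_) (fun u hu => ⟨?_, ?_, ex_S1 _⟩) ?_ fun u hu => ?_
  · exact (D2_ex (by fun_prop)).neg.prodMk
      ((contDiffAt_fst.mul (D2_ex (by fun_prop))).prodMk (D2_ex (by fun_prop)))
  · simp [d2, norm_ex]
  · simpa [d2, norm_ex] using hu.1
  · rintro _ ⟨u, hu, rfl⟩
    have n : (d2 u).2.2 ^ 2 ≠ 0 := pow_ne_zero _ (D2_ne _)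
    have a0 : ContDiffAt ℝ ∞ (fun a : C3 => -a.1 * (a.2.2 ^ 2)⁻¹) (d2 u) :=
      contDiffAt_fst.neg.mul ((contDiffAt_snd.snd.pow 2).inv n)
    have a : ContDiffAt ℝ ∞ (fun a : C3 => ag (-a.1 / a.2.2 ^ 2)) (d2 u) :=
      D2_at a0 (by rw [D2_quo]; exact (D2_ag hu.2.1 one_pos).2)
    have c : ContDiffAt ℝ ∞ (fun a : C3 => ag a.2.2) (d2 u) :=
      D2_at contDiffAt_snd.snd (q u ▸ (D2_ag (D2_neg hu.2.2) one_pos).2)
    exact ((contDiffAt_snd.fst.mul (D2_ex (((contDiffAt_const.mul a).div_const 3).add c).neg)).prodMk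
      (a.prodMk c.neg)).contDiffWithinAt
  · rw [D2_inv, D2_quo, q, (D2_ag hu.2.1 one_pos).1, (D2_ag (D2_neg hu.2.2) one_pos).1, neg_neg]
    refine Prod.ext ?_ rfl
    simp only [d2]
    rw [mul_assoc, sub_eq_add_neg, rg_neg, mul_one]

theorem D2_N3 {z : ℂ} (h : z ∈ N3) : z ∈ Complex.slitPlane := by
  by_contra n
  rw [Complex.mem_slitPlane_iff, not_or, not_lt, not_not] at n
  obtain ⟨x, rfl⟩ : ∃ x : ℝ, z = x := ⟨z.re, Complex.ext rfl n.2⟩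
  have a : x ≤ 0 := n.1
  have c : (x ^ 3)⁻¹ ≤ 0 := inv_nonpos.2 (Odd.pow_nonpos (by decide) a)
  have k : dQ x = ((1 - (x ^ 3)⁻¹ : ℝ) : ℂ) := by simp [dQ]
  rw [N3, mem_ofPred_eq, k, Complex.norm_real, Real.norm_eq_abs, abs_lt] at h
  linarith [h.2]

theorem D2_dQ {z : ℂ} (h : z ≠ 0) : ContDiffAt ℝ ∞ dQ z :=
  contDiffAt_const.sub ((contDiffAt_id.pow 3).inv (pow_ne_zero _ h))

theorem D2_sq (u : ℂ × ℝ × ℝ) : 0 < ‖(dV u).1‖ ^ 2 + (dV u).2 ^ 2 := by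
  have : (dV u).1 ≠ 0 := fun k => by simpa [dV] using congrArg Complex.re k
  positivity

theorem D2_dN (u : ℂ × ℝ × ℝ) : 0 < dN u := Real.sqrt_pos.2 (D2_sq u)

/-- The cube of the point, read off the polar coordinates. -/
def D2_Z (a : ℂ × E3) : ℂ := (1 - a.2.1.re * star a.1)⁻¹

/-- The angle `w`, read off the polar coordinates. -/
def D2_w (a : ℂ × E3) : ℝ := ag (D2_Z a * ex (3 * (a.2.2 / a.2.1.re)))

/-- The inverse of `n0`. -/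
def D2_n (a : ℂ × E3) : ℂ × ℝ × ℝ :=
  (Real.exp (Real.log ‖D2_Z a‖ / 3) * ex (D2_w a / 3 - a.2.2 / a.2.1.re), D2_w a,
    a.2.1.im / a.2.1.re)

theorem D2_val {u : ℂ × ℝ × ℝ} (h : u.1 ≠ 0) : (n0 u).2.1.re = (dN u)⁻¹ ∧ D2_Z (n0 u) = u.1 ^ 3 ∧
    (n0 u).2.2 / (n0 u).2.1.re = u.2.1 / 3 - ag u.1 ∧ (n0 u).2.1.im / (n0 u).2.1.re = u.2.2 ∧
    u.1 = ‖u.1‖ * ex (ag u.1) ∧
    u.1 ^ 3 * ex (3 * (u.2.1 / 3 - ag u.1)) = (‖u.1‖ ^ 3 : ℝ) * ex u.2.1 := by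
  have n := (D2_dN u).ne'
  have n' : (dN u : ℂ) ≠ 0 := by exact_mod_cast n
  have a : (n0 u).2.1.re = (dN u)⁻¹ := by simp [n0, dV]
  have c : u.1 = ‖u.1‖ * ex (ag u.1) := by
    have k : ag u.1 = ag (ph u.1) := by
      conv_lhs => rw [← norm_mul_ph h]
      rw [ag, ag, Complex.arg_real_mul _ (norm_pos_iff.2 h)]
    rw [k, ex_ag (ph_S1 h), norm_mul_ph h]
  refine ⟨a, ?_, ?_, ?_, c, ?_⟩
  · rw [D2_Z, a]
    simp [n0, n', dQ]
  · rw [a]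
    simp only [n0, dV, dA, ag, Prod.smul_snd, smul_eq_mul]
    field_simp
  · rw [a]
    simp only [n0, dV, Prod.smul_fst]
    simp
    field_simp
  · have k : ex u.2.1 = ex (ag u.1) ^ 3 * ex (3 * (u.2.1 / 3 - ag u.1)) := by
      rw [pow_succ, pow_two, ← ex_add, ← ex_add, ← ex_add]; congr 1; ring
    rw [k, ← mul_assoc, Complex.ofReal_pow, ← mul_pow, ← c]

theorem n0_emb : IsOpen N3 ∧ Z3 ⊆ N3 ∧ Z3.Finite ∧ Emb (N3 ×ˢ I5 ×ˢ I5) (univ ×ˢ S2) n0 := by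
  have z {z : ℂ} (h : z ∈ N3) : z ≠ 0 := Complex.slitPlane_ne_zero (D2_N3 h)
  have o : IsOpen N3 := isOpen_iff_mem_nhds.2 fun x hx =>
    (D2_dQ (z hx)).continuousAt.norm.eventually_lt_const hx
  refine ⟨o, fun x hx => ?_, ?_, ?_⟩
  · have : x ^ 3 = 1 := hx
    simp [N3, dQ, this]
  · refine (Polynomial.nthRoots 3 (1 : ℂ)).toFinset.finite_toSet.subset fun x hx => ?_
    have : x ^ 3 = 1 := hx
    simpa [Polynomial.mem_nthRoots] using this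
  refine emb_of_left (P := ℂ × ℝ × ℝ) (mf_open (o.prod (isOpen_Ioo.prod isOpen_Ioo)))
    (((mf_open isOpen_univ).prod mf_S2).dim (by simp)) (χ := D2_n)
    (fun u hu => ContDiffAt.contDiffWithinAt ?_) (fun u _ => ⟨trivial, ?_⟩) ?_ fun u hu => ?_
  · have a : ContDiffAt ℝ ∞ dV u :=
      (contDiffAt_const.add ((D2_re contDiffAt_snd.snd).mul contDiffAt_const)).prodMk
        ((contDiffAt_snd.fst.div_const 3).sub (D2_at contDiffAt_fst (D2_N3 hu.1)))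
    have c : ContDiffAt ℝ ∞ dN u :=
      ((a.fst.norm_sq ℝ).add (a.snd.pow 2)).sqrt (D2_sq u).ne'
    exact ((D2_re c).mul (D2_st ((D2_dQ (z hu.1)).comp u contDiffAt_fst))).prodMk
      ((c.inv (D2_dN u).ne').smul a)
  · have k : dN u ^ 2 = _ := Real.sq_sqrt (D2_sq u).le
    have n := D2_dN u
    change ‖(dN u)⁻¹ • (dV u).1‖ ^ 2 + ((dN u)⁻¹ * (dV u).2) ^ 2 = 1
    rw [norm_smul, norm_inv, Real.norm_of_nonneg n.le, mul_pow, mul_pow, ← mul_add, ← k]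
    field_simp
  · rintro _ ⟨u, hu, rfl⟩
    obtain ⟨v1, v2, v3, -, -, v6⟩ := D2_val (z hu.1)
    have r : ContDiffAt ℝ ∞ (fun a : ℂ × E3 => a.2.1.re) (n0 u) :=
      Complex.reCLM.contDiff.contDiffAt.comp _ contDiffAt_snd.fst
    have r0 : (n0 u).2.1.re ≠ 0 := v1 ▸ inv_ne_zero (D2_dN u).ne'
    have z0 : D2_Z (n0 u) ≠ 0 := v2 ▸ pow_ne_zero _ (z hu.1)
    have a : ContDiffAt ℝ ∞ D2_Z (n0 u) :=
      (contDiffAt_const.sub ((D2_re r).mul (D2_st contDiffAt_fst))).inv (mt inv_eq_zero.2 z0)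
    have c : ContDiffAt ℝ ∞ (fun a : ℂ × E3 => a.2.2 / a.2.1.re) (n0 u) :=
      contDiffAt_snd.snd.div r r0
    have w : ContDiffAt ℝ ∞ D2_w (n0 u) :=
      D2_at (a.mul (D2_ex (contDiffAt_const.mul c))) (by
        rw [v2, v3, v6]; exact (D2_ag hu.2.1 (pow_pos (norm_pos_iff.2 (z hu.1)) 3)).2)
    exact (((D2_re (((a.norm ℝ z0).log (norm_ne_zero_iff.2 z0)).div_const 3).exp).mul
      (D2_ex ((w.div_const 3).sub c))).prodMk (w.prodMk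
        ((Complex.imCLM.contDiff.contDiffAt.comp _ contDiffAt_snd.fst).div r r0))).contDiffWithinAt
  · obtain ⟨-, v2, v3, v4, v5, v6⟩ := D2_val (z hu.1)
    have n := norm_pos_iff.2 (z hu.1)
    have w : D2_w (n0 u) = u.2.1 := by
      rw [D2_w, v2, v3, v6]; exact (D2_ag hu.2.1 (pow_pos n 3)).1
    rw [D2_n, w, v2, v3, v4, sub_sub_cancel, norm_pow, Real.log_pow]
    refine Prod.ext ?_ rfl
    rw [Nat.cast_ofNat, mul_div_cancel_left₀ _ three_ne_zero, Real.exp_log n]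
    exact v5.symm

theorem Pin.n0 (h : Pin Λ) {z : ℂ} (hz : z ∈ N3) (w v : ℝ) : ((n0 (z, w, v)).1 = 0 ↔ z ∈ Z3) ∧
    (z ∉ Z3 → ∀ t ρ : ℝ, 0 < ρ → (n0 (z, w, v)).1 = ρ * ex t →
      Pool.Agent.Lib.MP_b2e238_gt.d1 Λ (z, w, v) = tb1 (t, ρ • (n0 (z, w, v)).2)) := by
  have n := D2_dN (z, w, v)
  have n' : (dN (z, w, v) : ℂ) ≠ 0 := by exact_mod_cast n.ne'
  have q : dQ z = 0 ↔ z ∈ Z3 := by
    rw [dQ, sub_eq_zero, eq_comm, inv_eq_one]; rfl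
  refine ⟨by rw [← q]; simp [Pool.Agent.Lib.MP_b2e238_gt.n0, n'], fun hZ t ρ hρ k => ?_⟩
  have q0 : dQ z ≠ 0 := mt q.1 hZ
  have hz' : ‖dQ z‖ < 1 / 40 := hz
  have p0 := norm_nonneg (dQ z)
  change (dN (z, w, v) : ℂ) * star (dQ z) = ρ * ex t at k
  have k1 : ρ = dN (z, w, v) * ‖dQ z‖ := by
    have := congrArg norm k
    rwa [(ph_mul hρ (ex_S1 t)).1, norm_mul, norm_star, Complex.norm_real, Real.norm_of_nonneg n.le,
      eq_comm] at this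
  have k2 : ph (dQ z) = ex (-t) := by
    rw [k1, Complex.ofReal_mul, mul_assoc, mul_right_inj' n'] at k
    have a : dQ z * star (dQ z) = (‖dQ z‖ : ℂ) ^ 2 := by
      rw [Complex.star_def, Complex.mul_conj, Complex.normSq_eq_norm_sq, Complex.ofReal_pow]
    have c : (‖dQ z‖ : ℂ) ≠ 0 := by exact_mod_cast norm_ne_zero_iff.2 q0
    rw [k] at a
    refine mul_right_cancel₀ (D2_ne t) ?_
    rw [mul_comm (ex (-t)), rg_neg, ph]
    field_simp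
    refine mul_right_cancel₀ c ?_
    linear_combination a
  have k3 := h.near _ q0 (by linarith)
  have k4 : ‖Λ (dQ z)‖ = 3 / 5 + ‖dQ z‖ := by
    rw [k3]; exact (ph_mul (by linarith) (ph_S1 q0)).1
  have k5 : dZ Λ z ≠ 0 := inv_ne_zero (sub_ne_zero.2 fun c => by
    rw [← c, norm_one] at k4; linarith)
  have k6 : 1 - (dZ Λ z)⁻¹ = Λ (dQ z) := by rw [dZ, inv_inv, sub_sub_cancel]
  have k7 : dG (dZ Λ z) = ex t := by
    rw [dG_facts.2.2.2.2 _ k5 (by rw [k6, k4]; linarith), k6, (h.mid _ q0).1, k2]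
    exact inv_eq_of_mul_eq_one_left (rg_neg t)
  have k8 : dM z = ‖dQ z‖ := (dM_facts.2 z hZ).2.2.1 hz'.le
  have k9 : ρ • (Pool.Agent.Lib.MP_b2e238_gt.n0 (z, w, v)).2 = ‖dQ z‖ • dV (z, w, v) := by
    change ρ • (dN (z, w, v))⁻¹ • dV (z, w, v) = _
    rw [smul_smul, k1, mul_assoc, mul_comm ‖dQ z‖, mul_inv_cancel_left₀ n.ne']
  rw [k9, Pool.Agent.Lib.MP_b2e238_gt.d1, tb1, k7, k8, ← ex_add, dZ, k3, k2, cir]
  simp [dV]

end Pool.Agent.Lib.MP_b2e238_gt
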