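import Pool.Agent.Lib.MP_b2e238_gt.K.Defs

/-! Open embeddings, fillings of a `T³` end, thickened discs. -/

open scoped ContDiff Topology
open Set Metric

noncomputable section

namespace Pool.Agent.Lib.MP_b2e238_gt

variable {U V W : Type} [NormedAddCommGroup U] [NormedSpace ℝ U] [NormedAddCommGroup V]
  [NormedSpace ℝ V] [NormedAddCommGroup W] [NormedSpace ℝ W]

abbrev C3 := ℂ × ℂ × ℂ
abbrev S1 : Set ℂ := sphere 0 1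
abbrev S4 : Set ((ℝ × ℂ) × ℂ) := Sph ℂ

/-- The phase `z / ‖z‖`. -/
def ph (z : ℂ) : ℂ := z / (‖z‖ : ℝ)

/-- `φ` is a diffeomorphism of `X` onto an open part of `A`. -/
def Emb (X : Set V) (A : Set W) (φ : V → W) : Prop :=
  Opn (φ '' X) A ∧ ∃ ψ, Dif X (φ '' X) φ ψ

/-- `M` is `E` (embedded by `j`) with the end `cl (ρ, a, b, q)`, `ρ → 0`, filled by `T² × D²` along
the slope `q + m a + m' b`; `O` is the core torus. -/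
def Fill (E : Set U) (cl : ℝ × C3 → U) (M O : Set V) (j : U → V) (m m' : ℤ) : Prop :=
  O ⊆ M ∧ (∃ j', Dif E (M \ O) j j') ∧
  ∃ (c : C3 → V) (ε κ : ℝ), 0 < ε ∧ 0 < κ ∧ Emb (S1 ×ˢ S1 ×ˢ ball 0 (ε ^ κ)) M c ∧
    c '' (S1 ×ˢ S1 ×ˢ {0}) = O ∧ ∀ a ∈ S1, ∀ b ∈ S1, ∀ q ∈ S1, ∀ ρ ∈ Ioo 0 ε,
      j (cl (ρ, a * q ^ m, b * q ^ m', q)) = c (a, b, ((ρ ^ κ : ℝ) : ℂ) * q)

/-- A thickened disc `d` in the surgered manifold: it runs out into the collar `cl` along the `a`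
circle and crosses the surgery sphere at the points of `Z`, with polar coordinates `n`. -/
def Disc (E : Set V) (T : ℝ × E3 → V) (cl : ℝ × C3 → V) : Prop :=
  ∃ (r δ : ℝ) (d : ℂ × ℝ × ℝ → V) (n : ℂ × ℝ × ℝ → ℂ × E3) (Z N : Set ℂ),
    0 < r ∧ 0 < δ ∧ δ < 1 / 4 ∧ Z.Finite ∧ IsOpen N ∧ Z ⊆ N ∧
    Emb (Ioo 0 (2 * r) ×ˢ S1 ×ˢ S1 ×ˢ S1) (E \ core T) cl ∧
    Emb (Zᶜ ×ˢ Ioo (-δ) δ ×ˢ Ioo (-δ) δ) (E \ core T) d ∧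
    Emb (N ×ˢ Ioo (-δ) δ ×ˢ Ioo (-δ) δ) (univ ×ˢ S2) n ∧
    ∀ z, ∀ w ∈ Ioo (-δ) δ, ∀ v ∈ Ioo (-δ) δ,
      (z ∈ N → ((n (z, w, v)).1 = 0 ↔ z ∈ Z)) ∧
      (z ∈ N \ Z → ∀ t ρ : ℝ, 0 < ρ → (n (z, w, v)).1 = ρ * ex t →
        d (z, w, v) = T (t, ρ • (n (z, w, v)).2)) ∧
      ((2 * r)⁻¹ < ‖z‖ → z ∉ Z ∧ d (z, w, v) = cl (‖z‖⁻¹, ph z, ex w, ex v)) ∧
      (z ∉ Z → ‖z‖ ≤ r⁻¹ → d (z, w, v) ∉ cl '' (Ioo 0 r ×ˢ S1 ×ˢ S1 ×ˢ S1))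

/-- `Σ(2,3,n) × S¹`. -/
abbrev MM (n : ℕ) : Set (C3 × ℂ) := Bri n ×ˢ S1
/-- The torus over the singular orbit `z = 0`. -/
def OO (n : ℕ) : Set (C3 × ℂ) := {a | a ∈ MM n ∧ a.1.2.2 = 0}

end Pool.Agent.Lib.MP_b2e238_gt
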