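import Pool.Agent.Lib.MP_b2e238_gt.TL.Emb
import Pool.Agent.Lib.MP_b2e238_gt.C.Pi
import Pool.Agent.Lib.MP_b2e238_gt.B.J

/-! Untwisting the end of a thickened disc; the monomial map of the collar. -/

open scoped ContDiff Topology
open Set Metric

noncomputable section

namespace Pool.Agent.Lib.MP_b2e238_gt

/-- The untwisting rotation. -/
def rotU (r c : ℝ) (u : ℂ × ℝ × ℝ) : ℂ × ℝ × ℝ :=
  (u.1 * ex (-c * u.2.1 * cut ((4 * r)⁻¹ ^ 2) ((2 * r)⁻¹ ^ 2) (‖u.1‖ ^ 2)), u.2)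

theorem rotU_sm (r c : ℝ) : ContDiff ℝ ∞ (rotU r c) :=
  (contDiff_fst.mul (contDiff_ex.comp ((contDiff_const.mul contDiff_snd.fst).mul
    (Real.smoothTransition.contDiff.comp
      (((contDiff_fst.norm_sq ℝ).sub contDiff_const).div_const _))))).prodMk contDiff_snd

theorem rotU_norm (r c : ℝ) (u : ℂ × ℝ × ℝ) : ‖(rotU r c u).1‖ = ‖u.1‖ := by
  simp only [rotU, norm_mul, norm_ex, mul_one]

theorem rotU_ex0 : ex 0 = 1 := by simp [ex]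

theorem rotU_inv (r c : ℝ) (u : ℂ × ℝ × ℝ) : rotU r (-c) (rotU r c u) = u := by
  refine Prod.ext ?_ rfl
  rw [rotU, rotU_norm]
  simp only [rotU]
  rw [mul_assoc u.1, ← ex_add, show ∀ x y : ℝ, -c * x * y + - -c * x * y = 0 from
    fun x y => by ring, rotU_ex0, mul_one]

theorem rotU_lt {r : ℝ} (hr : 0 < r) : (4 * r)⁻¹ < (2 * r)⁻¹ :=
  inv_strictAnti₀ (by positivity) (by linarith)

theorem rotU_sq {r : ℝ} (hr : 0 < r) : 0 < (2 * r)⁻¹ ^ 2 - (4 * r)⁻¹ ^ 2 :=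
  sub_pos.2 (pow_lt_pow_left₀ (rotU_lt hr) (by positivity) two_ne_zero)

theorem rotU_in {r : ℝ} (hr : 0 < r) (c : ℝ) {u : ℂ × ℝ × ℝ} (h : u.1 ∈ ball 0 (4 * r)⁻¹) :
    rotU r c u = u := by
  have k := pow_le_pow_left₀ (norm_nonneg _) (mem_ball_zero_iff.1 h).le 2
  refine Prod.ext ?_ rfl
  simp only [rotU, cut]
  rw [Real.smoothTransition.zero_of_nonpos (div_nonpos_of_nonpos_of_nonneg (by linarith)
    (rotU_sq hr).le), mul_zero, rotU_ex0, mul_one]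

theorem rotU_out {r : ℝ} (hr : 0 < r) (c : ℝ) {u : ℂ × ℝ × ℝ} (h : (2 * r)⁻¹ < ‖u.1‖) :
    rotU r c u = (u.1 * ex (-c * u.2.1), u.2) := by
  have k := pow_le_pow_left₀ (by positivity) h.le 2
  simp only [rotU, cut]
  rw [Real.smoothTransition.one_of_one_le ((one_le_div (rotU_sq hr)).2 (by linarith)), mul_one]

theorem rotU_not {r : ℝ} (hr : 0 < r) (c : ℝ) {Z : Set ℂ} (hZ : Z ⊆ ball 0 (4 * r)⁻¹)
    {u : ℂ × ℝ × ℝ} (h : u.1 ∉ Z) : (rotU r c u).1 ∉ Z := fun k => by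
  have := mem_ball_zero_iff.1 (hZ k)
  rw [rotU_norm] at this
  rw [rotU_in hr c (mem_ball_zero_iff.2 this)] at k
  exact h k

theorem disc_of {V : Type} [NormedAddCommGroup V] [NormedSpace ℝ V] {E : Set V} {T : ℝ × E3 → V}
    {cl : ℝ × C3 → V} {r δ c : ℝ} {d : ℂ × ℝ × ℝ → V} {n : ℂ × ℝ × ℝ → ℂ × E3} {Z N : Set ℂ}
    (hr : 0 < r) (h0 : 0 < δ) (h1 : δ < 1 / 4) (hZ : Z.Finite) (hN : IsOpen N) (hZN : Z ⊆ N)
    (hb : N ⊆ ball 0 (4 * r)⁻¹)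
    (e1 : Emb (Ioo 0 (2 * r) ×ˢ S1 ×ˢ S1 ×ˢ S1) (E \ core T) cl)
    (e2 : Emb (Zᶜ ×ˢ Ioo (-δ) δ ×ˢ Ioo (-δ) δ) (E \ core T) d)
    (e3 : Emb (N ×ˢ Ioo (-δ) δ ×ˢ Ioo (-δ) δ) (univ ×ˢ S2) n)
    (h : ∀ z, ∀ w ∈ Ioo (-δ) δ, ∀ v ∈ Ioo (-δ) δ,
      (z ∈ N → ((n (z, w, v)).1 = 0 ↔ z ∈ Z)) ∧
      (z ∈ N \ Z → ∀ t ρ : ℝ, 0 < ρ → (n (z, w, v)).1 = ρ * ex t →
        d (z, w, v) = T (t, ρ • (n (z, w, v)).2)) ∧
      ((2 * r)⁻¹ < ‖z‖ → d (z, w, v) = cl (‖z‖⁻¹, ph z * ex (c * w), ex w, ex v)) ∧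
      (z ∉ Z → ‖z‖ ≤ r⁻¹ → d (z, w, v) ∉ cl '' (Ioo 0 r ×ˢ S1 ×ˢ S1 ×ˢ S1))) : Disc E T cl := by
  have hZb := hZN.trans hb
  have m : ∀ c, MapsTo (rotU r c) (Zᶜ ×ˢ Ioo (-δ) δ ×ˢ Ioo (-δ) δ)
      (Zᶜ ×ˢ Ioo (-δ) δ ×ˢ Ioo (-δ) δ) := fun c u hu => ⟨rotU_not hr c hZb hu.1, hu.2⟩
  have D : Dif (Zᶜ ×ˢ Ioo (-δ) δ ×ˢ Ioo (-δ) δ) (Zᶜ ×ˢ Ioo (-δ) δ ×ˢ Ioo (-δ) δ)
      (rotU r c) (rotU r (-c)) :=
    ⟨(rotU_sm _ _).contDiffOn, (rotU_sm _ _).contDiffOn, m _, m _, fun u _ => rotU_inv r c u,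
      fun u _ => by simpa using rotU_inv r (-c) u⟩
  refine ⟨r, δ, d ∘ rotU r c, n, Z, N, hr, h0, h1, hZ, hN, hZN, e1,
    (D.emb (Opn.refl _)).comp e2, e3, fun z w hw v hv => ⟨(h z w hw v hv).1, fun hz => ?_,
      fun hz => ⟨fun k => ?_, ?_⟩, fun hz k => ?_⟩⟩
  · rw [Function.comp_apply, rotU_in hr c (hb hz.1)]
    exact (h z w hw v hv).2.1 hz
  · exact lt_asymm (hz.trans (mem_ball_zero_iff.1 (hZb k))) (rotU_lt hr)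
  · have e : ‖z * ex (-c * w)‖ = ‖z‖ := by rw [norm_mul, norm_ex, mul_one]
    rw [Function.comp_apply, rotU_out hr c hz, (h _ w hw v hv).2.2.1 (e.symm ▸ hz), e, ph, e,
      mul_div_right_comm, mul_assoc, ← ex_add, show -c * w + c * w = 0 by ring, rotU_ex0, mul_one]
    rfl
  · exact (h _ w hw v hv).2.2.2 (rotU_not hr c hZb (u := (z, w, v)) hz)
      ((rotU_norm r c (z, w, v)).trans_le k)

/-- The monomial map inside `cl`. -/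
theorem cl_emb (i : ℕ) {r : ℝ} (h0 : 0 < r) (h1 : r < 1) :
    Emb (Ioo 0 r ×ˢ S1 ×ˢ S1 ×ˢ S1) (CC ×ˢ S1 ×ˢ S1) fun u : ℝ × C3 =>
      (((((u.1 ^ 3)⁻¹ : ℝ) : ℂ) * (u.2.2.2 / (u.2.1 ^ 3 * u.2.2.1) ^ i), u.2.1⁻¹,
        u.2.1 ^ 3 * u.2.2.1) : C3) := by
  have hr : 1 < (r ^ 3)⁻¹ := (one_lt_inv₀ (by positivity)).2 (pow_lt_one₀ h0.le h1 (by norm_num))
  have rt : ∀ x : ℝ, 0 < x → ((x ^ 3)⁻¹) ^ (-(1 / 3) : ℝ) = x := fun x hx => by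
    rw [← Real.rpow_natCast, ← Real.rpow_neg hx.le, ← Real.rpow_mul hx.le]
    norm_num
  have rt' : ∀ x : ℝ, 0 < x → ((x ^ (-(1 / 3) : ℝ)) ^ 3)⁻¹ = x := fun x hx => by
    rw [← Real.rpow_natCast, ← Real.rpow_mul hx.le, ← Real.rpow_neg hx.le]
    norm_num
  have nq : ∀ {a b q : ℂ}, a ∈ S1 → b ∈ S1 → q ∈ S1 → ‖q / (a ^ 3 * b) ^ i‖ = 1 :=
    fun a b q => by simp [mem_S1.1 a, mem_S1.1 b, mem_S1.1 q]
  refine Dif.emb (A' := (CC ×ˢ S1 ×ˢ S1) ∩ {x : C3 | (r ^ 3)⁻¹ < ‖x.1‖})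
    (G := fun x : C3 => (‖x.1‖ ^ (-(1 / 3) : ℝ), x.2.1⁻¹, x.2.2 * x.2.1 ^ 3, ph x.1 * x.2.2 ^ i))
    ⟨?_, ?_, ?_, ?_, ?_, ?_⟩ (opn_iff.2 ⟨_, isOpen_lt (by fun_prop) (by fun_prop), rfl⟩)
  · rintro u ⟨hρ, ha, hb, hq⟩
    have s : ContDiffAt ℝ ∞ (fun u : ℝ × C3 => u.2.1 ^ 3 * u.2.2.1) u := by fun_prop
    simp only [div_eq_mul_inv]
    exact (((Complex.ofRealCLM.contDiff.contDiffAt.comp u ((contDiffAt_fst.pow 3).inv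
      (pow_pos hρ.1 3).ne')).mul (contDiffAt_snd.snd.snd.mul ((s.pow i).inv (pow_ne_zero _
        (mul_ne_zero (pow_ne_zero _ (S1_ne ha)) (S1_ne hb)))))).prodMk
          ((contDiffAt_snd.fst.inv (S1_ne ha)).prodMk s)).contDiffWithinAt
  · rintro x ⟨⟨-, hc, hT⟩, hη⟩
    have n0 : x.1 ≠ 0 := norm_pos_iff.1 (zero_lt_one.trans (hr.trans hη))
    exact ((((contDiffAt_norm ℝ n0).comp x contDiffAt_fst).rpow_const_of_ne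
      (norm_ne_zero_iff.2 n0)).prodMk ((contDiffAt_snd.fst.inv (S1_ne hc)).prodMk
        ((contDiffAt_snd.snd.mul (contDiffAt_snd.fst.pow 3)).prodMk
          ((ph_at contDiffAt_fst n0).mul (contDiffAt_snd.snd.pow i))))).contDiffWithinAt
  · rintro u ⟨hρ, ha, hb, hq⟩
    have p : 0 < (u.1 ^ 3)⁻¹ := inv_pos.2 (pow_pos hρ.1 3)
    have k : (r ^ 3)⁻¹ < ‖(((u.1 ^ 3)⁻¹ : ℝ) : ℂ) * (u.2.2.2 / (u.2.1 ^ 3 * u.2.2.1) ^ i)‖ := by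
      rw [norm_mul, nq ha hb hq, mul_one, Complex.norm_real, Real.norm_eq_abs, abs_of_pos p]
      exact inv_strictAnti₀ (pow_pos hρ.1 3) (pow_lt_pow_left₀ hρ.2 hρ.1.le (by norm_num))
    refine ⟨⟨?_, mem_S1.2 ?_, mem_S1.2 ?_⟩, k⟩
    · rintro (e | e)
      · have := k.trans_eq ((congrArg norm e).trans norm_zero)
        linarith
      · have := k.trans_eq ((congrArg norm e).trans ((norm_neg _).trans norm_one))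
        linarith
    · simp [mem_S1.1 ha]
    · simp [mem_S1.1 ha, mem_S1.1 hb]
  · rintro x ⟨⟨-, hc, hT⟩, hη⟩
    have p : 0 < ‖x.1‖ := zero_lt_one.trans (hr.trans hη)
    refine ⟨⟨Real.rpow_pos_of_pos p _, ?_⟩, mem_S1.2 ?_, mem_S1.2 ?_, mem_S1.2 ?_⟩
    · exact (Real.rpow_lt_rpow_of_neg (by positivity) hη (by norm_num)).trans_eq (rt r h0)
    · simp [mem_S1.1 hc]
    · simp [mem_S1.1 hc, mem_S1.1 hT]
    · simp [ph_norm (norm_pos_iff.1 p), mem_S1.1 hT]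
  · rintro ⟨ρ, a, b, q⟩ ⟨hρ, ha, hb, hq⟩
    have p : 0 < (ρ ^ 3)⁻¹ := inv_pos.2 (pow_pos hρ.1 3)
    have a0 : a ≠ 0 := S1_ne ha
    have b0 : b ≠ 0 := S1_ne hb
    refine Prod.ext ?_ (Prod.ext (inv_inv a) (Prod.ext ?_ ?_)) <;> simp only
    · rw [norm_mul, nq ha hb hq, mul_one, Complex.norm_real, Real.norm_eq_abs, abs_of_pos p,
        rt ρ hρ.1]
    · field_simp
    · rw [ph_pos_mul p (nq ha hb hq)]
      field_simp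
  · rintro ⟨η, c, T⟩ ⟨⟨-, hc, hT⟩, hη⟩
    have p : 0 < ‖η‖ := zero_lt_one.trans (hr.trans hη)
    have c0 : c ≠ 0 := S1_ne hc
    have T0 : T ≠ 0 := S1_ne hT
    have e : c⁻¹ ^ 3 * (T * c ^ 3) = T := by field_simp
    refine Prod.ext ?_ (Prod.ext (inv_inv c) e)
    simp only [e]
    rw [rt' _ p, mul_div_cancel_right₀ _ (pow_ne_zero _ T0), ph_mul_norm (norm_pos_iff.1 p)]

end Pool.Agent.Lib.MP_b2e238_gt
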