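import Pool.Agent.Lib.MP_b2e238_gt.C.Emb0
import Pool.Agent.Lib.MP_b2e238_gt.C.D1
import Pool.Agent.Lib.MP_b2e238_gt.C.D2
import Pool.Agent.Lib.MP_b2e238_gt.C.Rot
import Pool.Agent.Lib.MP_b2e238_gt.B.PiD
import Pool.Agent.Lib.MP_b2e238_gt.B.F3

/-! The tube of the planar model and its thickened disc. -/

open scoped ContDiff Topology
open Set Metric

noncomputable section

namespace Pool.Agent.Lib.MP_b2e238_gt

variable {i : ℕ} {e b : ℤ} {p : ℂ → ℝ} {τ g Λ : ℂ → ℂ} {R : ℝ}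

theorem Mod.tube (h : Mod i e b p τ g R) : ∃ r, Tb (YO 1) (PiE i ∘ tb0 p τ g) r :=
  ⟨1 / 10, ((pi_dif i).emb yr_opn).tb (h.emb.tb tb1_tb)⟩

theorem disc_opn {V : Type} [NormedAddCommGroup V] {A B : Set V} (o : IsOpen A) (s : A ⊆ B) :
    Opn A B := ⟨s, fun _ ha => mem_nhdsWithin_of_mem_nhds (o.mem_nhds ha)⟩

theorem disc_ph (z : ℂ) (n : ℕ) : ph (z ^ n) = ph z ^ n := by
  simp only [ph, norm_pow, div_pow]; push_cast; rfl

theorem disc_ex_ne (t : ℝ) : ex t ≠ 0 := S1_ne (mem_S1.2 (norm_ex t))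

theorem disc_ex_neg (t : ℝ) : ex (-t) = (ex t)⁻¹ := by
  have h : ex (-t) * ex t = 1 := by
    rw [← ex_add, neg_add_cancel]; simpa using ex_int 0
  exact eq_inv_of_mul_eq_one_left h

theorem disc_ex3 (w : ℝ) : ex w = ex (w / 3) ^ 3 := by
  have : w = w / 3 + w / 3 + w / 3 := by ring
  conv_lhs => rw [this, ex_add, ex_add]
  ring

theorem disc_dA {z : ℂ} (hz : z ≠ 0) (w : ℝ) : ex (dA z w) = ex (w / 3) / ph z := by
  have n : (0 : ℝ) < ‖z‖ := norm_pos_iff.2 hz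
  have a : (ph z).arg = z.arg := by
    conv_rhs => rw [← ph_mul_norm hz]
    exact (Complex.arg_real_mul _ n).symm
  rw [dA, sub_eq_add_neg, ex_add, disc_ex_neg, ← a, ex_arg (ph_norm hz), ← div_eq_mul_inv]

theorem disc_mem {z : ℂ} (h0 : z ≠ 0) (h1 : z ∉ Z3) : z ∉ ({0} ∪ Z3 : Set ℂ) := by
  rintro (k | k)
  exacts [h0 k, h1 k]

theorem disc_small {z : ℂ} (h0 : z ≠ 0) (h : ‖z‖ < 1 / 2) : z ∉ Z3 ∧ 4 / 5 ≤ ‖dQ z‖ := by
  have n : (0 : ℝ) < ‖z‖ := norm_pos_iff.2 h0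
  have a : ‖z‖ ^ 3 < (1 / 2) ^ 3 := pow_lt_pow_left₀ h n.le three_ne_zero
  refine ⟨fun k => ?_, ?_⟩
  · have := congrArg norm (show z ^ 3 = 1 from k)
    rw [norm_pow, norm_one] at this
    linarith
  · have b : (8 : ℝ) ≤ (‖z‖ ^ 3)⁻¹ := by
      rw [le_inv_comm₀ (by norm_num) (by positivity)]; linarith
    have c := norm_sub_norm_le (z ^ 3)⁻¹ 1
    rw [norm_inv, norm_pow, norm_one, norm_sub_rev] at c
    rw [dQ]; linarith

theorem disc_large {z : ℂ} (h : 2 ≤ ‖z‖) : z ≠ 0 ∧ z ∉ Z3 ∧ 4 / 5 ≤ ‖dQ z‖ ∧ 8 ≤ ‖z ^ 3‖ := by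
  have a : (2 : ℝ) ^ 3 ≤ ‖z‖ ^ 3 := pow_le_pow_left₀ (by norm_num) h 3
  refine ⟨norm_pos_iff.1 (by linarith), fun k => ?_, ?_, by rw [norm_pow]; linarith⟩
  · have := congrArg norm (show z ^ 3 = 1 from k)
    rw [norm_pow, norm_one] at this
    linarith
  · have b : (‖z‖ ^ 3)⁻¹ ≤ 8⁻¹ := inv_anti₀ (by norm_num) (by linarith)
    have c := norm_sub_norm_le 1 (z ^ 3)⁻¹
    rw [norm_inv, norm_pow, norm_one] at c
    rw [dQ]; linarith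

theorem disc_d1 (h : Pin Λ) {z : ℂ} (h0 : z ≠ 0) (h1 : z ∉ Z3) (k : 4 / 5 ≤ ‖dQ z‖) (w v : ℝ) :
    d1 Λ (z, w, v) = (z ^ 3, v, dG (z ^ 3) * (ex (w / 3) / ph z)) := by
  have a := (h.dZ.2 z (disc_mem h0 h1)).2.2.1 k
  have c := (dM_facts.2 z h1).2.2.2 (by linarith)
  simp only [d1, a, c, one_mul, disc_dA h0]

/-- The gluing identity near the `3`-fibre. -/
theorem disc_left (h : Mod i e b p τ g R) (k : Pin Λ) {z : ℂ} (h0 : z ≠ 0) (h1 : ‖z‖ < R⁻¹)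
    (w v : ℝ) : PiE i (R0 p τ g (d1 Λ (z, w, v))) = F3 (d2 (z, w, v)) := by
  have hR := h.big
  have r1 : R⁻¹ ≤ 100⁻¹ := inv_anti₀ (by norm_num) hR
  have n : (0 : ℝ) < ‖z‖ := norm_pos_iff.2 h0
  have h2 : ‖z‖ < 1 / 2 := by linarith
  obtain ⟨a1, a2⟩ := disc_small h0 h2
  have h3 : ‖z ^ 3‖ ≤ ‖z‖ := by
    rw [norm_pow]; exact pow_le_of_le_one n.le (by linarith) three_ne_zero
  have z3 : z ^ 3 ≠ 0 := pow_ne_zero 3 h0
  obtain ⟨b1, b2, b3⟩ := h.left _ z3 (by linarith)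
  have c := dG_facts.2.2.1 _ z3 (by linarith)
  have pn := ph_norm h0
  have p0 := ph_ne h0
  have e1 := disc_ex_ne (w / 3)
  have e2 := disc_ex_ne v
  have key := pi_left (c := -ph z ^ 3 * (ex (w / 3) / ph z)) (T := ph z ^ 3) i n h2
    (e := ph z ^ 3 * ex v) (mem_S1.2 (by simp [pn, norm_ex])) (mem_S1.2 (by simp [pn, norm_ex]))
  have f1 : ex (w - 2 * v) = ex (w / 3) ^ 3 / ex v ^ 2 := by
    rw [show w - 2 * v = w + -v + -v by ring, ex_add, ex_add, disc_ex_neg, disc_ex3 w]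
    field_simp
  have f2 : ex (2 * w / 3 - v) = ex (w / 3) ^ 2 / ex v := by
    rw [show 2 * w / 3 - v = w / 3 + w / 3 + -v by ring, ex_add, ex_add, disc_ex_neg]
    field_simp
  rw [disc_d1 k h0 a1 a2]
  simp only [R0, d2, b1, b2, b3, c, disc_ph, norm_pow, mul_assoc, key, f1, f2, disc_ex_neg]
  refine congrArg F3 (Prod.ext ?_ (Prod.ext ?_ ?_))
  · simp only; field_simp
  · simp only
    conv_rhs => rw [← ph_mul_norm h0]
    field_simp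
  · simp only; field_simp

/-- The identity at the end. -/
theorem disc_right (h : Mod i e b p τ g R) (k : Pin Λ) {z : ℂ} (h1 : R < ‖z‖) (w v : ℝ) :
    PiE i (R0 p τ g (d1 Λ (z, w, v))) = cl i (‖z‖⁻¹, ph z * ex (-1 / 3 * w), ex w, ex v) := by
  have hR := h.big
  obtain ⟨h0, a1, a2, a3⟩ := disc_large (z := z) (by linarith)
  have h3 : ‖z‖ ≤ ‖z ^ 3‖ := by
    rw [norm_pow]; exact le_self_pow₀ (by linarith) three_ne_zero
  obtain ⟨b1, b2, b3⟩ := h.right (z ^ 3) (by linarith)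
  have c := dG_facts.2.2.2.1 (z ^ 3) (by linarith)
  have p0 := ph_ne h0
  have e1 := disc_ex_ne (w / 3)
  have f1 : ex (-1 / 3 * w) = (ex (w / 3))⁻¹ := by
    rw [show -1 / 3 * w = -(w / 3) by ring, disc_ex_neg]
  have f2 : (ph z * (ex (w / 3))⁻¹) ^ 3 * ex w = ph z ^ 3 := by
    rw [disc_ex3 w]; field_simp
  rw [disc_d1 k h0 a1 a2]
  simp only [R0, cl, b1, b2, b3, c, disc_ph, norm_pow, f1, f2, inv_pow, inv_inv]
  refine congrArg (PiE i) (Prod.ext ?_ (Prod.ext ?_ rfl))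
  · simp only; ring
  · simp only; field_simp

theorem disc_norm (h : Mod i e b p τ g R) {u : ℂ × ℝ × ℂ} (hu : u.1 ∈ Om) :
    ‖(R0 p τ g u).1‖ = p u.1 := by
  have a := (h.lt hu.1 le_rfl).2.2.1
  have c := mem_S1.1 (h.mem hu)
  simp only [R0, norm_mul, c, norm_ex, mul_one, Complex.norm_real, Real.norm_of_nonneg a.le]

theorem disc_tb (t : ℝ) : tb1 (t, 0) ∈ Om ×ˢ Ioo (-(1 / 2) : ℝ) (1 / 2) ×ˢ S1 :=
  ⟨(cir_mem t (by simp)).1, by simp [tb1], mem_S1.2 (norm_ex _)⟩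

theorem disc_cl (i : ℕ) {r : ℝ} (h1 : r < 1) {u : ℝ × C3}
    (hu : u ∈ Ioo 0 r ×ˢ S1 ×ˢ S1 ×ˢ S1) :
    ∃ x ∈ CC ×ˢ S1 ×ˢ S1, cl i u = PiE i x ∧ r⁻¹ ^ 3 < ‖x.1‖ := by
  refine ⟨_, (cl_emb i (hu.1.1.trans hu.1.2) h1).mapsTo hu, rfl, ?_⟩
  have a := mem_S1.1 hu.2.1
  have c := mem_S1.1 hu.2.2.1
  have d := mem_S1.1 hu.2.2.2
  have p0 := hu.1.1
  have f : ‖(u.1 ^ 3)⁻¹‖ = u.1⁻¹ ^ 3 := by rw [Real.norm_of_nonneg (by positivity), inv_pow]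
  simp only [norm_mul, norm_div, norm_pow, a, c, d, one_pow, mul_one, div_one, Complex.norm_real, f]
  exact pow_lt_pow_left₀ (inv_strictAnti₀ p0 hu.1.2) (inv_pos.2 (p0.trans hu.1.2)).le three_ne_zero

theorem disc_d1_mem (k : Pin Λ) {u : ℂ × ℝ × ℝ} (hu : u ∈ Z3ᶜ ×ˢ I5 ×ˢ I5) (h0 : u.1 ≠ 0) :
    d1 Λ u ∈ Om' ×ˢ Ioo (-(1 / 2) : ℝ) (1 / 2) ×ˢ S1 :=
  k.d1.mapsTo ⟨disc_mem h0 hu.1, hu.2⟩

theorem disc_sub : Om' ×ˢ Ioo (-(1 / 2) : ℝ) (1 / 2) ×ˢ S1 ⊆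
    Om ×ˢ Ioo (-(1 / 2) : ℝ) (1 / 2) ×ˢ S1 := prod_mono isOpen_Om.2.2 subset_rfl

theorem disc_zero {u : ℂ × ℝ × ℝ} (h0 : u.1 = 0) : F3 (d2 u) ∉ YR := fun k =>
  (f3_yr (θ := -ex (u.2.1 - 2 * u.2.2)) (y := u.1 * ex (2 * u.2.1 / 3 - u.2.2))
    (T := ex (-u.2.2)) (mem_S1.2 (by simp [norm_ex])) (by simp [h0])
    (mem_S1.2 (norm_ex _))).1 k (by simp [h0])

theorem disc_emb (h : Mod i e b p τ g R) (k : Pin Λ) :
    Emb (Z3ᶜ ×ˢ I5 ×ˢ I5) (YO 1 \ core (PiE i ∘ tb0 p τ g)) (d0 i p τ g Λ) := by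
  have hR := h.big
  have r0 : 0 < R⁻¹ := inv_pos.2 (by linarith)
  have r1 : R⁻¹ ≤ 100⁻¹ := inv_anti₀ (by norm_num) hR
  have P := h.emb.comp ((pi_dif i).emb yr_opn)
  have oo : Opn (Om' ×ˢ Ioo (-(1 / 2) : ℝ) (1 / 2) ×ˢ S1) (Om ×ˢ Ioo (-(1 / 2) : ℝ) (1 / 2) ×ˢ S1) :=
    (disc_opn isOpen_Om.2.1 isOpen_Om.2.2).prod (Opn.refl _)
  have v1 : ∀ u : ℂ × ℝ × ℝ, u.1 ≠ 0 → d0 i p τ g Λ u = PiE i (R0 p τ g (d1 Λ u)) :=
    fun u hu => if_neg hu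
  have v0 : ∀ u : ℂ × ℝ × ℝ, u.1 = 0 → d0 i p τ g Λ u = F3 (d2 u) := fun u hu => if_pos hu
  have E1 : Emb (({0} ∪ Z3)ᶜ ×ˢ I5 ×ˢ I5) (YO 1) (d0 i p τ g Λ) :=
    ((k.d1.up oo).comp P).congr fun u hu => v1 u fun z => hu.1 (Or.inl z)
  have oI : IsOpen (I5 ×ˢ I5) := isOpen_Ioo.prod isOpen_Ioo
  have E2 : Emb (ball 0 R⁻¹ ×ˢ I5 ×ˢ I5) (YO 1) (d0 i p τ g Λ) := by
    refine ((d2_emb.comp f3_emb).mono (disc_opn (isOpen_ball.prod oI)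
      (prod_mono (ball_subset_ball (by linarith)) subset_rfl))).congr fun u hu => ?_
    by_cases z : u.1 = 0
    · exact v0 u z
    · exact (v1 u z).trans (disc_left h k z (mem_ball_zero_iff.1 hu.1) u.2.1 u.2.2)
  have yr : ∀ u ∈ Z3ᶜ ×ˢ I5 ×ˢ I5, u.1 ≠ 0 → d0 i p τ g Λ u ∈ YR := fun u hu z => by
    rw [v1 u z]
    exact (pi_dif i).mF (h.emb.mapsTo (disc_sub (disc_d1_mem k hu z)))
  have o1 : Opn (({0} ∪ Z3)ᶜ ×ˢ I5 ×ˢ I5) (Z3ᶜ ×ˢ I5 ×ˢ I5) :=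
    disc_opn (((finite_singleton 0).union n0_emb.2.2.1).isClosed.isOpen_compl.prod oI)
      (prod_mono (compl_subset_compl.2 subset_union_right) subset_rfl)
  have o2 : Opn (ball 0 R⁻¹ ×ˢ I5 ×ˢ I5) (Z3ᶜ ×ˢ I5 ×ˢ I5) := by
    refine disc_opn (isOpen_ball.prod oI) (prod_mono (fun z hz k => ?_) subset_rfl)
    have a := congrArg norm (show z ^ 3 = 1 from k)
    have c := mem_ball_zero_iff.1 hz
    rw [norm_pow, norm_one] at a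
    have := pow_lt_one₀ (norm_nonneg z) (by linarith : ‖z‖ < 1) three_ne_zero
    linarith
  have E : Emb (Z3ᶜ ×ˢ I5 ×ˢ I5) (YO 1) (d0 i p τ g Λ) := by
    refine Emb.glue (fun j : Bool => cond j (({0} ∪ Z3)ᶜ ×ˢ I5 ×ˢ I5) (ball 0 R⁻¹ ×ˢ I5 ×ˢ I5))
      (Bool.rec o2 o1) (fun u hu => ?_) (Bool.rec E2 E1) fun u hu u' hu' q => ?_
    · by_cases z : u.1 = 0
      · exact mem_iUnion.2 ⟨false, by rw [z]; exact mem_ball_self r0, hu.2⟩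
      · exact mem_iUnion.2 ⟨true, disc_mem z hu.1, hu.2⟩
    · by_cases z : u.1 = 0 <;> by_cases z' : u'.1 = 0
      · exact E2.injOn ⟨by rw [z]; exact mem_ball_self r0, hu.2⟩
          ⟨by rw [z']; exact mem_ball_self r0, hu'.2⟩ q
      · exact absurd (v0 u z ▸ q ▸ yr u' hu' z') (disc_zero z)
      · exact absurd (v0 u' z' ▸ q ▸ yr u hu z) (disc_zero z')
      · exact E1.injOn ⟨disc_mem z hu.1, hu.2⟩ ⟨disc_mem z' hu'.1, hu'.2⟩ q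
  refine E.down sdiff_subset fun u hu => ⟨E.mapsTo hu, ?_⟩
  rintro ⟨t, q⟩
  have q' : PiE i (R0 p τ g (tb1 (t, 0))) = d0 i p τ g Λ u := q
  by_cases z : u.1 = 0
  · exact disc_zero z (v0 u z ▸ q' ▸ (pi_dif i).mF (h.emb.mapsTo (disc_tb t)))
  · have m := disc_d1_mem k hu z
    have a := P.injOn (disc_tb t) (disc_sub m) (q'.trans (v1 u z))
    have c : (3 / 5 : ℝ) < ‖1 - (tb1 (t, 0)).1⁻¹‖ := a ▸ m.1.2
    have d := (cir_mem t (r := 0) (by simp)).2.2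
    rw [show (tb1 (t, 0)).1 = cir t 0 from rfl, d, norm_mul, norm_ex, Complex.norm_real] at c
    norm_num at c

theorem Mod.disc (h : Mod i e b p τ g R) : Disc (YO 1) (PiE i ∘ tb0 p τ g) (cl i) := by
  obtain ⟨Λ, k⟩ := pinch
  have hR := h.big
  have r0 : 0 < R⁻¹ := inv_pos.2 (by linarith)
  have r1 : R⁻¹ ≤ 100⁻¹ := inv_anti₀ (by norm_num) hR
  have s2 : 2 * (2 * R)⁻¹ = R⁻¹ := by field_simp
  have s4 : (4 * (2 * R)⁻¹)⁻¹ = R / 2 := by field_simp; ring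
  have v1 : ∀ u : ℂ × ℝ × ℝ, u.1 ≠ 0 → d0 i p τ g Λ u = PiE i (R0 p τ g (d1 Λ u)) :=
    fun u hu => if_neg hu
  have E1 : Emb (Ioo 0 R⁻¹ ×ˢ S1 ×ˢ S1 ×ˢ S1) (YO 1) (cl i) :=
    (cl_emb i r0 (by linarith)).comp ((pi_dif i).emb yr_opn)
  have R3 : ∀ S : ℝ, R ≤ S → S ≤ S ^ 3 := fun S hS => le_self_pow₀ (by linarith) three_ne_zero
  refine disc_of (r := (2 * R)⁻¹) (δ := 1 / 5) (c := -1 / 3) (d := d0 i p τ g Λ) (n := n0)
    (by positivity) (by norm_num) (by norm_num) n0_emb.2.2.1 n0_emb.1 n0_emb.2.1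
    (fun z hz => ?_) ?_ (disc_emb h k) n0_emb.2.2.2 fun z w hw v hv => ⟨fun hz => (k.n0 hz w v).1,
      fun hz t ρ h1 h2 => ?_, fun hz => ?_, fun hz h1 => ?_⟩
  · rw [s4, mem_ball_zero_iff]
    by_contra c
    have := (disc_large (z := z) (by linarith [not_lt.1 c])).2.2.1
    have a : ‖dQ z‖ < 1 / 40 := hz
    linarith
  · rw [s2]
    refine E1.down sdiff_subset fun u hu => ⟨E1.mapsTo hu, ?_⟩
    rintro ⟨t, q⟩
    obtain ⟨x, hx, a, c⟩ := disc_cl i (by linarith) hu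
    have q' : PiE i (R0 p τ g (tb1 (t, 0))) = PiE i x := q.trans a
    have d := (pi_dif i).injOn (h.emb.mapsTo (disc_tb t)) hx q'
    have f := disc_norm h (disc_tb t).1
    have m := cir_mem t (r := 0) (by simp)
    have l := (h.lt m.1.1 le_rfl).1 (by linarith [m.2.1])
    rw [d, show (tb1 (t, 0)).1 = cir t 0 from rfl] at f
    rw [inv_inv] at c
    linarith [R3 R le_rfl]
  · have z0 : z ≠ 0 := by
      rintro rfl
      have a : ‖dQ 0‖ < 1 / 40 := hz.1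
      norm_num [dQ] at a
    rw [v1 (z, w, v) z0, (k.n0 hz.1 w v).2 hz.2 t ρ h1 h2]
    rfl
  · rw [s2, inv_inv] at hz
    rw [v1 (z, w, v) (norm_pos_iff.1 (by linarith))]
    exact disc_right h k hz w v
  · rintro ⟨u, hu, q⟩
    obtain ⟨x, hx, a, c⟩ := disc_cl i (by linarith) hu
    rw [inv_inv] at c h1
    by_cases z0 : z = 0
    · have : d0 i p τ g Λ (z, w, v) = F3 (d2 (z, w, v)) := if_pos z0
      exact disc_zero (u := (z, w, v)) z0 (this ▸ q ▸ a ▸ (pi_dif i).mF hx)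
    · have m := disc_sub (disc_d1_mem k (u := (z, w, v)) ⟨hz, hw, hv⟩ z0)
      have d := (pi_dif i).injOn hx (h.emb.mapsTo m) (a.symm.trans (q.trans (v1 _ z0)))
      have f := disc_norm h m.1
      have s := R3 (2 * R) (by linarith)
      have dz := k.dZ.2 z (disc_mem z0 hz)
      have l : ‖dZ Λ z‖ ≤ (2 * R) ^ 3 := by
        rcases le_or_gt (4 / 5) ‖dQ z‖ with y | y
        · rw [dz.2.2.1 y, norm_pow]; exact pow_le_pow_left₀ (norm_nonneg _) h1 3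
        · linarith [dz.2.2.2.1 y]
      have l' := (h.lt dz.1.1 (S := (2 * R) ^ 3) (by linarith)).2.1 l
      rw [← d, show (d1 Λ (z, w, v)).1 = dZ Λ z from rfl] at f
      linarith

end Pool.Agent.Lib.MP_b2e238_gt
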