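import Pool.Agent.Lib.MP_b2e238_gt.C.Cut
import Pool.Agent.Lib.MP_b2e238_gt.B.J
import Pool.Agent.Lib.MP_b2e238_gt.K.Sph
import Pool.Agent.Lib.MP_b2e238_gt.TL.Xi

/-! The thickened pair of pants and the model tube. -/

open scoped ContDiff Topology
open Set Metric

noncomputable section

namespace Pool.Agent.Lib.MP_b2e238_gt

variable {i : ℕ} {e b : ℤ} {p : ℂ → ℝ} {τ g Λ : ℂ → ℂ} {R M : ℝ} {d : JD}

theorem emb0_open (c : ℝ) : IsOpen {Z : ℂ | Z ≠ 0 ∧ c < ‖1 - Z⁻¹‖} :=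
  ((continuousOn_const.sub continuousOn_inv₀).norm).isOpen_inter_preimage isOpen_compl_singleton
    (isOpen_Ioi (a := c))

theorem isOpen_Om : IsOpen Om ∧ IsOpen Om' ∧ Om' ⊆ Om :=
  ⟨emb0_open _, emb0_open _, fun _ h => ⟨h.1, lt_trans (by norm_num) h.2⟩⟩

theorem emb0_norm {r : ℝ} (h : 0 ≤ r) {u : ℂ} (k : ‖u‖ = 1) : ‖(r : ℂ) * u‖ = r := by
  rw [norm_mul, k, mul_one, Complex.norm_real, Real.norm_of_nonneg h]

theorem cir_mem (t : ℝ) {r : ℝ} (h : |r| < 1 / 10) : cir t r ∈ Om ∧ ‖cir t r‖ ≤ 4 ∧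
    1 - (cir t r)⁻¹ = (3 / 5 + r : ℝ) * ex (-t) := by
  obtain ⟨a, c⟩ := abs_lt.1 h
  have n := emb0_norm (r := 3 / 5 + r) (by linarith) (norm_ex (-t))
  have m := norm_sub_norm_le 1 (((3 / 5 + r : ℝ) : ℂ) * ex (-t))
  rw [n, norm_one] at m
  have k : 1 - (cir t r)⁻¹ = (3 / 5 + r : ℝ) * ex (-t) := by rw [cir, inv_inv, sub_sub_cancel]
  refine ⟨⟨inv_ne_zero (norm_pos_iff.1 (by linarith)), by rw [k, n]; linarith⟩, ?_, k⟩
  rw [cir, norm_inv, inv_le_comm₀ (by linarith) (by norm_num)]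
  linarith

theorem Mod.lt (h : Mod i e b p τ g R) {Z : ℂ} (h0 : Z ≠ 0) {S : ℝ} (k : R ≤ S) :
    (‖Z‖ < S → p Z < S) ∧ (‖Z‖ ≤ S → p Z ≤ S) ∧ 0 < p Z ∧ τ Z ∈ S1 := by
  obtain ⟨ψ, D⟩ := h.dif
  obtain ⟨a, c⟩ : 0 < p Z ∧ τ Z ∈ S1 := D.mF h0
  have l (o : R ≤ p Z) : ‖Z‖ = p Z := by
    have n := emb0_norm a.le (mem_S1.1 c)
    obtain ⟨r, s, -⟩ := h.right (p Z * τ Z) (n.symm ▸ o)
    rw [D.injOn h0 (norm_pos_iff.1 (n.symm ▸ a) : (p Z : ℂ) * τ Z ≠ 0)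
      (Prod.ext (r.trans n).symm (s.trans (ph_pos_mul a (mem_S1.1 c))).symm)]
    exact r.symm
  exact ⟨fun o => not_le.1 fun q => q.not_gt (l (k.trans q) ▸ o),
    fun o => not_lt.1 fun q => q.not_ge (l (k.trans q.le) ▸ o), a, c⟩

theorem emb0_ag {r x : ℝ} (h : 0 < r) (k : |x| < 1 / 2) :
    TL.ag (r * ex x) = x ∧ r * ex x ∈ Complex.slitPlane := by
  obtain ⟨a, c⟩ := TL.ag_ex k
  rw [Complex.mem_slitPlane_iff_arg] at c ⊢
  rw [TL.ag, Complex.arg_real_mul _ h]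
  exact ⟨a, c.1, mul_ne_zero (by exact_mod_cast h.ne') c.2⟩

theorem emb0_div {P : Type} [NormedAddCommGroup P] [NormedSpace ℝ P] {f k : P → ℂ} {s : Set P}
    (a : ContDiffOn ℝ ∞ f s) (c : ContDiffOn ℝ ∞ k s) (n : ∀ x ∈ s, k x ≠ 0) :
    ContDiffOn ℝ ∞ (fun x => f x / k x) s :=
  (a.mul (c.inv n)).congr fun _ _ => div_eq_mul_inv _ _

theorem emb0_mf : Mf (ℂ × ℝ × ℝ) (Om ×ˢ Ioo (-(1 / 2) : ℝ) (1 / 2) ×ˢ S1) :=
  (mf_open isOpen_Om.1).prod ((mf_open isOpen_Ioo).prod mf_S1)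

theorem Mod.emb (h : Mod i e b p τ g R) :
    Emb (Om ×ˢ Ioo (-(1 / 2) : ℝ) (1 / 2) ×ˢ S1) (CC ×ˢ S1 ×ˢ S1) (R0 p τ g) := by
  obtain ⟨ψ, D⟩ := h.dif
  have s : Om ⊆ {0}ᶜ := fun _ a => a.1
  have pos (Z) (a : Z ∈ Om) : 0 < p Z := (D.mF (s a)).1
  have n (u) (a : u ∈ Om ×ˢ Ioo (-(1 / 2) : ℝ) (1 / 2) ×ˢ S1) : ‖(R0 p τ g u).1‖ = p u.1 := by
    rw [R0, norm_mul, norm_ex, mul_one, emb0_norm (pos _ a.1).le (mem_S1.1 (h.mem a.1))]
  have z (u) (a : u ∈ Om ×ˢ Ioo (-(1 / 2) : ℝ) (1 / 2) ×ˢ S1) :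
      ψ (‖(R0 p τ g u).1‖, (R0 p τ g u).2.2) = u.1 := by
    rw [n u a]
    exact D.gf _ (s a.1)
  have q (u) (a : u ∈ Om ×ˢ Ioo (-(1 / 2) : ℝ) (1 / 2) ×ˢ S1) :
      (R0 p τ g u).1 / g (ψ (‖(R0 p τ g u).1‖, (R0 p τ g u).2.2)) = p u.1 * ex u.2.1 := by
    rw [z u a, R0, mul_right_comm, mul_div_cancel_right₀ _ (S1_ne (h.mem a.1))]
  have m1 : MapsTo (Prod.fst : ℂ × ℝ × ℂ → ℂ) (Om ×ˢ Ioo (-(1 / 2) : ℝ) (1 / 2) ×ˢ S1) Om :=
    fun _ a => a.1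
  have cF := (D.cF.mono s).comp contDiffOn_fst m1
  have c1 : ContDiffOn ℝ ∞ (fun y : C3 => ψ (‖y.1‖, y.2.2))
      (R0 p τ g '' Om ×ˢ Ioo (-(1 / 2) : ℝ) (1 / 2) ×ˢ S1) :=
    D.cG.comp ((contDiffOn_fst.norm ℝ (by
      rintro _ ⟨u, a, rfl⟩
      exact norm_pos_iff.1 (n u a ▸ pos _ a.1))).prodMk contDiffOn_snd.snd) (by
      rintro _ ⟨u, a, rfl⟩
      exact ⟨(pos _ a.1).trans_eq (n u a).symm, (D.mF (s a.1)).2⟩)
  refine emb_of_left emb0_mf ((mf_open (Set.toFinite _).isClosed.isOpen_compl).prod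
    (mf_S1.prod mf_S1)) ?_ (fun u a => ⟨?_, a.2.2, (D.mF (s a.1)).2⟩)
    (χ := fun y => (ψ (‖y.1‖, y.2.2), TL.ag (y.1 / g (ψ (‖y.1‖, y.2.2))), y.2.1))
    (c1.prodMk (.prodMk (TL.contDiffOn_ag.comp (emb0_div contDiffOn_fst (h.sm.comp c1 ?_) ?_) ?_)
      contDiffOn_snd.fst)) fun u a => Prod.ext (z u a) (Prod.ext ?_ rfl)
  · exact (((Complex.ofRealCLM.contDiff.comp_contDiffOn cF.fst).mul
      (h.sm.comp contDiffOn_fst m1)).mul (contDiff_ex.comp contDiff_snd.fst).contDiffOn).prodMk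
      (contDiffOn_snd.snd.prodMk cF.snd)
  · rintro (c | c)
    · exact (pos _ a.1).ne' (by rw [← n u a, c, norm_zero])
    · have r : p u.1 = 1 := by rw [← n u a, c, norm_neg, norm_one]
      have t := (TL.ag_ex (abs_lt.2 a.2.1)).2
      have c : (p u.1 : ℂ) * g u.1 * ex u.2.1 = -1 := c
      rw [r, h.wall _ a.1 r, Complex.ofReal_one, one_mul, one_mul] at c
      simp [c, Complex.mem_slitPlane_iff, zero_le_one.not_gt] at t
  · rintro _ ⟨u, a, rfl⟩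
    exact mem_of_eq_of_mem (z u a) a.1
  · rintro _ ⟨u, a, rfl⟩
    exact (z u a).symm ▸ S1_ne (h.mem a.1)
  · rintro _ ⟨u, a, rfl⟩
    exact mem_of_eq_of_mem (q u a) (emb0_ag (pos _ a.1) (abs_lt.2 a.2.1)).2
  · exact (congrArg TL.ag (q u a)).trans (emb0_ag (pos _ a.1) (abs_lt.2 a.2.1)).1

theorem tb1_tb : Tb (Om ×ˢ Ioo (-(1 / 2) : ℝ) (1 / 2) ×ˢ S1) tb1 (1 / 10) := by
  have per (t x) : tb1 (t + 1, x) = tb1 (t, x) := by
    have : ex (-(t + 1)) = ex (-t) := by rw [← ex_one]; congr 1; ring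
    simp only [tb1, cir, this, add_right_comm t 1, ex_one]
  have re {x : E3} (a : ‖x‖ < 1 / 10) : |x.1.re| < 1 / 10 :=
    ((Complex.abs_re_le_norm _).trans (norm_fst_le x)).trans_lt a
  have im {x : E3} (a : ‖x‖ < 1 / 10) : |x.1.im| < 1 / 2 :=
    (((Complex.abs_im_le_norm _).trans (norm_fst_le x)).trans_lt a).trans (by norm_num)
  have sn {x : E3} (a : ‖x‖ < 1 / 10) : |x.2| < 1 / 2 :=
    ((norm_snd_le x).trans_lt a).trans (by norm_num)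
  have k : (1 / 10 : ℝ) ≤ 1 := by norm_num
  have sm : ContDiffOn ℝ ∞ tb1 (univ ×ˢ ball 0 (1 / 10)) :=
    .prodMk (.inv (contDiff_const.sub ((Complex.ofRealCLM.contDiff.comp (contDiff_const.add
      (Complex.reCLM.contDiff.comp contDiff_snd.fst))).mul
        (contDiff_ex.comp contDiff_fst.neg))).contDiffOn fun u a =>
          mt inv_eq_zero.2 (cir_mem u.1 (re (mem_ball_zero_iff.1 a.2))).1.1)
      ((Complex.imCLM.contDiff.comp contDiff_snd.fst).prodMk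
        (contDiff_ex.comp (contDiff_fst.add contDiff_snd.snd))).contDiffOn
  have f (y) (a : y ∈ rg tb1 '' Ann (1 / 10)) : ∃ u : ℝ × E3, ‖u.2‖ < 1 / 10 ∧ y = tb1 u := by
    obtain ⟨w, a, rfl⟩ := a
    obtain ⟨u, c, rfl⟩ := pol_surj k a
    exact ⟨u, c, rg_pol per (rg_lt k c)⟩
  have pos {x : E3} (a : ‖x‖ < 1 / 10) : 0 < 3 / 5 + x.1.re := by linarith [abs_lt.1 (re a)]
  have q (u : ℝ × E3) (a : ‖u.2‖ < 1 / 10) : (tb1 u).2.2 * (1 - (tb1 u).1⁻¹) =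
      (3 / 5 + u.2.1.re : ℝ) * ex u.2.2 := by
    rw [tb1, (cir_mem _ (re a)).2.2, ex_add, mul_comm (ex u.1), mul_mul_mul_comm, rg_neg,
      mul_one, mul_comm]
  have ne (u : ℝ × E3) (a : ‖u.2‖ < 1 / 10) : 1 - (tb1 u).1⁻¹ ≠ 0 :=
    norm_pos_iff.1 (lt_trans (by norm_num) (cir_mem u.1 (re a)).1.2)
  have cQ : ContDiffOn ℝ ∞ (fun y : ℂ × ℝ × ℂ => 1 - y.1⁻¹) (rg tb1 '' Ann (1 / 10)) :=
    contDiffOn_const.sub (contDiffOn_fst.inv fun y a => by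
      obtain ⟨u, c, rfl⟩ := f y a
      exact (cir_mem u.1 (re c)).1.1)
  have nQ (y) (a : y ∈ rg tb1 '' Ann (1 / 10)) : 1 - y.1⁻¹ ≠ 0 := by
    obtain ⟨u, c, rfl⟩ := f y a
    exact ne u c
  have cN := Complex.ofRealCLM.contDiff.comp_contDiffOn (cQ.norm ℝ nQ)
  have cI : ContDiff ℝ ∞ fun y : ℂ × ℝ × ℂ => (y.2.1 : ℂ) * .I :=
    (Complex.ofRealCLM.contDiff.comp contDiff_snd.fst).mul contDiff_const
  refine tb_of_ring (Emb.par (emb_of_left (mf_open (isOpen_Ann _)) (emb0_mf.dim (by simp))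
    (rg_smooth' k per sm) (fun w a => ?_) (χ := fun y =>
      ((1 + (TL.ag (y.2.2 * (1 - y.1⁻¹)) : ℂ)) * (‖1 - y.1⁻¹‖ / (1 - y.1⁻¹)),
        (‖1 - y.1⁻¹‖ : ℂ) - 3 / 5 + y.2.1 * .I))
    (.prodMk (.mul (contDiffOn_const.add (Complex.ofRealCLM.contDiff.comp_contDiffOn
      (TL.contDiffOn_ag.comp (contDiffOn_snd.snd.mul cQ) fun y a => ?_))) (emb0_div cN cQ nQ))
      ((cN.sub contDiffOn_const).add cI.contDiffOn)) fun w a => ?_) (isOpen_Ann _)) per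
    (by norm_num) k
  · obtain ⟨u, c, o⟩ := f _ (mem_image_of_mem _ a)
    exact o ▸ ⟨(cir_mem u.1 (re c)).1, abs_lt.1 (im c), TL.ex_S1 _⟩
  · obtain ⟨u, c, rfl⟩ := f y a
    exact mem_of_eq_of_mem (q u c) (emb0_ag (pos c) (sn c)).2
  · obtain ⟨u, c, rfl⟩ := pol_surj k a
    have t : 1 - (tb1 u).1⁻¹ = (3 / 5 + u.2.1.re : ℝ) * ex (-u.1) := (cir_mem _ (re c)).2.2
    have x : ex (-u.1) ≠ 0 := S1_ne (TL.ex_S1 _)
    have y : ((3 / 5 + u.2.1.re : ℝ) : ℂ) ≠ 0 := by exact_mod_cast (pos c).ne'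
    rw [rg_pol per (rg_lt k c), q u c, (emb0_ag (pos c) (sn c)).1, t,
      emb0_norm (pos c).le (norm_ex _), div_mul_cancel_left₀ y,
      ← eq_inv_of_mul_eq_one_left (rg_neg u.1)]
    refine Prod.ext (by simp [pol]) ?_
    simp [pol, tb1]

/-- The lift of `(log p, arg τ)` over the disc `‖Q‖ < 1`, `Z = (1 - Q)⁻¹`. -/
theorem Mod.lift (h : Mod i e b p τ g R) : ∃ S : ℂ → ℂ, ContDiffOn ℝ ∞ S (ball 0 1) ∧
    ∀ Q ∈ ball (0 : ℂ) 1, Real.exp (S Q).re = p (1 - Q)⁻¹ ∧ ex (S Q).im = τ (1 - Q)⁻¹ ∧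
      Function.Injective (fderiv ℝ S Q) := by
  obtain ⟨ψ, D⟩ := h.dif
  have n (Q) (a : Q ∈ ball (0 : ℂ) 1) : 1 - Q ≠ 0 := fun c =>
    (mem_ball_zero_iff.1 a).ne (by rw [← sub_eq_zero.1 c, norm_one])
  have m : MapsTo (fun Q : ℂ => (1 - Q)⁻¹) (ball 0 1) {0}ᶜ := fun Q a => inv_ne_zero (n Q a)
  have cF := D.cF.comp ((contDiffOn_const.sub contDiffOn_id).inv n) m
  have cG : ContDiffOn ℝ ∞ (fun Q => (p (1 - Q)⁻¹ : ℂ) * τ (1 - Q)⁻¹) (ball 0 1) :=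
    (Complex.ofRealCLM.contDiff.comp_contDiffOn cF.fst).mul cF.snd
  have nG (Q) (a : Q ∈ ball (0 : ℂ) 1) : ‖(p (1 - Q)⁻¹ : ℂ) * τ (1 - Q)⁻¹‖ = p (1 - Q)⁻¹ :=
    emb0_norm (le_of_lt (D.mF (m a)).1) (mem_S1.1 (D.mF (m a)).2)
  have pos (Q) (a : Q ∈ ball (0 : ℂ) 1) : 0 < p (1 - Q)⁻¹ := (D.mF (m a)).1
  have := (convex_ball (0 : ℂ) 1).contractibleSpace (nonempty_ball.2 one_pos)
  obtain ⟨f, cf, hf⟩ := Complex.exists_continuousOn_eqOn_exp_comp (U := ball (0 : ℂ) 1)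
    (SimplyConnectedSpace.ofContractible _) isOpen_ball cG.continuousOn (by
      rintro ⟨Q, a, c⟩
      exact (pos Q a).ne' (by rw [← nG Q a]; exact norm_eq_zero.2 c))
  replace hf (Q) (a : Q ∈ ball (0 : ℂ) 1) : Complex.exp (f Q) = p (1 - Q)⁻¹ * τ (1 - Q)⁻¹ := hf a
  have sf : ContDiffOn ℝ ∞ f (ball 0 1) := fun Q a => by
    have o := isOpen_ball.mem_nhds a
    have t : ContinuousAt (fun x => (f x - f Q).im) Q :=
      Complex.continuous_im.continuousAt.comp ((cf.continuousAt o).sub continuousAt_const)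
    have l : ContDiffAt ℝ ∞ (fun x => f Q + Complex.log ((p (1 - x)⁻¹ * τ (1 - x)⁻¹) /
        Complex.exp (f Q))) Q :=
      contDiffAt_const.add (((Complex.contDiffAt_log (by
        rw [← hf Q a, div_self (Complex.exp_ne_zero _)]
        exact Complex.one_mem_slitPlane)).restrict_scalars ℝ).comp Q
          (f := fun x => (p (1 - x)⁻¹ * τ (1 - x)⁻¹ : ℂ) / Complex.exp (f Q))
          ((cG.contDiffAt o).div_const _))
    refine (l.congr_of_eventuallyEq ?_).contDiffWithinAt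
    filter_upwards [o, t.eventually (Ioo_mem_nhds (a := -Real.pi) (b := Real.pi)
      (by simp [Real.pi_pos]) (by simp [Real.pi_pos]))] with x c r
    rw [← hf x c, ← Complex.exp_sub, Complex.log_exp r.1 r.2.le, add_sub_cancel]
  have cS : ContDiffOn ℝ ∞ (fun Q => ((f Q).re : ℂ) + ((f Q).im / (2 * Real.pi) : ℝ) * .I)
      (ball 0 1) :=
    (Complex.ofRealCLM.contDiff.comp_contDiffOn (Complex.reCLM.contDiff.comp_contDiffOn sf)).add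
      ((Complex.ofRealCLM.contDiff.comp_contDiffOn
        ((Complex.imCLM.contDiff.comp_contDiffOn sf).div_const _)).mul contDiffOn_const)
  have e1 (Q) (a : Q ∈ ball (0 : ℂ) 1) : Real.exp (f Q).re = p (1 - Q)⁻¹ := by
    rw [← nG Q a, ← hf Q a, Complex.norm_exp]
  have e2 (Q) (a : Q ∈ ball (0 : ℂ) 1) : ex ((f Q).im / (2 * Real.pi)) = τ (1 - Q)⁻¹ := by
    have := hf Q a
    rw [← Complex.re_add_im (f Q), Complex.exp_add, ← Complex.ofReal_exp, e1 Q a] at this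
    rw [← mul_left_cancel₀ (by exact_mod_cast (pos Q a).ne') this, ex]
    congr 2
    have := Real.pi_pos.ne'
    norm_cast
    field_simp
  have r1 (x y : ℝ) : ((x : ℂ) + (y : ℂ) * .I).re = x := by simp
  have r2 (x y : ℝ) : ((x : ℂ) + (y : ℂ) * .I).im = y := by simp
  have mχ : MapsTo (fun w : ℂ => (Real.exp w.re, ex w.im)) univ (Ioi 0 ×ˢ S1) :=
    fun w _ => ⟨Real.exp_pos _, TL.ex_S1 _⟩
  have cχ : ContDiffOn ℝ ∞ (fun w : ℂ => 1 - (ψ (Real.exp w.re, ex w.im))⁻¹) univ :=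
    contDiffOn_const.sub ((D.cG.comp ((Real.contDiff_exp.comp Complex.reCLM.contDiff).prodMk
      (contDiff_ex.comp Complex.imCLM.contDiff)).contDiffOn mχ).inv fun w a => D.mG (mχ a))
  refine ⟨_, cS, fun Q a => ⟨by rw [r1, e1 Q a], by rw [r2, e2 Q a], par_imm (isOpen_ball.mem_nhds a)
    ((cS.contDiffAt (isOpen_ball.mem_nhds a)).differentiableAt (by simp)) (mapsTo_univ _ _)
    ((cχ _ trivial).differentiableWithinAt (by simp)) fun x c => ?_⟩⟩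
  rw [r1, r2, e1 x c, e2 x c, D.gf _ (m c), inv_inv, sub_sub_cancel]

end Pool.Agent.Lib.MP_b2e238_gt
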