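import Pool.Agent.Lib.MP_b2e238_gt.C.Emb0
import Pool.Agent.Lib.MP_b2e238_gt.K.Hl

/-! The jet of the planar model along the third boundary curve. -/

open scoped ContDiff Topology
open Set Metric

noncomputable section

namespace Pool.Agent.Lib.MP_b2e238_gt

variable {i : ℕ} {e b : ℤ} {p : ℂ → ℝ} {τ g : ℂ → ℂ} {R : ℝ}

/-- A continuous logarithm of a smooth function is smooth. -/
theorem gra_log {P : Type} [NormedAddCommGroup P] [NormedSpace ℝ P] {f G : P → ℂ} {x : P}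
    (c : Continuous f) (s : ContDiffAt ℝ ∞ G x) (k : ∀ᶠ y in 𝓝 x, Complex.exp (f y) = G y) :
    ContDiffAt ℝ ∞ f x := by
  have t : ContinuousAt (fun y => (f y - f x).im) x :=
    (Complex.continuous_im.comp (c.sub continuous_const)).continuousAt
  have l : ContDiffAt ℝ ∞ (fun y => f x + Complex.log (G y / Complex.exp (f x))) x :=
    contDiffAt_const.add (((Complex.contDiffAt_log (by
      rw [← k.self_of_nhds, div_self (Complex.exp_ne_zero _)]
      exact Complex.one_mem_slitPlane)).restrict_scalars ℝ).comp x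
        (f := fun y => G y / Complex.exp (f x)) (s.div_const _))
  refine l.congr_of_eventuallyEq ?_
  filter_upwards [k, t.eventually (Ioo_mem_nhds (a := -Real.pi) (b := Real.pi)
    (by simp [Real.pi_pos]) (by simp [Real.pi_pos]))] with y c r
  rw [← c, ← Complex.exp_sub, Complex.log_exp r.1 r.2.le, add_sub_cancel]

/-- The coordinate `Q = 1 - Z⁻¹` along the collar. -/
def graQ (x : ℝ × ℝ) : ℂ := (3 / 5 + x.2 : ℝ) * ex (-x.1)

theorem gra_sm : ContDiff ℝ ∞ graQ :=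
  (Complex.ofRealCLM.contDiff.comp (contDiff_const.add contDiff_snd)).mul
    (contDiff_ex.comp contDiff_fst.neg)

theorem gra_per (t r : ℝ) : graQ (t + 1, r) = graQ (t, r) := by
  have : ex (-(t + 1)) = ex (-t) := by rw [← ex_one]; congr 1; ring
  simp only [graQ, this]

theorem gra_norm (t : ℝ) {r : ℝ} (a : |r| < 1 / 10) : ‖graQ (t, r)‖ < 1 := by
  obtain ⟨a, c⟩ := abs_lt.1 a
  rw [graQ, emb0_norm (by linarith) (norm_ex _)]
  linarith

theorem gra_ne (t : ℝ) {r : ℝ} (a : |r| < 1 / 10) : 1 - graQ (t, r) ≠ 0 := fun c =>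
  (gra_norm t a).ne (by rw [← sub_eq_zero.1 c, norm_one])

theorem Mod.jet (h : Mod i e b p τ g R) :
    ∃ (W : ℝ × ℝ → ℂ × ℝ × ℝ) (B : ℝ → ℂ →L[ℝ] ℂ) (B₀ : ℂ →L[ℝ] ℂ) (m : ℤ),
      (∀ t, ContDiffAt ℝ ∞ W (t, 0)) ∧
      (∀ t r, |r| < 1 / 20 → Complex.exp (W (t, r)).1 = p (cir t r) * g (cir t r) ∧
        (W (t, r)).2.1 = 0 ∧ ex (W (t, r)).2.2 = τ (cir t r) ∧
        W (t + 1, r) = W (t, r) + ((m : ℂ) * (2 * Real.pi * Complex.I), 0, 0)) ∧
      Hl (Inj ℂ) B (fun _ => B₀) ∧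
      (∀ t, B t (ex (-t)) =
        (fderiv ℝ W (t, 0) (0, 1)).1.re + .I * (fderiv ℝ W (t, 0) (0, 1)).2.2) ∧
      ∀ t, B t ((-(6 * Real.pi / 5) : ℝ) * .I * ex (-t)) =
        (fderiv ℝ W (t, 0) (1, 0)).1.re + .I * (fderiv ℝ W (t, 0) (1, 0)).2.2 := by
  obtain ⟨S, cS, hS⟩ := h.lift
  have z : |(0 : ℝ)| < 1 / 10 := by norm_num
  have o : (-(1 / 20) : ℝ) ≤ 1 / 20 := by norm_num
  have cl (r : ℝ) : |(projIcc _ _ o r : ℝ)| < 1 / 10 :=
    (abs_le.2 (projIcc _ _ o r).2).trans_lt (by norm_num)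
  have ce {r : ℝ} (a : |r| < 1 / 20) : (projIcc _ _ o r : ℝ) = r := by
    rw [projIcc_of_mem o (abs_le.1 a.le)]
  have cc : Continuous fun x : ℝ × ℝ => (x.1, (projIcc _ _ o x.2 : ℝ)) :=
    continuous_fst.prodMk (continuous_subtype_val.comp (continuous_projIcc.comp continuous_snd))
  have cG : Continuous fun x : ℝ × ℝ => g (cir x.1 (projIcc _ _ o x.2)) :=
    h.sm.continuousOn.comp_continuous
      ((continuous_const.sub (gra_sm.continuous.comp cc)).inv₀ fun x => gra_ne _ (cl _))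
      fun x => (cir_mem _ (cl _)).1
  obtain ⟨Ω, cΩ, eΩ⟩ := wn_log cG fun x => S1_ne (h.mem (cir_mem _ (cl _)).1)
  have re (x) : (Ω x).re = 0 := by
    have := Complex.norm_exp (Ω x)
    rw [eΩ, mem_S1.1 (h.mem (cir_mem _ (cl _)).1)] at this
    exact Real.exp_eq_one_iff _ |>.1 this.symm
  have one (x : ℝ × ℝ) : Complex.exp (Ω (x.1 + 1, x.2) - Ω x) = 1 := by
    rw [Complex.exp_sub, eΩ, eΩ]
    exact div_eq_one_iff_eq (S1_ne (h.mem (cir_mem _ (cl _)).1)) |>.2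
      (congrArg (fun q => g (1 - q)⁻¹) (gra_per _ _))
  obtain ⟨m, hm⟩ := Complex.exp_eq_one_iff.1 (one 0)
  have per (t r) : Ω (t + 1, r) = Ω (t, r) + m * (2 * Real.pi * .I) := by
    rw [← hm, ← wn_const (D := fun x : ℝ × ℝ => Ω (x.1 + 1, x.2) - Ω x) (by fun_prop) one (t, r) 0,
      add_sub_cancel]
  have sS (t) : ContDiffAt ℝ ∞ S (graQ (t, 0)) :=
    cS.contDiffAt (isOpen_ball.mem_nhds (mem_ball_zero_iff.2 (gra_norm t z)))
  have sQ (t) : ContDiffAt ℝ ∞ (fun x => S (graQ x)) (t, 0) := (sS t).comp _ gra_sm.contDiffAt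
  have sΩ (t) : ContDiffAt ℝ ∞ Ω (t, 0) := by
    refine gra_log (G := fun x => g (1 - graQ x)⁻¹) cΩ
      ((h.sm.contDiffAt (isOpen_Om.1.mem_nhds (cir_mem t z).1)).comp (t, 0)
        (f := fun x => (1 - graQ x)⁻¹)
        ((contDiffAt_const.sub gra_sm.contDiffAt).inv (gra_ne t z))) ?_
    filter_upwards [(continuous_snd.abs.continuousAt (x := (t, (0 : ℝ)))).eventually
      (gt_mem_nhds (a := (1 / 20 : ℝ)) (by norm_num))] with y a
    rw [eΩ, ce a]
    rfl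
  have sW (t) : ContDiffAt ℝ ∞ (fun x => ((((S (graQ x)).re : ℂ) + Ω x, 0, (S (graQ x)).im) :
      ℂ × ℝ × ℝ)) (t, 0) :=
    ((Complex.ofRealCLM.contDiff.comp_contDiffAt _
      (Complex.reCLM.contDiff.comp_contDiffAt _ (sQ t))).add (sΩ t)).prodMk
      (contDiffAt_const.prodMk (Complex.imCLM.contDiff.comp_contDiffAt _ (sQ t)))
  have key (t : ℝ) (c : ℝ → ℝ × ℝ) (v : ℝ × ℝ) (q : ℂ) (s : ℝ) (a : c s = (t, 0))
      (d : HasDerivAt c v s) (k : HasDerivAt (fun x => graQ (c x)) q s) :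
      fderiv ℝ S (graQ (t, 0)) q =
        (fderiv ℝ (fun x => ((((S (graQ x)).re : ℂ) + Ω x, 0, (S (graQ x)).im) : ℂ × ℝ × ℝ))
          (t, 0) v).1.re + .I * (fderiv ℝ (fun x => ((((S (graQ x)).re : ℂ) + Ω x, 0,
            (S (graQ x)).im) : ℂ × ℝ × ℝ)) (t, 0) v).2.2 := by
    have d1 := (((sW t).differentiableAt (by simp)).hasFDerivAt).comp_hasDerivAt_of_eq s d a.symm
    have d2 := (((sS t).differentiableAt (by simp)).hasFDerivAt).comp_hasDerivAt_of_eq s k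
      (congrArg graQ a.symm)
    refine d2.unique (((Complex.ofRealCLM.hasFDerivAt.comp_hasDerivAt s
      (Complex.reCLM.hasFDerivAt.comp_hasDerivAt s d1.fst)).add
      ((Complex.ofRealCLM.hasFDerivAt.comp_hasDerivAt s d1.snd.snd).const_mul
        .I)).congr_of_eventuallyEq (.of_forall fun x => ?_))
    simp [re, mul_comm Complex.I]
  have mb (l) (a : l ∈ Icc (0 : ℝ) 1) (t) : ((1 - l : ℝ) : ℂ) * graQ (t, 0) ∈ ball (0 : ℂ) 1 := by
    rw [mem_ball_zero_iff, norm_mul, Complex.norm_real, Real.norm_of_nonneg (sub_nonneg.2 a.2)]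
    exact mul_lt_one_of_nonneg_of_lt_one_right (sub_le_self _ a.1) (norm_nonneg _) (gra_norm t z)
  refine ⟨_, fun t => fderiv ℝ S (graQ (t, 0)), fderiv ℝ S 0, m, sW, fun t r a => ?_,
    ⟨fun l t => fderiv ℝ S (((1 - l : ℝ) : ℂ) * graQ (t, 0)),
      (cS.continuousOn_fderiv_of_isOpen isOpen_ball (by simp)).comp
        (f := fun q : ℝ × ℝ => ((1 - q.1 : ℝ) : ℂ) * graQ (q.2, 0))
        (Continuous.continuousOn (.mul (by fun_prop) (gra_sm.continuous.comp (by fun_prop))))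
        fun q a => mb _ a.1 _, fun l a t => ⟨(hS _ (mb l a t)).2.2, by simp only [gra_per]⟩,
      funext fun t => by simp, funext fun t => by simp⟩,
    fun t => key t (fun r => (t, r)) _ _ 0 rfl ((hasDerivAt_const _ _).prodMk (hasDerivAt_id _)) ?_,
    fun t => key t (fun s => (s, 0)) _ _ t rfl ((hasDerivAt_id _).prodMk (hasDerivAt_const _ _)) ?_⟩
  · obtain ⟨e1, e2, -⟩ := hS _ (mem_ball_zero_iff.2 (gra_norm t (a.trans (by norm_num))))
    refine ⟨?_, rfl, e2, ?_⟩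
    · rw [Complex.exp_add, ← Complex.ofReal_exp, e1, eΩ, ce a]
      rfl
    · simp only [gra_per, per, Prod.mk_add_mk, add_zero, add_assoc]
  · exact ((((hasDerivAt_id (0 : ℝ)).const_add (3 / 5)).ofReal_comp).mul_const
      (ex (-t))).congr_deriv (by simp)
  · refine (((hasDerivAt_ex (-t)).scomp t (hasDerivAt_neg t)).const_mul
      ((3 / 5 + 0 : ℝ) : ℂ)).congr_deriv ?_
    simp only [neg_smul, one_smul]
    push_cast
    ring

end Pool.Agent.Lib.MP_b2e238_gt
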