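import Pool.Agent.Lib.MP_b2e238_gt.B.PiD
import Pool.Agent.Lib.MP_b2e238_gt.K.Hl

/-! The shear that makes a loop a graph, and a bump function round a loop. -/

open scoped ContDiff Topology
open Set Metric

noncomputable section

namespace Pool.Agent.Lib.MP_b2e238_gt

/-- A continuous logarithm of a smooth function is smooth. -/
theorem grB_log {X : Type} [NormedAddCommGroup X] [NormedSpace ℝ X] {L : X → ℂ} {x : X}
    (c : ContinuousAt L x) (s : ContDiffAt ℝ ∞ (fun y => Complex.exp (L y)) x) :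
    ContDiffAt ℝ ∞ L x := by
  have a : ContDiffAt ℝ ∞
      (fun y => L x + Complex.log (Complex.exp (L y) / Complex.exp (L x))) x :=
    contDiffAt_const.add (((Complex.contDiffAt_log (by
      rw [div_self (Complex.exp_ne_zero _)]; exact Complex.one_mem_slitPlane)).restrict_scalars ℝ).comp
        x (s.div_const _))
  refine a.congr_of_eventuallyEq ?_
  have k : ContinuousAt (fun y => |(L y - L x).im|) x := by fun_prop
  filter_upwards [k.eventually (gt_mem_nhds (a := Real.pi) (by simpa using Real.pi_pos))] with y hy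
  rw [← Complex.exp_sub, Complex.log_exp (abs_lt.1 hy).1 (abs_lt.1 hy).2.le, add_sub_cancel]

/-- `G (ex t) = (t - θ t) / l` with `θ` the smooth lift of `a`. -/
theorem gr_shear {a : ℝ → ℂ} (c : ContDiff ℝ ∞ a) (m : ∀ t, a t ∈ S1) (w : Wn a 1) {l : ℤ}
    (hl : l ≠ 0) : ∃ G : ℂ → ℝ, ContDiffOn ℝ ∞ G S1 ∧ ContDiff ℝ ∞ (fun t => G (ex t)) ∧
      ∀ t, a t * ex (G (ex t)) ^ l = ex t := by
  obtain ⟨L, cL, e, p⟩ := w
  have s : ContDiff ℝ ∞ L := contDiff_iff_contDiffAt.2 fun t =>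
    grB_log cL.continuousAt (by rw [funext e]; exact c.contDiffAt)
  have π0 := Real.pi_pos
  have l0 : (l : ℝ) ≠ 0 := by exact_mod_cast hl
  obtain ⟨f, hf⟩ : ∃ f : ℝ → ℝ, ∀ t, f t = (t - (L t).im / (2 * Real.pi)) / l := ⟨_, fun _ => rfl⟩
  have sf : ContDiff ℝ ∞ f := by
    rw [funext hf]
    exact (contDiff_id.sub ((Complex.imCLM.contDiff.comp s).div_const _)).div_const _
  have pf : ∀ t, f (t + 1) = f t := fun t => by
    rw [hf, hf, p]
    simp
    field_simp
    ring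
  obtain ⟨k1, k2⟩ := per_to_circle (n := ⊤) (S := univ) (F := fun q : ℝ × ℝ => f q.2)
    (sf.comp contDiff_snd).contDiffOn fun _ _ t => pf t
  have k3 : ∀ t, f (apxT (ex t)) = f t := k2 0 trivial
  refine ⟨fun z => f (apxT z), k1.comp (f := fun w : ℂ => ((0 : ℝ), w)) (by fun_prop)
    fun w hw => ⟨trivial, S1_ne hw⟩, by simpa only [k3] using sf, fun t => ?_⟩
  have r : (L t).re = 0 := by
    have := mem_S1.1 (m t)
    rwa [← e, Complex.norm_exp, Real.exp_eq_one_iff] at this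
  dsimp only
  rw [k3, ← e, ex, ex, ← Complex.exp_int_mul, ← Complex.exp_add, hf]
  congr 1
  have l1 : (l : ℂ) ≠ 0 := by exact_mod_cast hl
  have π1 : (Real.pi : ℂ) ≠ 0 := by exact_mod_cast π0.ne'
  have := Complex.re_add_im (L t)
  rw [r] at this
  push_cast at this ⊢
  field_simp
  linear_combination -this

theorem gr_bump {η : ℝ → ℂ} (c : Continuous η) (m : ∀ t, η t ∈ CC) (p : ∀ t, η (t + 1) = η t) :
    ∃ (χ : ℂ → ℝ) (K : Set ℂ), ContDiff ℝ ∞ χ ∧ IsCompact K ∧ K ⊆ CC ∧ (∀ z ∉ K, χ z = 0) ∧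
      ∀ t, ∀ᶠ z in 𝓝 (η t), χ z = 1 := by
  have k : IsCompact (range η) := Function.Periodic.compact_of_continuous p one_ne_zero c
  obtain ⟨K, hK, a, b⟩ := exists_compact_between k isOpen_CC (range_subset_iff.2 m)
  obtain ⟨χ, h1, h0, -⟩ := exists_contMDiffMap_one_nhds_of_subset_interior (n := ⊤)
    (modelWithCornersSelf ℝ ℂ) k.isClosed a
  exact ⟨χ, K, χ.contMDiff.contDiff, hK, b, h0,
    fun t => h1.filter_mono (nhds_le_nhdsSet (mem_range_self t))⟩

end Pool.Agent.Lib.MP_b2e238_gt
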