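import Pool.Agent.Lib.MP_b2e238_gt.B.Jet
import Pool.Agent.Lib.MP_b2e238_gt.B.FillI
import Pool.Agent.Lib.MP_b2e238_gt.P.Win
import Pool.Agent.Lib.MP_b2e238_gt.TL.Emb

/-! Loops over the base, and the differential in logarithmic coordinates. -/

open scoped ContDiff Topology
open Set Metric

noncomputable section

namespace Pool.Agent.Lib.MP_b2e238_gt

variable {i : ℕ} {e b : ℤ} {d : JD} {η : ℝ → ℂ}

theorem ex_S1 (t : ℝ) : ex t ∈ S1 := mem_S1.2 (norm_ex t)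

theorem jp_facts (hd : d.OK) (i : ℕ) :
    ContinuousOn (fun u => d.j (PiE i u)) (CC ×ˢ S1 ×ˢ S1) ∧
      MapsTo (fun u => d.j (PiE i u)) (CC ×ˢ S1 ×ˢ S1) (MM d.n) := by
  obtain ⟨j', h⟩ := j_dif hd
  have m : MapsTo (PiE i) (CC ×ˢ S1 ×ˢ S1) (YO 1) := fun u hu => ((pi_dif i).mF hu).1
  exact ⟨h.cF.continuousOn.comp (pi_dif i).cF.continuousOn m, fun u hu => (h.mF (m hu)).1⟩

theorem jp_hl (hd : d.OK) (i : ℕ) (c : Continuous η) (m : ∀ t, η t ∈ CC)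
    (p : ∀ t, η (t + 1) = η t) {φ : ℝ → ℝ} (cφ : Continuous φ) (pφ : ∀ t, φ (t + 1) = φ t) :
    Hl (Bri d.n) (d.lp i η) fun t => (d.j (PiE i (η t, ex t, ex (φ t)))).1 := by
  have x := contDiff_ex.continuous
  have k (l t : ℝ) : ((η t, ex t, ex (l * φ t)) : C3) ∈ CC ×ˢ S1 ×ˢ S1 := ⟨m t, ex_S1 _, ex_S1 _⟩
  have := hl_mk (Y := Bri d.n) (H := fun l t => (d.j (PiE i (η t, ex t, ex (l * φ t)))).1)
    ((jp_facts hd i).1.comp_continuous (f := fun u : ℝ × ℝ => (η u.2, ex u.2, ex (u.1 * φ u.2)))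
      (by fun_prop) fun u => k _ _).fst
    fun l _ t => ⟨((jp_facts hd i).2 (k l t)).1, by rw [p, pφ, ex_one]⟩
  have z : ex 0 = 1 := by simpa using ex_int 0
  simp only [zero_mul, one_mul, z] at this
  exact this

theorem lp_loop (hd : d.OK) (h : WL i e b η) : Hl (Bri d.n) (d.lp i η) (d.lp i η) :=
  have k := jp_hl hd i h.facts.1 h.facts.2.1 h.facts.2.2.1 (φ := fun _ => 0) continuous_const
    fun _ => rfl
  k.trans k.symm

theorem JD.OK.l_ne (hd : d.OK) (hi : i = 1 ∨ i = 2) (hw : d.k * (2 - i) + d.l = 1) : d.l ≠ 0 := by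
  obtain ⟨-, a, b, c⟩ := hd
  intro z
  rcases hi with rfl | rfl
  · have k : d.k = 1 := by simpa [z, show (2 : ℤ) - 1 = 1 by norm_num] using hw
    rw [z, k] at c
    have : d.e₂ = -1 ∨ d.e₂ = 1 := by omega
    have n : (6 : ℤ) ∣ d.n := by rcases this with y | y <;> rw [y] at b <;> omega
    have := n.mul_right d.e₁
    omega
  · simp [z] at hw

theorem j_emb (hd : d.OK) : Emb (YO 1) (MM d.n) d.j := by
  obtain ⟨j', h⟩ := j_dif hd
  refine h.emb ?_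
  have : MM d.n \ OO d.n = MM d.n \ {a | a.1.2.2 = 0} := by
    ext a; simp only [OO, mem_sdiff, mem_ofPred_eq]; tauto
  rw [this]
  exact opn_diff (isClosed_eq (by fun_prop) continuous_const)

theorem unit_der {X : Type} [NormedAddCommGroup X] [NormedSpace ℝ X] {f : X → ℂ} {u : X}
    {f' : X →L[ℝ] ℂ} (h : HasFDerivAt f f' u) (k : ∀ᶠ x in 𝓝 u, ‖f x‖ = 1) (v : X) :
    f' v = 2 * Real.pi * .I * f u * ((2 * Real.pi * .I * f u)⁻¹ * f' v).re := by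
  have a := h.norm_sq.unique ((hasFDerivAt_const (1 : ℝ) u).congr_of_eventuallyEq
    (k.mono fun x hx => by simp [hx]))
  have b := congrArg (· v) a
  have n := k.self_of_nhds
  have n0 : f u ≠ 0 := fun z => by simp [z] at n
  have c : (2 * Real.pi * .I * f u : ℂ) ≠ 0 := by simp [n0, Real.pi_ne_zero]
  obtain ⟨q, hq⟩ : ∃ q, f' v = 2 * Real.pi * .I * f u * q := ⟨_, (mul_inv_cancel_left₀ c _).symm⟩
  rw [hq, inv_mul_cancel_left₀ c]
  have w : f u * (starRingEnd ℂ) (f u) = 1 := by rw [Complex.mul_conj', n]; simp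
  have y : (f' v * (starRingEnd ℂ) (f u)).re = 0 := by
    simp [Complex.inner] at b ⊢
    linarith
  rw [hq, show 2 * Real.pi * .I * f u * q * (starRingEnd ℂ) (f u) =
    2 * Real.pi * .I * q * (f u * (starRingEnd ℂ) (f u)) by ring, w] at y
  have : q.im = 0 := by simpa [Real.pi_ne_zero] using y
  congr 1
  exact Complex.ext (by simp) (by simp [this])

/-- The differential of `jt` against the coframe and the angle. -/
def JD.dd (d : JD) (i : ℕ) (u : ℂ × ℝ × ℝ) : (ℂ × ℝ × ℝ) →L[ℝ] E3 × ℝ :=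
  (om d.n (d.jt i u).1 ∘L ContinuousLinearMap.fst ℝ _ _ ∘L fderiv ℝ (d.jt i) u).prod
    (Complex.reCLM ∘L ContinuousLinearMap.mul ℝ ℂ (2 * Real.pi * .I * (d.jt i u).2)⁻¹ ∘L
      ContinuousLinearMap.snd ℝ _ _ ∘L fderiv ℝ (d.jt i) u)

theorem dd_apply (u v : ℂ × ℝ × ℝ) : d.dd i u v = (om d.n (d.jt i u).1 (fderiv ℝ (d.jt i) u v).1,
    ((2 * Real.pi * .I * (d.jt i u).2)⁻¹ * (fderiv ℝ (d.jt i) u v).2).re) := rfl

theorem jt_mem (hd : d.OK) {u : ℂ × ℝ × ℝ} (hu : Complex.exp u.1 ≠ -1) : d.jt i u ∈ MM d.n :=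
  (jp_facts hd i).2 (jet_mem hu)

theorem jt_snd (hd : d.OK) {u : ℂ × ℝ × ℝ} (hu : Complex.exp u.1 ≠ -1) (v : ℂ × ℝ × ℝ) :
    (fderiv ℝ (d.jt i) u v).2 = 2 * Real.pi * .I * (d.jt i u).2 * (d.dd i u v).2 := by
  have o : ∀ᶠ x : ℂ × ℝ × ℝ in 𝓝 u, Complex.exp x.1 ≠ -1 :=
    (by fun_prop : Continuous fun x : ℂ × ℝ × ℝ => Complex.exp x.1).continuousAt.eventually_ne hu
  exact unit_der ((jet_sm hd hu).differentiableAt (by simp)).hasFDerivAt.snd
    (o.mono fun x hx => mem_S1.1 (jt_mem hd hx).2) v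

theorem jt_per (m : ℤ) (u : ℂ × ℝ × ℝ) :
    d.jt i (u + ((m : ℂ) * (2 * Real.pi * .I), 1, 0)) = d.jt i u := by
  simp [JD.jt, Complex.exp_add, ex_one]

theorem dd_per (m : ℤ) (u : ℂ × ℝ × ℝ) :
    d.dd i (u + ((m : ℂ) * (2 * Real.pi * .I), 1, 0)) = d.dd i u := by
  simp only [JD.dd, ← fderiv_comp_add_right, jt_per]

theorem dd_cont (hd : d.OK) {U : ℝ → ℂ × ℝ × ℝ} (c : Continuous U)
    (h : ∀ t, Complex.exp (U t).1 ≠ -1) :
    Continuous (fun t => d.jt i (U t)) ∧ Continuous fun t => d.dd i (U t) := by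
  have a : Continuous fun t => d.jt i (U t) := continuous_iff_continuousAt.2 fun t =>
    (jet_sm hd (h t)).continuousAt.comp c.continuousAt
  have f : Continuous fun t => fderiv ℝ (d.jt i) (U t) := continuous_iff_continuousAt.2 fun t =>
    ((jet_sm hd (h t)).continuousAt_fderiv (by simp)).comp c.continuousAt
  refine ⟨a, continuous_clm_apply.2 fun v => ?_⟩
  have f' := f.clm_apply (continuous_const (y := v))
  simp only [dd_apply]
  refine (((contDiff_om d.n).continuous.comp a.fst).clm_apply f'.fst).prodMk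
    (Complex.continuous_re.comp (((continuous_const.mul a.snd).inv₀ fun t => ?_).mul f'.snd))
  simp [S1_ne (jt_mem hd (h t)).2, Real.pi_ne_zero]

theorem dd_ver (hd : d.OK) {u : ℂ × ℝ × ℝ} (hu : Complex.exp u.1 ≠ -1) (ψ τ : ℝ) :
    0 < 2 * Real.pi * nE d.n (d.jt i u).1 ∧ (d.dd i u (0, ψ, τ)).1.2 =
      2 * Real.pi * nE d.n (d.jt i u).1 * (d.e₁ * ψ + d.e₂ / 6 * τ) ∧
    (d.dd i u (0, ψ, τ)).2 = 6 * d.k * ψ + d.l * τ := by
  obtain ⟨a, b, c⟩ := jet_mem hu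
  have z := (jet_ne (d := d) (i := i) a b c).2.2
  refine ⟨?_, (jet_ver hd hu ψ τ).1.trans (by ring), ?_⟩
  · have : 0 < ‖(eul d.n (d.jt i u).1).2.2‖ := norm_pos_iff.2 (mul_ne_zero (by norm_num) z)
    unfold nE
    positivity
  · rw [dd_apply, (jet_ver hd hu ψ τ).2, inv_mul_cancel_left₀
      (by simp [S1_ne (jt_mem hd hu).2, Real.pi_ne_zero]), Complex.ofReal_re]

theorem wn_ex {φ : ℝ → ℝ} (c : Continuous φ) (p : ∀ t, φ (t + 1) = φ t) :
    Wn (fun t => ex (φ t)) 0 :=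
  ⟨fun t => 2 * Real.pi * φ t * .I, by fun_prop, fun t => rfl, fun t => by simp [p]⟩

theorem wn_gB (hi : i = 1 ∨ i = 2) (h : WL i e b η) {φ : ℝ → ℝ} (c : Continuous φ)
    (p : ∀ t, φ (t + 1) = φ t) : Wn (fun t => ex (φ t) * gB (4 - i) (η t)) 1 := by
  have := (wn_ex c p).mul (h.gauge.2.1 (4 - i))
  convert this using 1
  rcases hi with rfl | rfl <;> norm_num

theorem wn_hz (hi : i = 1 ∨ i = 2) (hd : d.OK) (h : WL i e b η) {φ : ℝ → ℝ} (c : Continuous φ)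
    (p : ∀ t, φ (t + 1) = φ t) :
    Wn (fun t => hz d.n (d.j (PiE i (η t, ex t, ex (φ t)))).1) (d.tw i - 1) := by
  obtain ⟨cη, m, pη, -⟩ := h.facts
  have w1 : Wn (fun t => ex t) 1 := (wn_apxE 1).congr fun t => by rw [Int.cast_one, one_mul]; rfl
  have w := (wn_cst (c := -1) (by norm_num)).mul (((h.gauge.2.2.zpow (d.e₁ - d.i₁)).mul
    ((wn_gB hi h c p).zpow (d.e₂ - d.i₂))).div (w1.mul h.gauge.1))
  obtain ⟨cγ, -, pγ⟩ := (jp_hl hd i cη m pη c p).symm.facts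
  have k (t : ℝ) := j_hz (i := i) hd (m t) (ex_S1 t) (ex_S1 (φ t))
  have y : 0 + ((d.e₁ - d.i₁) * (2 - i) + (d.e₂ - d.i₂) * 1 - (1 + -1)) = d.tw i - 1 := by
    simp only [JD.tw]; ring
  refine (y ▸ w).of_slit ?_ (fun t => by rw [pη, p, ex_one]) fun t => ?_
  · have n (t : ℝ) := (jet_ne (d := d) (i := i) (m t) (ex_S1 t) (ex_S1 (φ t))).1
    have s : Continuous fun a : C3 => ((‖(grd d.n a).1‖ ^ 2 + ‖(grd d.n a).2.1‖ ^ 2 +
        ‖(grd d.n a).2.2‖ ^ 2 : ℝ) : ℂ) := by unfold grd; fun_prop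
    exact ((cγ.snd.fst.mul cγ.snd.snd).div cγ.fst n).neg.mul (s.comp cγ)
  · rw [neg_one_mul, ← (k t).2, ← ph_mul_norm (k t).1, ph_pos_mul (norm_pos_iff.2 (k t).1)
      (ph_norm (k t).1), mul_div_cancel_right₀ _ (ph_ne (k t).1)]
    exact Complex.ofReal_mem_slitPlane.2 (norm_pos_iff.2 (k t).1)

end Pool.Agent.Lib.MP_b2e238_gt
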