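import Pool.Agent.Lib.MP_b2e238_gt.K.Rot
import Pool.Agent.Lib.MP_b2e238_gt.K.Hl
import Pool.Agent.Lib.MP_b2e238_gt.K.Dif

/-! The class of the normal frame: linear algebra. -/

open scoped ContDiff Topology
open Set Metric

noncomputable section

namespace Pool.Agent.Lib.MP_b2e238_gt

section
variable {P Q : Type} [NormedAddCommGroup P] [NormedSpace ℝ P] [FiniteDimensional ℝ P]
  [NormedAddCommGroup Q] [NormedSpace ℝ Q] [FiniteDimensional ℝ Q]

theorem la_hl (H : ℝ → ℝ → P →L[ℝ] P) (c : ∀ x, Continuous fun q : ℝ × ℝ => H q.1 q.2 x)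
    (i : ∀ l ∈ Icc (0 : ℝ) 1, ∀ t x, H l t x = 0 → x = 0) (p : ∀ l t, H l (t + 1) = H l t) :
    Hl (Inj P) (H 0) (H 1) :=
  hl_mk (continuous_clm_apply.2 c) fun l hl t =>
    ⟨(injective_iff_map_eq_zero _).2 (i l hl t), p l t⟩

omit [FiniteDimensional ℝ P] in
theorem la_congr {α β α' β' : ℝ → P →L[ℝ] P} (h : Hl (Inj P) α β) (a : ∀ t x, α' t x = α t x)
    (b : ∀ t x, β' t x = β t x) : Hl (Inj P) α' β' := by
  rwa [show α' = α from funext fun t => ContinuousLinearMap.ext (a t),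
    show β' = β from funext fun t => ContinuousLinearMap.ext (b t)]

omit [FiniteDimensional ℝ P] in
theorem la_cst {C : P →L[ℝ] P} (h : C ∈ Inj P) : Hl (Inj P) (fun _ => C) fun _ => C :=
  Hl.refl continuous_const (fun _ => h) fun _ => rfl

theorem la_prod {α β : ℝ → P →L[ℝ] P} {γ δ : ℝ → Q →L[ℝ] Q} (h : Hl (Inj P) α β)
    (k : Hl (Inj Q) γ δ) :
    Hl (Inj (P × Q)) (fun t => (α t).prodMap (γ t)) fun t => (β t).prodMap (δ t) :=
  h.map₂ (f := fun (a : P →L[ℝ] P) (b : Q →L[ℝ] Q) => a.prodMap b) k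
    (Continuous.continuousOn (continuous_clm_apply.2 fun _ =>
      (continuous_fst.clm_apply continuous_const).prodMk
        (continuous_snd.clm_apply continuous_const)))
    fun _ ha _ hb _ _ e => Prod.ext (ha (congrArg Prod.fst e)) (hb (congrArg Prod.snd e))
end

/-- The real linear map of the plane with the columns `u`, `w`. -/
def laP (u w : ℂ) : ℂ →L[ℝ] ℂ := Complex.reCLM.smulRight u + Complex.imCLM.smulRight w

theorem laP_apply (u w z : ℂ) : laP u w z = z.re • u + z.im • w := rfl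

theorem laP_zero {u w z : ℂ} (h : u.re * w.im - u.im * w.re ≠ 0) (e : laP u w z = 0) : z = 0 := by
  have a := congrArg Complex.re e
  have b := congrArg Complex.im e
  simp [laP_apply] at a b
  refine Complex.ext (mul_left_cancel₀ h ?_) (mul_left_cancel₀ h ?_)
  · rw [Complex.zero_re]; linear_combination w.im * a - w.re * b
  · rw [Complex.zero_im]; linear_combination u.re * b - u.im * a

theorem laP_eq (G : ℂ →L[ℝ] ℂ) (z : ℂ) : G z = laP (G 1) (G .I) z := by
  rw [laP_apply, ← map_smul, ← map_smul, ← map_add]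
  congr 1
  simp

theorem la_two {G : ℂ →L[ℝ] ℂ} (h : G ∈ Inj ℂ) : ∃ C ∈ Inj ℂ, ∃ ε : ℤ, (ε = 1 ∨ ε = -1) ∧
    Hl (Inj ℂ) (fun t => G ∘L ContinuousLinearMap.mul ℝ ℂ (ex (-t)))
      fun t => ContinuousLinearMap.mul ℝ ℂ (ex (ε * t)) ∘L C := by
  have z := (injective_iff_map_eq_zero G).1 h
  have u0 : G 1 ≠ 0 := fun e => one_ne_zero (z 1 e)
  have n := Complex.normSq_pos.2 u0
  rw [Complex.normSq_apply] at n
  have d : (G 1).re * (G .I).im - (G 1).im * (G .I).re ≠ 0 := fun e => by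
    have a := z ⟨(G .I).re, -(G 1).re⟩ (by
      rw [laP_eq, laP_apply]; apply Complex.ext <;> simp <;> linarith)
    have b := z ⟨(G .I).im, -(G 1).im⟩ (by
      rw [laP_eq, laP_apply]; apply Complex.ext <;> simp <;> linarith)
    exact u0 (Complex.ext (by simpa using congrArg Complex.im a)
      (by simpa using congrArg Complex.im b))
  have x : ∀ t, ex t ≠ 0 := fun t => Complex.exp_ne_zero _
  have m : Hl (Inj ℂ) (fun t => ContinuousLinearMap.mul ℝ ℂ (ex (-t)))
      fun t => ContinuousLinearMap.mul ℝ ℂ (ex (-t)) :=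
    Hl.refl ((ContinuousLinearMap.mul ℝ ℂ).continuous.comp
      (contDiff_ex.continuous.comp continuous_neg)) (fun t _ _ e => mul_left_cancel₀ (x _) e)
      fun t => by rw [← ex_one (-(t + 1))]; simp
  have key : ∀ σ : ℝ, 0 < σ * ((G 1).re * (G .I).im - (G 1).im * (G .I).re) → σ * σ = 1 →
      laP (G 1) (σ * .I * G 1) ∈ Inj ℂ ∧
      Hl (Inj ℂ) (fun t => G ∘L ContinuousLinearMap.mul ℝ ℂ (ex (-t)))
        fun t => laP (G 1) (σ * .I * G 1) ∘L ContinuousLinearMap.mul ℝ ℂ (ex (-t)) := by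
    intro σ h1 h2
    have k := la_congr (α' := fun _ => G) (β' := fun _ => laP (G 1) (σ * .I * G 1))
      (la_hl (fun l _ => laP (G 1) ((1 - l) * G .I + l * (σ * .I * G 1)))
        (fun y => by simp only [laP_apply]; fun_prop)
        (fun l hl _ y e => laP_zero (fun f => by
          simp at f
          have q : (1 - l) * (σ * ((G 1).re * (G .I).im - (G 1).im * (G .I).re)) +
              l * ((G 1).re * (G 1).re + (G 1).im * (G 1).im) = 0 := by
            linear_combination σ * f - l * ((G 1).re * (G 1).re + (G 1).im * (G 1).im) * h2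
          rcases hl.1.eq_or_lt with rfl | p
          · linarith
          · nlinarith [mul_nonneg (sub_nonneg.2 hl.2) h1.le, mul_pos p n]) e)
        fun _ _ => by rfl) (fun _ y => by simpa using laP_eq G y) fun _ y => by simp
    exact ⟨k.symm.facts.2.1 0, k.comp m⟩
  rcases d.lt_or_gt with d | d
  · obtain ⟨a, b⟩ := key (-1) (by linarith) (by norm_num)
    refine ⟨_, a, 1, .inl rfl, la_congr b (fun _ _ => rfl) fun t y => ?_⟩
    have c : ex (-t) = star (ex t) := by simp [ex, ← Complex.exp_conj, map_ofNat]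
    simp only [ContinuousLinearMap.comp_apply, ContinuousLinearMap.mul_apply', laP_apply, c,
      Int.cast_one, one_mul]
    apply Complex.ext <;> simp <;> ring
  · obtain ⟨a, b⟩ := key 1 (by linarith) (by norm_num)
    refine ⟨_, a, -1, .inr rfl, la_congr b (fun _ _ => rfl) fun t y => ?_⟩
    simp only [ContinuousLinearMap.comp_apply, ContinuousLinearMap.mul_apply', laP_apply,
      Int.cast_neg, Int.cast_one, neg_one_mul]
    apply Complex.ext <;> simp <;> ring

/-- The linear map with four given columns. -/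
def laC (a b c d : ℝ × E3) : ℝ × E3 →L[ℝ] ℝ × E3 :=
  (ContinuousLinearMap.fst ℝ ℝ E3).smulRight a +
    ((Complex.reCLM.smulRight b + Complex.imCLM.smulRight c) ∘L ContinuousLinearMap.fst ℝ ℂ ℝ +
      (ContinuousLinearMap.snd ℝ ℂ ℝ).smulRight d) ∘L ContinuousLinearMap.snd ℝ ℝ E3

theorem laC_apply (a b c d x : ℝ × E3) :
    laC a b c d x = x.1 • a + (x.2.1.re • b + x.2.1.im • c + x.2.2 • d) := rfl

theorem la_ext {x y : ℝ × E3} (a : x.1 = y.1) (b : x.2.1.re = y.2.1.re) (c : x.2.1.im = y.2.1.im)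
    (d : x.2.2 = y.2.2) : x = y := Prod.ext a (Prod.ext (Complex.ext b c) d)

theorem la_co {x y : ℝ × E3} (e : x = y) :
    x.1 = y.1 ∧ x.2.1.re = y.2.1.re ∧ x.2.1.im = y.2.1.im ∧ x.2.2 = y.2.2 := by
  rw [e]; exact ⟨rfl, rfl, rfl, rfl⟩

theorem la_s1 {κ : ℝ → E3} (c : Continuous κ) (p : ∀ t, κ (t + 1) = κ t) :
    Hl (Inj (ℝ × E3)) (fun _ => ContinuousLinearMap.id ℝ _)
      fun t => laC (1, -κ t) (0, 1, 0) (0, .I, 0) (0, 0, 1) :=
  la_congr (la_hl (fun l t => laC (1, -(l • κ t)) (0, 1, 0) (0, .I, 0) (0, 0, 1))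
    (fun y => by simp only [laC_apply]; fun_prop)
    (fun l _ t y e => by
      obtain ⟨h1, h2, h3, h4⟩ := la_co e
      simp [laC_apply] at h1
      simp [laC_apply, h1] at h2 h3 h4
      exact la_ext h1 h2 h3 h4)
    fun _ _ => by simp only [p])
    (fun _ y => by apply la_ext <;> simp [laC_apply]) fun _ y => by simp only [one_smul]

theorem la_s2 {φ₁ φ₂ φ₃ : ℝ → ℝ} (c₁ : Continuous φ₁) (c₂ : Continuous φ₂) (c₃ : Continuous φ₃)
    (p : ∀ t, φ₁ (t + 1) = φ₁ t ∧ φ₂ (t + 1) = φ₂ t ∧ φ₃ (t + 1) = φ₃ t) :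
    Hl (Inj (ℝ × E3)) (fun _ => ContinuousLinearMap.id ℝ _)
      fun t => laC (1, 0, 0) (-φ₁ t, 1, 0) (-φ₂ t, .I, 0) (-φ₃ t, 0, 1) :=
  la_congr (la_hl (fun l t =>
      laC (1, 0, 0) (-(l * φ₁ t), 1, 0) (-(l * φ₂ t), .I, 0) (-(l * φ₃ t), 0, 1))
    (fun y => by simp only [laC_apply]; fun_prop)
    (fun l _ t y e => by
      obtain ⟨h1, h2, h3, h4⟩ := la_co e
      simp [laC_apply] at h2 h3 h4
      simp [laC_apply, h2, h3, h4] at h1
      exact la_ext h1 h2 h3 h4)
    fun _ _ => by simp only [p])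
    (fun _ y => by apply la_ext <;> simp [laC_apply]) fun _ y => by simp only [one_mul]

theorem la_d {L : ℝ → ℂ} {ρ θ₁ θ₂ β₁ β₂ : ℝ → ℝ} {a b c d : ℝ} (det : a * d - b * c ≠ 0)
    (hd : d ≠ 0) (cL : Continuous L) (cρ : Continuous ρ) (c₁ : Continuous θ₁) (c₂ : Continuous θ₂)
    (c₃ : Continuous β₁) (c₄ : Continuous β₂) (h0 : ∀ t, L t ≠ 0 ∧ 0 < ρ t)
    (p : ∀ t, L (t + 1) = L t ∧ ρ (t + 1) = ρ t ∧ θ₁ (t + 1) = θ₁ t ∧ θ₂ (t + 1) = θ₂ t ∧
      β₁ (t + 1) = β₁ t ∧ β₂ (t + 1) = β₂ t) :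
    Hl (Inj (ℝ × E3)) (fun t => (ContinuousLinearMap.id ℝ ℝ).prodMap (mu (L t)) ∘L
        laC (d, 0, 0) (0, 1, 0) (0, .I, 0) (0, 0, a - b * c / d))
      fun t => laC (d, 0, ρ t * b) (θ₁ t, L t, β₁ t) (θ₂ t, L t * .I, β₂ t) (c, 0, ρ t * a) :=
  la_congr (la_hl (fun l t => laC (d, 0, (l * ρ t + (1 - l)) * (l * b)) (l * θ₁ t, L t, l * β₁ t)
      (l * θ₂ t, L t * .I, l * β₂ t) (l * c, 0, (l * ρ t + (1 - l)) * (a - (1 - l ^ 2) * (b * c / d))))
    (fun y => by simp only [laC_apply]; fun_prop)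
    (fun l hl t y e => by
      have z : L t * y.2.1 = 0 := by
        have := congrArg (fun u => u.2.1) e
        simp only [laC_apply, Prod.snd_add, Prod.fst_add, Prod.smul_snd, Prod.smul_fst, smul_zero,
          Complex.real_smul, Prod.snd_zero, Prod.fst_zero] at this
        rw [← Complex.re_add_im y.2.1]
        linear_combination this
      have z' := (mul_eq_zero.1 z).resolve_left (h0 t).1
      obtain ⟨h1, -, -, h4⟩ := la_co e
      simp only [laC_apply, z', Complex.zero_re, Complex.zero_im, zero_smul, zero_add, Prod.snd_add,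
        Prod.fst_add, Prod.smul_snd, Prod.smul_fst, smul_eq_mul, Prod.snd_zero, Prod.fst_zero]
        at h1 h4
      have r : 0 < l * ρ t + (1 - l) := by
        rcases hl.1.eq_or_lt with rfl | q
        · simp
        · nlinarith [mul_pos q (h0 t).2, hl.2]
      have h5 : y.1 * (l * b) + y.2.2 * (a - (1 - l ^ 2) * (b * c / d)) = 0 :=
        mul_left_cancel₀ r.ne' (by linear_combination h4)
      have f : b * c / d * d = b * c := div_mul_cancel₀ _ hd
      have h6 : y.2.2 = 0 := mul_left_cancel₀ det (by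
        linear_combination d * h5 - l * b * h1 + y.2.2 * (1 - l ^ 2) * f)
      have h7 : y.1 = 0 := mul_left_cancel₀ hd (by rw [h6] at h1; linear_combination h1)
      exact Prod.ext h7 (Prod.ext z' h6))
    fun _ _ => by simp only [p])
    (fun _ y => by apply la_ext <;> simp [laC_apply, rot_mu] <;> ring) fun _ y => by simp

theorem la_m {k v : ℝ → ℂ × ℝ × ℝ} {g : ℝ → ℝ} (ck : Continuous k) (cv : Continuous v)
    (cg : Continuous g) (p : ∀ t, g (t + 1) = g t ∧ k (t + 1) = k t ∧ v (t + 1) = v t)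
    (i : ∀ t (s r : ℝ), s * ((k t).2.2 - g t) + r * (v t).2.2 = 0 →
      s * (k t).1.re + r * (v t).1.re = 0 → s = 0 ∧ r = 0) :
    Hl (Inj (ℝ × E3)) (fun t => laC ((k t).2.2 - g t, (k t).1.re, 0) ((v t).2.2, (v t).1.re, 0)
        (0, 2 * Real.pi * .I, 0) (0, 0, 1))
      fun t => laC ((k t).2.2, (k t).1, 1) ((v t).2.2, (v t).1, 0)
        (0, 2 * Real.pi * .I, 0) (g t, 0, 1) :=
  la_congr (la_hl (fun l t => laC ((k t).2.2 - g t + l ^ 2 * g t, (k t).1.re + l * (k t).1.im * .I, l)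
      ((v t).2.2, (v t).1.re + l * (v t).1.im * .I, 0) (0, 2 * Real.pi * .I, 0) (l * g t, 0, 1))
    (fun y => by simp only [laC_apply]; fun_prop)
    (fun l _ t y e => by
      obtain ⟨h1, h2, h3, h4⟩ := la_co e
      simp [laC_apply] at h1 h2 h3 h4
      obtain ⟨a, b⟩ := i t y.1 y.2.1.re (by linear_combination h1 - l * g t * h4) h2
      simp [a, b] at h3 h4
      exact la_ext a b h3 h4)
    fun _ _ => by simp only [p])
    (fun _ y => by simp) fun _ y => by simp

theorem la_r {m : ℝ} (h : 0 < m) (σ : ℝ) (k : σ * σ = 1) :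
    Hl (Inj (ℝ × E3)) (fun _ => ContinuousLinearMap.id ℝ _)
      fun _ => laC (0, σ * .I, 0) (0, 1, 0) (-(σ * m), 0, 0) (0, 0, 1) :=
  la_congr (la_hl (fun l _ => laC (1 - l, l * σ * .I, 0) (0, 1, 0)
      (-(l * σ * m), (1 - l) * .I, 0) (0, 0, 1))
    (fun y => by simp only [laC_apply]; fun_prop)
    (fun l _ t y e => by
      obtain ⟨h1, h2, h3, h4⟩ := la_co e
      simp [laC_apply] at h1 h2 h3 h4
      have n : (1 - l) ^ 2 + l ^ 2 * m ≠ 0 := by
        rcases eq_or_ne l 0 with rfl | q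
        · simp
        · positivity
      refine la_ext (mul_left_cancel₀ n ?_) h2 (mul_left_cancel₀ n ?_) h4
      · rw [Prod.fst_zero]
        linear_combination (1 - l) * h1 + l * σ * m * h3 - l ^ 2 * m * y.1 * k
      · rw [Prod.snd_zero, Prod.fst_zero, Complex.zero_im]
        linear_combination (1 - l) * h3 - l * σ * h1 - l ^ 2 * m * y.2.1.im * k)
    fun _ _ => by rfl)
    (fun _ y => by apply la_ext <;> simp [laC_apply]) fun _ y => by simp

theorem frameLA {D : ℝ → (ℂ × ℝ × ℝ) →L[ℝ] E3 × ℝ} {L : ℝ → ℂ} {ρ g : ℝ → ℝ} {a b c d κ : ℝ} {w : ℤ}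
    {k v : ℝ → ℂ × ℝ × ℝ} {B : ℝ → ℂ →L[ℝ] ℂ} {B₀ : ℂ →L[ℝ] ℂ} {A : ℝ → E3 →L[ℝ] E3}
    (det : a * d - b * c ≠ 0) (hd : d ≠ 0) (hκ : κ ≠ 0) (hL : Wn L w) (cD : Continuous D)
    (cρ : Continuous ρ) (cg : Continuous g) (ck : Continuous k) (cv : Continuous v)
    (per : ∀ t, D (t + 1) = D t ∧ ρ (t + 1) = ρ t ∧ g (t + 1) = g t ∧ k (t + 1) = k t ∧
      v (t + 1) = v t)
    (hor : ∀ t u, (D t u).1.1 = L t * u.1)
    (ver : ∀ t ψ τ, 0 < ρ t ∧ (D t (0, ψ, τ)).1.2 = ρ t * (a * ψ + b * τ) ∧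
      (D t (0, ψ, τ)).2 = c * ψ + d * τ)
    (hk : ∀ t, (k t).2.1 = 1 ∧ (D t (k t)).2 = 1 ∧ (v t).2.1 = 0)
    (hB : Hl (Inj ℂ) B fun _ => B₀)
    (Bv : ∀ t, B t (ex (-t)) = (v t).1.re + .I * (v t).2.2)
    (Bk : ∀ t, B t (κ * .I * ex (-t)) = (k t).1.re + .I * ((k t).2.2 - g t : ℝ))
    (hA : ∀ t x u, u = x.1.re • v t + x.1.im • ((2 * Real.pi * .I, 0, 0) : ℂ × ℝ × ℝ) +
      x.2 • ((0, 1, g t) : ℂ × ℝ × ℝ) → A t x = (D t (u - (D t u).2 • k t)).1) :
    ∃ C ∈ Inj E3, Hl (Inj E3) A fun t => mu (ex ((w + 1 : ℤ) * t)) ∘L C := by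
  have x0 : ∀ t, ex t ≠ 0 := fun t => Complex.exp_ne_zero _
  have pD : ∀ t, D (t + 1) = D t := fun t => (per t).1
  have pg : ∀ t, g (t + 1) = g t := fun t => (per t).2.2.1
  have pk : ∀ t, k (t + 1) = k t := fun t => (per t).2.2.2.1
  have pv : ∀ t, v (t + 1) = v t := fun t => (per t).2.2.2.2
  have a0 : a - b * c / d ≠ 0 := fun e => det (by
    have := div_mul_cancel₀ (b * c) hd
    linear_combination d * e + this)
  have By : ∀ t (s r : ℝ), B t (ex (-t) * (r + κ * s * .I)) =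
      (s * (k t).1.re + r * (v t).1.re : ℝ) + .I * (s * ((k t).2.2 - g t) + r * (v t).2.2 : ℝ) := by
    intro t s r
    rw [show ex (-t) * (r + κ * s * .I) = r • ex (-t) + s • (κ * .I * ex (-t)) by
      simp only [Complex.real_smul]; ring, map_add, map_smul, map_smul, Bv, Bk]
    simp only [Complex.real_smul]; push_cast; ring
  have h1 := la_s1 (κ := fun t => (D t (k t)).1) (by fun_prop) fun t => by rw [pD, pk]
  have h2 := la_s2 (φ₁ := fun t => (D t (v t)).2) (φ₂ := fun t => (D t (2 * Real.pi * .I, 0, 0)).2)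
    (φ₃ := fun t => (D t (0, 1, g t)).2) (by fun_prop) (by fun_prop) (by fun_prop)
    fun t => by simp only [pD, pv, pg, and_self]
  have h3 := la_d (θ₁ := fun t => (D t (1, 0, 0)).2) (θ₂ := fun t => (D t (.I, 0, 0)).2)
    (β₁ := fun t => (D t (1, 0, 0)).1.2) (β₂ := fun t => (D t (.I, 0, 0)).1.2) det hd hL.cont cρ
    (by fun_prop) (by fun_prop) (by fun_prop) (by fun_prop)
    (fun t => ⟨hL.ne t, (ver t 0 0).1⟩) fun t => by simp only [pD, hL.per, (per t).2.1, and_self]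
  have h4 := la_m ck cv cg (fun t => ⟨pg t, pk t, pv t⟩) fun t s r e e' => by
    have z := (injective_iff_map_eq_zero _).1 (hB.facts.2.1 t) _
      ((By t s r).trans (by rw [e, e']; simp))
    have z' := (mul_eq_zero.1 z).resolve_left (x0 _)
    exact ⟨by simpa [hκ] using congrArg Complex.im z', by simpa using congrArg Complex.re z'⟩
  have hD : ∀ t (y : ℝ × E3), laC (d, 0, ρ t * b) ((D t (1, 0, 0)).2, L t, (D t (1, 0, 0)).1.2)
      ((D t (.I, 0, 0)).2, L t * .I, (D t (.I, 0, 0)).1.2) (c, 0, ρ t * a) y =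
        ((D t (y.2.1, y.2.2, y.1)).2, (D t (y.2.1, y.2.2, y.1)).1) := by
    intro t y
    have e : D t (y.2.1, y.2.2, y.1) =
        y.2.1.re • D t (1, 0, 0) + y.2.1.im • D t (.I, 0, 0) + D t (0, y.2.2, y.1) := by
      rw [← map_smul, ← map_smul, ← map_add, ← map_add]
      congr 1
      simp
    obtain ⟨-, e1, e2⟩ := ver t y.2.2 y.1
    refine Prod.ext ?_ (Prod.ext ?_ ?_)
    · simp only [e, laC_apply, Prod.fst_add, Prod.snd_add, Prod.smul_fst, Prod.smul_snd, e2,
        smul_eq_mul]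
      ring
    · simp only [e, laC_apply, Prod.fst_add, Prod.snd_add, Prod.smul_fst, Prod.smul_snd, hor]
      simp
    · simp only [e, laC_apply, Prod.fst_add, Prod.snd_add, Prod.smul_fst, Prod.smul_snd, e1,
        smul_eq_mul]
      ring
  have h5 : Hl (Inj (ℝ × E3)) (fun t => (ContinuousLinearMap.id ℝ ℝ).prodMap (A t)) _ :=
    la_congr (h1.comp (h3.comp (h4.comp h2))).symm (fun t y => by
      simp only [ContinuousLinearMap.comp_apply, hD]
      set u : ℂ × ℝ × ℝ := y.2.1.re • v t + y.2.1.im • ((2 * Real.pi * .I, 0, 0) : ℂ × ℝ × ℝ) +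
        y.2.2 • ((0, 1, g t) : ℂ × ℝ × ℝ) with hu
      have φ : (D t u).2 = y.2.1.re * (D t (v t)).2 + y.2.1.im * (D t (2 * Real.pi * .I, 0, 0)).2 +
          y.2.2 * (D t (0, 1, g t)).2 := by
        simp only [hu, map_add, map_smul, Prod.snd_add, Prod.smul_snd, smul_eq_mul]
      set q := laC ((k t).2.2, (k t).1, 1) ((v t).2.2, (v t).1, 0) (0, 2 * Real.pi * .I, 0)
        (g t, 0, 1) (laC (1, 0, 0) (-(D t (v t)).2, 1, 0) (-(D t (2 * Real.pi * .I, 0, 0)).2, .I, 0)
          (-(D t (0, 1, g t)).2, 0, 1) y) with hq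
      have e : (q.2.1, q.2.2, q.1) = y.1 • k t + (u - (D t u).2 • k t) := by
        rw [φ]
        refine Prod.ext (Complex.ext ?_ ?_) (Prod.ext ?_ ?_) <;>
          simp [hq, hu, laC_apply, (hk t).1, (hk t).2.2] <;> ring
      have e' : (D t (u - (D t u).2 • k t)).2 = 0 := by simp [(hk t).2.1]
      rw [e, map_add, map_smul, Prod.fst_add, Prod.snd_add, e', ← hA t y.2 u hu]
      apply la_ext <;> simp [laC_apply, (hk t).2.1]) fun _ _ => rfl
  have i1 : laP 1 (d * .I) ∈ Inj ℂ :=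
    (injective_iff_map_eq_zero _).2 fun _ => laP_zero (by simpa using hd)
  have i2 : laP 1 (κ * .I) ∈ Inj ℂ :=
    (injective_iff_map_eq_zero _).2 fun _ => laP_zero (by simpa using hκ)
  have i3 : (a - b * c / d) • ContinuousLinearMap.id ℝ ℝ ∈ Inj ℝ :=
    fun _ _ e => mul_left_cancel₀ a0 e
  have i4 : ContinuousLinearMap.id ℝ ℝ ∈ Inj ℝ := fun _ _ e => e
  obtain ⟨C, hC, ε, hε, h6⟩ := la_two (G := laP 1 (d * Complex.I) ∘L B₀)
    fun _ _ e => hB.symm.facts.2.1 0 (i1 e)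
  have m : Hl (Inj ℂ) (fun t => ContinuousLinearMap.mul ℝ ℂ (ex (-t)))
      fun t => ContinuousLinearMap.mul ℝ ℂ (ex (-t)) :=
    Hl.refl ((ContinuousLinearMap.mul ℝ ℂ).continuous.comp
      (contDiff_ex.continuous.comp continuous_neg)) (fun t _ _ e => mul_left_cancel₀ (x0 _) e)
      fun t => by rw [← ex_one (-(t + 1))]; simp
  have h7 := la_prod (((((la_cst i1).comp hB).comp m).trans h6).comp (la_cst i2)) (la_cst i3)
  have h8 := (la_prod (la_cst i4) hL.hl.mu).comp ((la_r one_pos (-1) (by norm_num)).symm.comp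
    ((la_prod (la_cst i4) h7).comp (la_r (m := 2 * Real.pi) (by positivity) 1 (by norm_num)).symm))
  have h9 : Hl (Inj E3) A fun t => mu (ex ((w + ε : ℤ) * t)) ∘L
      (C ∘L laP 1 (κ * .I)).prodMap ((a - b * c / d) • ContinuousLinearMap.id ℝ ℝ) := by
    refine hl_stab (h5.trans (la_congr h8 (fun t y => ?_) fun t y => ?_))
    · have e := By t y.1 y.2.1.re
      have e' : laP 1 (κ * .I) (y.2.1.re + y.1 * .I) = y.2.1.re + κ * y.1 * .I := by
        simp [laP_apply]; ring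
      have e'' : laC (0, ((1 : ℝ) : ℂ) * Complex.I, 0) (0, 1, 0) (-(1 * (2 * Real.pi)), 0, 0) (0, 0, 1) y =
          (-(2 * Real.pi * y.2.1.im), (y.2.1.re : ℂ) + y.1 * Complex.I, y.2.2) := by
        apply la_ext <;> simp [laC_apply]; ring
      simp only [ContinuousLinearMap.comp_apply, ContinuousLinearMap.id_apply, e'',
        ContinuousLinearMap.coe_prodMap', Prod.map_apply, ContinuousLinearMap.mul_apply', e', e,
        Function.comp_apply]
      congr 1
      apply la_ext <;> simp [laC_apply, laP_apply] <;> ring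
    · simp only [ContinuousLinearMap.comp_apply, ContinuousLinearMap.id_apply,
        ContinuousLinearMap.coe_prodMap', Prod.map, ContinuousLinearMap.mul_apply', rot_mu,
        Function.comp_apply, Int.cast_add, add_mul, ex_add, mul_assoc]
  have hC' : (C ∘L laP 1 (κ * .I)).prodMap ((a - b * c / d) • ContinuousLinearMap.id ℝ ℝ) ∈
      Inj E3 := fun _ _ e => Prod.ext (i2 (hC (congrArg Prod.fst e))) (i3 (congrArg Prod.snd e))
  refine ⟨_, hC', ?_⟩
  rcases hε with rfl | rfl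
  · exact h9
  · refine h9.trans (Hl.comp ?_ (la_cst hC'))
    have := (hl_two (w + -1)).symm
    rwa [show ((w + -1 : ℤ) : ℝ) + 2 = (w + 1 : ℤ) by push_cast; ring] at this

end Pool.Agent.Lib.MP_b2e238_gt
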