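import Pool.Agent.Lib.MP_b2e238_gt.TL.Emb
import Pool.Agent.Lib.MP_b2e238_gt.B.PiD

/-! The shear of the circle factor by a function with compact support in the base. -/

open scoped ContDiff Topology
open Set Metric

noncomputable section

namespace Pool.Agent.Lib.MP_b2e238_gt

variable {i : ℕ}

theorem sh_reg {a : C3 × ℂ} (h : a ∈ YO 1) (k : a.1.2.1 ^ 3 / a.1.2.2 ∈ CC) : a ∈ YR := by
  obtain ⟨p, q⟩ := mem_CC.1 k
  have z := h.2.2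
  refine ⟨h, fun e => q ?_, fun e => p (by simp [e])⟩
  have m := h.1.1
  rw [e] at m
  field_simp
  linear_combination m

theorem sh_sm (i : ℕ) {χ G : ℂ → ℝ} (hχ : ContDiff ℝ ∞ χ) (hG : ContDiffOn ℝ ∞ G S1)
    {K : Set ℂ} (hK : IsCompact K) (hc : K ⊆ CC) (h0 : ∀ η ∉ K, χ η = 0) :
    ContDiffOn ℝ ∞ (fun a => χ (PiI i a).1 * G (PiI i a).2.1) (YO 1) := fun a ha => by
  by_cases m : a.1.2.1 ^ 3 / a.1.2.2 ∈ K
  · have r := sh_reg ha (hc m)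
    have D := pi_dif i
    exact (((hχ.comp_contDiffOn D.cG.fst).mul (hG.comp D.cG.snd.fst fun b hb => (D.mG hb).2.1))
      a r).mono_of_mem_nhdsWithin (yr_opn.2 a r)
  · have c : ContinuousAt (fun a : C3 × ℂ => a.1.2.1 ^ 3 / a.1.2.2) a :=
      ContinuousAt.div (by fun_prop) (by fun_prop) ha.2.2
    refine ContDiffAt.contDiffWithinAt ((contDiffAt_const (c := (0 : ℝ))).congr_of_eventuallyEq ?_)
    filter_upwards [c (hK.isClosed.isOpen_compl.mem_nhds m)] with b hb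
    rw [show χ (PiI i b).1 = 0 from h0 _ hb, zero_mul]

theorem sh_dif (i : ℕ) {χ G : ℂ → ℝ} (hχ : ContDiff ℝ ∞ χ) (hG : ContDiffOn ℝ ∞ G S1)
    {K : Set ℂ} (hK : IsCompact K) (hc : K ⊆ CC) (h0 : ∀ η ∉ K, χ η = 0) :
    Dif (YO 1) (YO 1) (Sh i χ G) (Sh i χ fun c => -G c) := by
  have s : ∀ {G : ℂ → ℝ}, ContDiffOn ℝ ∞ G S1 → ContDiffOn ℝ ∞ (Sh i χ G) (YO 1) := fun h =>
    contDiffOn_fst.prodMk (contDiffOn_snd.mul
      (contDiff_ex.comp_contDiffOn (sh_sm i hχ h hK hc h0)))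
  have m : ∀ G : ℂ → ℝ, MapsTo (Sh i χ G) (YO 1) (YO 1) := fun G a ha =>
    ⟨ha.1, mem_S1.2 (by rw [Sh, norm_mul, norm_ex, mem_S1.1 ha.2.1, mul_one]), ha.2.2⟩
  have z : ex 0 = 1 := by simpa using ex_int 0
  refine ⟨s hG, s hG.neg, m _, m _, fun a _ => Prod.ext rfl ?_, fun a _ => Prod.ext rfl ?_⟩
  · change a.2 * ex (χ (PiI i a).1 * G (PiI i a).2.1) * ex (χ (PiI i a).1 * -G (PiI i a).2.1) = a.2
    rw [mul_assoc, ← ex_add, mul_neg, add_neg_cancel, z, mul_one]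
  · change a.2 * ex (χ (PiI i a).1 * -G (PiI i a).2.1) * ex (χ (PiI i a).1 * G (PiI i a).2.1) = a.2
    rw [mul_assoc, ← ex_add, mul_neg, neg_add_cancel, z, mul_one]

theorem sh_pi (i : ℕ) (χ G : ℂ → ℝ) {η c T : ℂ} (hη : η ∈ CC) (hc : c ∈ S1) (hT : T ∈ S1) :
    Sh i χ G (PiE i (η, c, T)) = PiE i (η, c, T * ex (χ η * G c)) := by
  rw [Sh, (pi_dif i).gf (η, c, T) ⟨hη, hc, hT⟩]
  exact Prod.ext rfl (mul_right_comm _ _ _)

theorem sh_fill {W : Type} [NormedAddCommGroup W] [NormedSpace ℝ W] {A O : Set W} {j : C3 × ℂ → W}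
    {m m' : ℤ} (h : Fill (YO 1) (cl i) A O j m m') {χ G : ℂ → ℝ} (hχ : ContDiff ℝ ∞ χ)
    (hG : ContDiffOn ℝ ∞ G S1) {K : Set ℂ} (hK : IsCompact K) (hc : K ⊆ CC)
    (h0 : ∀ η ∉ K, χ η = 0) : Fill (YO 1) (cl i) A O (j ∘ Sh i χ G) m m' := by
  obtain ⟨h1, ⟨j', h2⟩, c, ε, κ, hε, hκ, he, hO, hj⟩ := h
  obtain ⟨R, R1, hR⟩ := hK.isBounded.subset_ball_lt 1 0
  have p : 0 < min ε R⁻¹ := lt_min hε (inv_pos.2 (by linarith))
  refine ⟨h1, ⟨_, (sh_dif i hχ hG hK hc h0).trans h2⟩, c, min ε R⁻¹, κ, p, hκ, he.mono ?_, hO,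
    fun a a1 b b1 q q1 ρ hρ => ?_⟩
  · refine opn_iff.2 ⟨univ ×ˢ univ ×ˢ ball 0 (min ε R⁻¹ ^ κ),
      isOpen_univ.prod (isOpen_univ.prod isOpen_ball), ?_⟩
    have : min ε R⁻¹ ^ κ ≤ ε ^ κ := Real.rpow_le_rpow p.le (min_le_left _ _) hκ.le
    ext u
    exact ⟨fun h => ⟨⟨h.1, h.2.1, ball_subset_ball this h.2.2⟩, trivial, trivial, h.2.2⟩,
      fun h => ⟨h.1.1, h.1.2.1, h.2.2.2⟩⟩
  · rw [← hj a a1 b b1 q q1 ρ ⟨hρ.1, hρ.2.trans_le (min_le_left _ _)⟩, Function.comp]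
    congr 1
    have r0 := hρ.1
    have r1 : ρ < R⁻¹ := hρ.2.trans_le (min_le_right _ _)
    have r2 : ρ < 1 := r1.trans (inv_lt_one_of_one_lt₀ R1)
    have r3 : R < (ρ ^ 3)⁻¹ := (lt_inv_comm₀ (by linarith) (pow_pos r0 3)).2
      ((pow_le_of_le_one r0.le r2.le three_ne_zero).trans_lt r1)
    have na := mem_S1.1 a1
    have nb := mem_S1.1 b1
    have nq := mem_S1.1 q1
    have n : ‖(((ρ ^ 3)⁻¹ : ℝ) : ℂ) * (q / ((a * q ^ m) ^ 3 * (b * q ^ m')) ^ i)‖ = (ρ ^ 3)⁻¹ := by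
      simp [na, nb, nq, abs_of_pos r0]
    have k := h0 _ fun e => by
      have := mem_ball_zero_iff.1 (hR e)
      rw [n] at this
      linarith
    have z : ex 0 = 1 := by simpa using ex_int 0
    rw [cl, sh_pi i χ G (mem_CC.2 ⟨fun e => ?_, fun e => ?_⟩) (mem_S1.2 (by simp [na, nq]))
      (mem_S1.2 (by simp [na, nb, nq])), k, zero_mul, z, mul_one]
    · rw [e, norm_zero] at n
      linarith
    · rw [eq_neg_of_add_eq_zero_right e, norm_neg, norm_one] at n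
      linarith

end Pool.Agent.Lib.MP_b2e238_gt
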