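import Pool.Agent.Lib.MP_b2e238_gt.C.GrA
import Pool.Agent.Lib.MP_b2e238_gt.C.GrB
import Pool.Agent.Lib.MP_b2e238_gt.C.GrC
import Pool.Agent.Lib.MP_b2e238_gt.C.LA
import Pool.Agent.Lib.MP_b2e238_gt.C.Sh
import Pool.Agent.Lib.MP_b2e238_gt.C.Disc
import Pool.Agent.Lib.MP_b2e238_gt.K.Gr

/-! The model tube is a framed graph in every filling. -/

open scoped ContDiff Topology
open Set Metric

noncomputable section

namespace Pool.Agent.Lib.MP_b2e238_gt

variable {i : ℕ} {e b : ℤ} {p : ℂ → ℝ} {τ g : ℂ → ℂ} {R : ℝ} {d : JD} {W : ℝ × ℝ → ℂ × ℝ × ℝ}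
  {G : ℝ → ℝ} {t : ℝ}

/-- The sheared tube in logarithmic coordinates. -/
def gU (W : ℝ × ℝ → ℂ × ℝ × ℝ) (G : ℝ → ℝ) (u : ℝ × E3) : ℂ × ℝ × ℝ :=
  W (u.1, u.2.1.re) + (u.2.1.im • (2 * Real.pi * .I : ℂ), u.1 + u.2.2, G (u.1 + u.2.2))

theorem gU_der (h : ContDiffAt ℝ ∞ W (t, 0)) (c : ContDiff ℝ ∞ G) :
    DifferentiableAt ℝ (gU W G) (t, 0) ∧ ∀ s x, fderiv ℝ (gU W G) (t, 0) (s, x) =
      s • (fderiv ℝ W (t, 0) (1, 0) + (0, 1, deriv G t)) + (x.1.re • fderiv ℝ W (t, 0) (0, 1) +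
        x.1.im • ((2 * Real.pi * .I, 0, 0) : ℂ × ℝ × ℝ) + x.2 • ((0, 1, deriv G t) : ℂ × ℝ × ℝ)) := by
  have z0 := hasFDerivAt_snd (𝕜 := ℝ) (p := ((t, 0) : ℝ × E3))
  have z : HasFDerivAt (fun u : ℝ × E3 => u.2.1) _ (t, 0) := z0.fst
  have a : HasFDerivAt (fun u : ℝ × E3 => u.1 + u.2.2) _ (t, 0) := hasFDerivAt_fst.add z0.snd
  have w := HasFDerivAt.comp (f := fun u : ℝ × E3 => (u.1, u.2.1.re)) (t, 0)
    (h.differentiableAt (by simp)).hasFDerivAt
    (hasFDerivAt_fst.prodMk (Complex.reCLM.hasFDerivAt.comp _ z))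
  have y : HasDerivAt G (deriv G t) (t + 0) := by
    rw [add_zero]; exact (c.differentiable (by simp) t).hasDerivAt
  have k : HasFDerivAt (gU W G) _ (t, 0) := w.add
    (((Complex.imCLM.hasFDerivAt.comp _ z).smul_const (2 * Real.pi * .I : ℂ)).prodMk
      (a.prodMk (y.comp_hasFDerivAt (t, 0) a)))
  refine ⟨k.differentiableAt, fun s x => ?_⟩
  have q : fderiv ℝ W (t, 0) (s, x.1.re) =
      s • fderiv ℝ W (t, 0) (1, 0) + x.1.re • fderiv ℝ W (t, 0) (0, 1) := by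
    rw [← map_smul, ← map_smul, ← map_add]; simp
  rw [k.fderiv]
  ext <;> simp [q] <;> ring

theorem gr_ev (t : ℝ) : ∀ᶠ u : ℝ × ℝ in 𝓝 (t, 0), |u.2| < 1 / 20 :=
  continuous_snd.abs.continuousAt.eventually_lt continuousAt_const (by norm_num)

theorem gr_lin (hi : i = 1 ∨ i = 2) (hd : d.OK) (hl : d.l ≠ 0) {η : ℝ → ℂ} (h : WL i e b η)
    {B : ℝ → ℂ →L[ℝ] ℂ} {B₀ : ℂ →L[ℝ] ℂ} {m : ℤ} (s : ∀ t, ContDiffAt ℝ ∞ W (t, 0))
    (c : ContDiff ℝ ∞ G) (pG : ∀ t, G (t + 1) = G t) (x : ∀ t, Complex.exp (W (t, 0)).1 = η t)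
    (z : ∀ t r, |r| < 1 / 20 → (W (t, r)).2.1 = 0 ∧
      W (t + 1, r) = W (t, r) + ((m : ℂ) * (2 * Real.pi * Complex.I), 0, 0))
    (hB : Hl (Inj ℂ) B fun _ => B₀)
    (Bv : ∀ t, B t (ex (-t)) =
      (fderiv ℝ W (t, 0) (0, 1)).1.re + .I * (fderiv ℝ W (t, 0) (0, 1)).2.2)
    (Bk : ∀ t, B t ((-(6 * Real.pi / 5) : ℝ) * .I * ex (-t)) =
      (fderiv ℝ W (t, 0) (1, 0)).1.re + .I * (fderiv ℝ W (t, 0) (1, 0)).2.2)
    (y : ∀ t, (d.jt i (gU W G (t, 0))).2 = ex t) {T : ℝ × E3 → C3 × ℂ} {r : ℝ}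
    (hT : Tb (MM d.n) T r) (E : ∀ t, T =ᶠ[𝓝 (t, 0)] d.jt i ∘ gU W G) :
    Surg (MM d.n) T S4 ↔ RK d.n (d.lp i η) (d.tw i) := by
  have u (t : ℝ) : gU W G (t, 0) = ((W (t, 0)).1, t, (W (t, 0)).2.2 + G t) := by
    ext <;> simp [gU, (z t 0 (by norm_num)).1]
  have n (t : ℝ) : Complex.exp (gU W G (t, 0)).1 ≠ -1 := by
    rw [u, x]; exact fun q => (mem_CC.1 (h.facts.2.1 t)).2 (by simp [q])
  have ι : Continuous fun t : ℝ => ((t, 0) : ℝ × ℝ) := by fun_prop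
  have cW : Continuous fun t => W (t, 0) :=
    continuous_iff_continuousAt.2 fun t => (s t).continuousAt.comp (f := fun t => (t, 0)) ι.continuousAt
  have cW' : Continuous fun t => fderiv ℝ W (t, 0) := continuous_iff_continuousAt.2 fun t =>
    ((s t).continuousAt_fderiv (by simp)).comp (f := fun t => (t, 0)) ι.continuousAt
  have pW (t : ℝ) : fderiv ℝ W (t + 1, 0) = fderiv ℝ W (t, 0) := by
    rw [show ((t + 1, 0) : ℝ × ℝ) = (t, 0) + (1, 0) by simp, ← fderiv_comp_add_right,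
      ← fderiv_add_const (((m : ℂ) * (2 * Real.pi * .I), 0, 0) : ℂ × ℝ × ℝ) (f := W)]
    exact Filter.EventuallyEq.fderiv_eq ((gr_ev t).mono fun a ha => by
      simpa [Prod.add_def] using (z a.1 a.2 ha).2)
  have zW (t : ℝ) (v : ℝ × ℝ) : (fderiv ℝ W (t, 0) v).2.1 = 0 :=
    congrArg (· v) (((s t).differentiableAt (by simp)).hasFDerivAt.snd.fst.unique
      ((hasFDerivAt_const (0 : ℝ) _).congr_of_eventuallyEq ((gr_ev t).mono fun a ha =>
        (z a.1 a.2 ha).1)))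
  have cG := c.continuous
  have cg : Continuous (deriv G) := c.continuous_deriv (by simp)
  have pg (t : ℝ) : deriv G (t + 1) = deriv G t := by
    rw [← deriv_comp_add_const]; simp only [pG]
  have cφ : Continuous fun t => (W (t, 0)).2.2 + G t := cW.snd.snd.add cG
  have cU : Continuous fun t => gU W G (t, 0) := by
    simp only [u]; exact cW.fst.prodMk (continuous_id.prodMk cφ)
  have pU (t : ℝ) : gU W G (t + 1, 0) = gU W G (t, 0) + ((m : ℂ) * (2 * Real.pi * .I), 1, 0) := by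
    simp [u, (z t 0 (by norm_num)).2, pG]
  obtain ⟨cJ, cD⟩ := dd_cont (i := i) hd cU n
  have pφ (t : ℝ) : (W (t + 1, 0)).2.2 + G (t + 1) = (W (t, 0)).2.2 + G t := by
    simp [(z t 0 (by norm_num)).2, pG]
  have j (t : ℝ) : d.jt i (gU W G (t, 0)) = d.j (PiE i (η t, ex t, ex ((W (t, 0)).2.2 + G t))) := by
    rw [u, JD.jt, x]
  -- the derivatives of `T`
  have f (t : ℝ) : HasFDerivAt T (fderiv ℝ (d.jt i) (gU W G (t, 0)) ∘L fderiv ℝ (gU W G) (t, 0))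
      (t, 0) := (((jet_sm hd (n t)).differentiableAt (by simp)).hasFDerivAt.comp _
        (gU_der (s t) c).1.hasFDerivAt).congr_of_eventuallyEq (E t)
  have e0 (t : ℝ) : T (t, 0) = d.jt i (gU W G (t, 0)) := (E t).self_of_nhds
  set k : ℝ → ℂ × ℝ × ℝ := fun t => fderiv ℝ W (t, 0) (1, 0) + (0, 1, deriv G t) with hk
  have f1 (t : ℝ) : HasDerivAt (fun t => d.jt i (gU W G (t, 0)))
      (fderiv ℝ (d.jt i) (gU W G (t, 0)) (k t)) t := by
    have := (f t).comp_hasDerivAt (f := fun t => (t, 0)) t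
      ((hasDerivAt_id t).prodMk (hasDerivAt_const t (0 : E3)))
    simp only [Function.comp_def, e0, ContinuousLinearMap.comp_apply, (gU_der (s t) c).2] at this
    simpa [hk] using this
  have f2 (t : ℝ) : HasDerivAt (fun t => (d.jt i (gU W G (t, 0))).1)
      (fderiv ℝ (d.jt i) (gU W G (t, 0)) (k t)).1 t :=
    (ContinuousLinearMap.fst ℝ C3 ℂ).hasFDerivAt.comp_hasDerivAt t (f1 t)
  have k1 (t : ℝ) : (d.dd i (gU W G (t, 0)) (k t)).2 = 1 := by
    have : HasDerivAt (fun t => (d.jt i (gU W G (t, 0))).2)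
        (fderiv ℝ (d.jt i) (gU W G (t, 0)) (k t)).2 t :=
      (ContinuousLinearMap.snd ℝ C3 ℂ).hasFDerivAt.comp_hasDerivAt t (f1 t)
    simp only [y] at this
    rw [dd_apply, this.unique (hasDerivAt_ex t), y, inv_mul_cancel₀
      (by simp [S1_ne (ex_S1 t), Real.pi_ne_zero]), Complex.one_re]
  let N (t : ℝ) := fderiv ℝ (gU W G) (t, 0) ∘L ContinuousLinearMap.inr ℝ ℝ E3
  let A (t : ℝ) : E3 →L[ℝ] E3 := ContinuousLinearMap.fst ℝ _ _ ∘L d.dd i (gU W G (t, 0)) ∘L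
    (N t - (ContinuousLinearMap.snd ℝ _ _ ∘L d.dd i (gU W G (t, 0)) ∘L N t).smulRight (k t))
  have det : (d.e₁ : ℝ) * d.l - d.e₂ / 6 * (6 * d.k) ≠ 0 := by
    rw [show (d.e₁ : ℝ) * d.l - d.e₂ / 6 * (6 * d.k) = (d.e₁ * d.l - d.e₂ * d.k : ℤ) by
      push_cast; ring]
    rcases hd.2.2.2 with q | q <;> simp [q]
  obtain ⟨C, hC, l⟩ := frameLA (D := fun t => d.dd i (gU W G (t, 0))) (A := A) (k := k)
    (L := fun t => hz d.n (d.jt i (gU W G (t, 0))).1) (v := fun t => fderiv ℝ W (t, 0) (0, 1))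
    (ρ := fun t => 2 * Real.pi * nE d.n (d.jt i (gU W G (t, 0))).1) (g := deriv G)
    (κ := -(6 * Real.pi / 5)) (w := d.tw i - 1) det (by simpa using hl)
    (by simp [Real.pi_ne_zero]) (by simp only [j]; exact wn_hz hi hd h cφ pφ) cD
    ((by unfold nE eul; fun_prop : Continuous fun a => 2 * Real.pi * nE d.n a).comp cJ.fst) cg
    (by fun_prop) (by fun_prop) (fun t => by simp only [hk, pU, dd_per, jt_per, pg, pW, and_self])
    (fun t v => jet_hor hd (n t) v) (fun t => dd_ver hd (n t))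
    (fun t => ⟨by simp [hk, zW], k1 t, zW t _⟩) hB Bv (fun t => by rw [Bk]; simp [hk])
    fun t x v hv => by
      have : N t x = v := by
        rw [hv]; exact ((gU_der (s t) c).2 0 x).trans (by rw [zero_smul, zero_add])
      rw [← this]; rfl
  rw [sub_add_cancel] at l
  have lγ := jp_hl hd i h.facts.1 h.facts.2.1 h.facts.2.2.1 cφ pφ
  simp only [← j] at lγ
  have lm := (hl_two (d.tw i)).symm.trans (hl_two (d.tw i))
  rw [gq_graph (bri_cf hd.1) (bri_mf hd.1) (bri_rt hd.1) hT (A := A)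
    (γ := fun t => (d.jt i (gU W G (t, 0))).1)
    (a := fun t x => (d.dd i (gU W G (t, 0)) (N t x)).2) (fun t => by rw [e0, ← y t])
    (fun t x => by rw [(f t).fderiv, ← y t]; exact jt_snd hd (n t) _)
    fun t x => by
      rw [(f t).fderiv, (f2 t).deriv]
      simp only [A, N, dd_apply, ContinuousLinearMap.comp_apply, sub_apply,
        ContinuousLinearMap.smulRight_apply, ContinuousLinearMap.inr_apply,
        ContinuousLinearMap.coe_fst', ContinuousLinearMap.coe_snd', map_sub, map_smul]]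
  obtain ⟨C, rfl⟩ := ht_inv hC
  refine ⟨fun q => Gq.hl ?_ lγ.symm lm, fun q => (Gq.lin q hC).hl lγ l.symm⟩
  have := (q.hl (lγ.symm.trans lγ) l).lin (L := C.symm) C.symm.injective
  simpa only [ContinuousLinearMap.comp_assoc, ContinuousLinearEquiv.coe_comp_coe_symm,
    ContinuousLinearMap.comp_id] using this

theorem Mod.graph (h : Mod i e b p τ g R) (hi : i = 1 ∨ i = 2) (hd : d.OK)
    (hw : d.k * (2 - i) + d.l = 1) {m m' : ℤ} (hF : Fill (YO 1) (cl i) (MM d.n) (OO d.n) d.j m m') :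
    ∃ j : C3 × ℂ → C3 × ℂ, Fill (YO 1) (cl i) (MM d.n) (OO d.n) j m m' ∧
      (Surg (MM d.n) (j ∘ PiE i ∘ tb0 p τ g) S4 ↔
        RK d.n (d.lp i fun t => p (cir t 0) * g (cir t 0)) (d.tw i)) := by
  obtain ⟨W, B, B₀, μ, s, z, hB, Bv, Bk⟩ := h.jet
  obtain ⟨cη, mη, pη, -⟩ := h.word.facts
  have z0 (t : ℝ) := z t 0 (by norm_num)
  have sW : ContDiff ℝ ∞ fun t => W (t, 0) := contDiff_iff_contDiffAt.2 fun t =>
    (s t).comp (f := fun t => (t, 0)) t (by fun_prop)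
  have n (t : ℝ) : Complex.exp (W (t, 0)).1 ≠ -1 := by
    rw [(z0 t).1]; exact fun q => (mem_CC.1 (mη t)).2 (by simp [q])
  have a (t φ : ℝ) : (d.jt i ((W (t, 0)).1, t, φ)).2 = wz (p (cir t 0) * g (cir t 0)) (ex t) ^ d.k *
      (ex φ * gB (4 - i) (p (cir t 0) * g (cir t 0))) ^ d.l := by
    rw [JD.jt, (z0 t).1]; exact j_snd (mη t) (ex_S1 _) (ex_S1 _)
  have hl := hd.l_ne hi hw
  obtain ⟨G, sG, cG, eG⟩ := gr_shear (a := fun t => (d.jt i ((W (t, 0)).1, t, (W (t, 0)).2.2)).2)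
    (contDiff_iff_contDiffAt.2 fun t => ((jet_sm (i := i) hd (u := (_, t, (W (t, 0)).2.2))
      (n t)).comp (f := fun t => ((W (t, 0)).1, t, (W (t, 0)).2.2)) t
        (sW.fst.prodMk (contDiff_id.prodMk sW.snd.snd)).contDiffAt).snd)
    (fun t => (jt_mem hd (u := (_, t, _)) (n t)).2) (by
      simp only [a]
      have := (h.word.gauge.2.2.zpow d.k).mul ((wn_gB hi h.word sW.continuous.snd.snd
        fun t => by simp [(z0 t).2.2.2]).zpow d.l)
      rwa [mul_one, hw] at this) hl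
  obtain ⟨χ, K, sχ, cK, mK, zK, oK⟩ := gr_bump cη mη pη
  obtain ⟨r, hT⟩ := h.tube
  refine ⟨_, sh_fill hF sχ sG cK mK zK, gr_lin hi hd hl h.word s cG (fun t => by rw [ex_one])
    (fun t => (z0 t).1) (fun t r hr => ⟨(z t r hr).2.1, (z t r hr).2.2.2⟩) hB Bv Bk (fun t => ?_)
    ((((sh_dif i sχ sG cK mK zK).emb (Opn.refl _)).comp (j_emb hd)).tb hT) fun t => ?_⟩
  · refine Eq.trans ?_ (eG t)
    rw [show gU W (fun t => G (ex t)) (t, 0) = ((W (t, 0)).1, t, (W (t, 0)).2.2 + G (ex t)) by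
      ext <;> simp [gU, (z0 t).2.1], a, a, ex_add, mul_right_comm (ex _), mul_zpow, mul_assoc]
  · have c : Filter.Tendsto (fun u => Complex.exp (gU W (fun t => G (ex t)) u).1) (𝓝 (t, 0))
        (𝓝 (p (cir t 0) * g (cir t 0))) := by
      have := (gU_der (s t) cG).1.continuousAt.fst.cexp
      rwa [ContinuousAt, show (gU W (fun t => G (ex t)) (t, 0)).1 = (W (t, 0)).1 by simp [gU],
        (z0 t).1] at this
    have o : ∀ᶠ u : ℝ × E3 in 𝓝 (t, 0), |u.2.1.re| < 1 / 20 :=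
      (by fun_prop : Continuous fun u : ℝ × E3 => |u.2.1.re|).continuousAt.eventually_lt
        continuousAt_const (by norm_num)
    filter_upwards [o, c.eventually (oK t), c.eventually (isOpen_CC.mem_nhds (mη t))]
      with u h1 h2 h3
    obtain ⟨q1, q2, q3, -⟩ := z u.1 _ h1
    have q : Complex.exp (gU W (fun t => G (ex t)) u).1 =
        p (cir u.1 u.2.1.re) * g (cir u.1 u.2.1.re) * ex u.2.1.im := by
      rw [← q1, ex, ← Complex.exp_add]; congr 1; simp [gU]; ring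
    rw [q] at h2 h3
    simp only [Function.comp, tb0, JD.jt, q]
    rw [sh_pi i χ G h3 (ex_S1 _) (q3 ▸ ex_S1 _), h2, one_mul, ← q3, ← ex_add]
    simp [gU, q2]

end Pool.Agent.Lib.MP_b2e238_gt
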