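import Pool.Agent.Lib.MP_b2e238_gt.C.Pi

/-! Explicit functions for the planar model and for the disc. -/

open scoped ContDiff Topology
open Set Metric

noncomputable section

namespace Pool.Agent.Lib.MP_b2e238_gt

/-- The height: `x` on the left, `0`, `b`, `b - e` on three windows, slope `-i` on the right. -/
def mG (i : ℕ) (e b : ℤ) (x : ℝ) : ℝ := x * (1 - cut (1 / 10) (3 / 20) x) +
  b * cut (3 / 10) (21 / 50) x - e * cut (57 / 100) (7 / 10) x - i * x * cut (17 / 20) (9 / 10) x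

/-- `0 → 1 → 0 → 1` across the three windows. -/
def mN (y : ℝ) : ℝ :=
  cut (3 / 20) (3 / 10) y - cut (21 / 50) (57 / 100) y + cut (7 / 10) (17 / 20) y

/-- The angle in `(0, 1]`. -/
def ang (Z : ℂ) : ℝ := (-Z).arg / (2 * Real.pi) + 1 / 2

/-- The wall. -/
def mW (T : ℂ) : ℝ := ang T - mN (ang T)

/-- `x` on `[-1, 1]`, `± 2` far out. -/
def mS (x : ℝ) : ℝ := x * (cut (-2) (-1) x - cut 1 2 x) + 2 * cut 1 2 x - 2 * (1 - cut (-2) (-1) x)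

def mC (M x : ℝ) : ℝ := cut (-M) (-1) x - cut 1 M x

def mX (Z : ℂ) : ℝ := 4 * Real.log ‖Z‖
def mT (Z : ℂ) : ℂ := ph Z * ex (mS (mX Z))
def mP (M : ℝ) (Z : ℂ) : ℝ := Real.exp ((mX Z - mW (mT Z) * mC M (mX Z)) / 4)
def mH (i : ℕ) (e b : ℤ) (Z : ℂ) : ℂ := ex (mG i e b (ang Z + mS (mX Z)))

/-- The thickened pair of pants times the fibre. -/
def R0 (p : ℂ → ℝ) (τ g : ℂ → ℂ) (u : ℂ × ℝ × ℂ) : C3 := (p u.1 * g u.1 * ex u.2.1, u.2.2, τ u.1)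

/-- The model tube. -/
def tb1 (u : ℝ × E3) : ℂ × ℝ × ℂ := (cir u.1 u.2.1.re, u.2.1.im, ex (u.1 + u.2.2))

/-- A radial diffeomorphism from the punctured plane onto the exterior of the hole. -/
structure Pin (Λ : ℂ → ℂ) : Prop where
  dif : ∃ Λ', Dif ({0}ᶜ : Set ℂ) {Q | 3 / 5 < ‖Q‖} Λ Λ'
  near : ∀ Q ≠ 0, ‖Q‖ < 1 / 20 → Λ Q = (3 / 5 + ‖Q‖ : ℝ) * ph Q
  far : ∀ Q, 4 / 5 ≤ ‖Q‖ → Λ Q = Q
  mid : ∀ Q ≠ 0, ph (Λ Q) = ph Q ∧ (‖Q‖ < 4 / 5 → ‖Λ Q‖ < 4 / 5)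

def dQ (z : ℂ) : ℂ := 1 - (z ^ 3)⁻¹
def dZ (Λ : ℂ → ℂ) (z : ℂ) : ℂ := (1 - Λ (dQ z))⁻¹
/-- `‖Q‖` near `0`, `1` for `‖Q‖ ≥ 1 / 20`. -/
def dM (z : ℂ) : ℝ :=
  ‖dQ z‖ * (1 - cut (1 / 40) (1 / 20) ‖dQ z‖) + cut (1 / 40) (1 / 20) ‖dQ z‖
/-- `-ph Z` near `0`, `ph (Z / (Z - 1))` in the middle, `1` far out. -/
def dG (Z : ℂ) : ℂ :=
  ph (Z / ((cut (1 / 9) (1 / 4) (‖Z‖ ^ 2) : ℝ) * Z - (1 - cut 25 36 (‖Z‖ ^ 2) : ℝ)))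
def dA (z : ℂ) (w : ℝ) : ℝ := w / 3 - z.arg / (2 * Real.pi)

/-- The three-valued section, thickened. -/
def d1 (Λ : ℂ → ℂ) (u : ℂ × ℝ × ℝ) : ℂ × ℝ × ℂ :=
  (dZ Λ u.1, dM u.1 * u.2.2, dG (dZ Λ u.1) * ex (dM u.1 * dA u.1 u.2.1))

/-- The meridian disc of the `3`-fibre, thickened. -/
def d2 (u : ℂ × ℝ × ℝ) : C3 :=
  (-ex (u.2.1 - 2 * u.2.2), u.1 * ex (2 * u.2.1 / 3 - u.2.2), ex (-u.2.2))

open Classical in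
def d0 (i : ℕ) (p : ℂ → ℝ) (τ g Λ : ℂ → ℂ) (u : ℂ × ℝ × ℝ) : C3 × ℂ :=
  if u.1 = 0 then F3 (d2 u) else PiE i (R0 p τ g (d1 Λ u))

def dV (u : ℂ × ℝ × ℝ) : E3 := (1 + u.2.2 * .I, dA u.1 u.2.1)
def dN (u : ℂ × ℝ × ℝ) : ℝ := √(‖(dV u).1‖ ^ 2 + (dV u).2 ^ 2)
/-- Polar coordinates at the surgery sphere. -/
def n0 (u : ℂ × ℝ × ℝ) : ℂ × E3 := (dN u * star (dQ u.1), (dN u)⁻¹ • dV u)

abbrev I5 : Set ℝ := Ioo (-(1 / 5)) (1 / 5)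
def Om' : Set ℂ := {Z | Z ≠ 0 ∧ 3 / 5 < ‖1 - Z⁻¹‖}
def Z3 : Set ℂ := {z | z ^ 3 = 1}
def N3 : Set ℂ := {z | ‖dQ z‖ < 1 / 40}

end Pool.Agent.Lib.MP_b2e238_gt
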