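import Pool.Agent.Lib.MP_b2e238_gt.C.Cut
import Pool.Agent.Lib.MP_b2e238_gt.K.Inv

/-! The planar model is a system of polar coordinates. -/

open scoped ContDiff Topology
open Set Metric

noncomputable section

namespace Pool.Agent.Lib.MP_b2e238_gt

variable {M : ℝ}

theorem modA_X : ContDiffOn ℝ ∞ mX {0}ᶜ := fun _ hZ =>
  (contDiffAt_const.mul ((contDiffAt_norm ℝ hZ).log (norm_ne_zero_iff.2 hZ))).contDiffWithinAt

theorem modA_T : ContDiffOn ℝ ∞ mT {0}ᶜ :=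
  ph_smooth.mul ((contDiff_ex.comp mS_sm).comp_contDiffOn modA_X)

theorem modA_n {Z : ℂ} (h : Z ≠ 0) : ‖mT Z‖ = 1 := by
  rw [mT, norm_mul, ph_norm h, norm_ex, mul_one]

theorem modA_ex (s : ℝ) : ex s * ex (-s) = 1 := by
  rw [← ex_add, add_neg_cancel]
  simpa using ex_int 0

theorem modA_ne {T : ℂ} (h : ‖T‖ = 1) : T ∈ ({0}ᶜ : Set ℂ) :=
  norm_ne_zero_iff.1 (h.trans_ne one_ne_zero)

theorem mod_dif (h : 2 ≤ M) (k : ∀ x, |deriv (mC M) x| ≤ 1) :
    ∃ ψ, Dif ({0}ᶜ : Set ℂ) (Ioi (0 : ℝ) ×ˢ S1) (fun Z => (mP M Z, mT Z)) ψ := by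
  have c := (mC_val h 0).1
  obtain ⟨G, cG, hG⟩ := near_id_par (F := fun u : ℂ × ℝ => u.2 - mW u.1 * mC M u.2)
    (O := ({0}ᶜ : Set ℂ)) isOpen_compl_singleton
    (contDiffOn_snd.sub ((mW_sm.comp contDiffOn_fst fun _ hu => hu.1).mul
      (c.comp_contDiffOn contDiffOn_snd))) fun T _ => ⟨17 / 20, by norm_num, fun x => by
        have d := (hasFDerivAt_id x).sub
          ((c.differentiable (by simp) x).hasFDerivAt.const_mul (mW T))
        have e : fderiv ℝ (fun x => x - mW T * mC M x) x = _ := d.fderiv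
        rw [e, ContinuousLinearMap.one_def, sub_sub_cancel_left, norm_neg, norm_smul,
          ← norm_deriv_eq_norm_fderiv, Real.norm_eq_abs, Real.norm_eq_abs]
        exact (mul_le_of_le_one_right (abs_nonneg _) (k x)).trans (mW_le T)⟩
  have s1 : ∀ u : ℝ × ℂ, u ∈ Ioi (0 : ℝ) ×ˢ S1 → ‖u.2‖ = 1 := fun u hu =>
    mem_sphere_zero_iff_norm.1 hu.2
  have cx : ContDiffOn ℝ ∞ (fun u : ℝ × ℂ => G (u.2, 4 * Real.log u.1)) (Ioi (0 : ℝ) ×ˢ S1) :=
    cG.comp (contDiffOn_snd.prodMk (contDiffOn_const.mul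
      (contDiffOn_fst.log fun _ hu => ne_of_gt hu.1))) fun u hu => ⟨modA_ne (s1 u hu), trivial⟩
  have nn : ∀ (T : ℂ) (s : ℝ), ‖T‖ = 1 → ‖T * ex s‖ = 1 := fun T s hT => by
    rw [norm_mul, hT, norm_ex, mul_one]
  refine ⟨fun u => (Real.exp (G (u.2, 4 * Real.log u.1) / 4) : ℝ) *
    (u.2 * ex (-mS (G (u.2, 4 * Real.log u.1)))), ?_, ?_, fun Z hZ => ?_, fun u hu => ?_,
    fun Z hZ => ?_, fun u hu => ?_⟩
  · exact ((modA_X.sub ((mW_sm.comp modA_T fun Z hZ => modA_ne (modA_n hZ)).mul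
      (c.comp_contDiffOn modA_X))).div_const 4).exp.prodMk modA_T
  · exact (Complex.ofRealCLM.contDiff.comp_contDiffOn (cx.div_const 4).exp).mul
      (contDiffOn_snd.mul (contDiff_ex.comp_contDiffOn (mS_sm.comp_contDiffOn cx).neg))
  · exact ⟨Real.exp_pos _, mem_sphere_zero_iff_norm.2 (modA_n hZ)⟩
  · exact mul_ne_zero (Complex.ofReal_ne_zero.2 (Real.exp_ne_zero _)) (modA_ne (nn _ _ (s1 u hu)))
  · have e : G (mT Z, 4 * Real.log (mP M Z)) = mX Z := by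
      rw [mP, Real.log_exp, mul_div_cancel₀ _ (by norm_num)]
      exact (hG _ (modA_ne (modA_n hZ)) _).1
    simp only [e]
    rw [mT, mul_assoc, modA_ex, mul_one, mX, mul_div_cancel_left₀ _ (by norm_num),
      Real.exp_log (norm_pos_iff.2 hZ), ph_mul_norm hZ]
  · have f := (hG _ (modA_ne (s1 u hu)) (4 * Real.log u.1)).2
    simp only at f ⊢
    generalize G (u.2, 4 * Real.log u.1) = x at f ⊢
    have n := nn u.2 (-mS x) (s1 u hu)
    have a : mX ((Real.exp (x / 4) : ℝ) * (u.2 * ex (-mS x))) = x := by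
      rw [mX, norm_mul, n, mul_one, Complex.norm_real, Real.norm_of_nonneg (Real.exp_pos _).le,
        Real.log_exp, mul_div_cancel₀ _ (by norm_num)]
    have b : mT ((Real.exp (x / 4) : ℝ) * (u.2 * ex (-mS x))) = u.2 := by
      rw [mT, a, ph_pos_mul (Real.exp_pos _) n, mul_assoc, mul_comm (ex _), modA_ex, mul_one]
    rw [mP, a, b, f, mul_div_cancel_left₀ _ (by norm_num), Real.exp_log hu.1]

end Pool.Agent.Lib.MP_b2e238_gt
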