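import Pool.Agent.Lib.MP_b2e238_gt.C.Cut
import Pool.Agent.Lib.MP_b2e238_gt.K.Inv

/-! The radial pinch map and the two profile functions of the disc. -/

open scoped ContDiff Topology
open Set Metric

noncomputable section

namespace Pool.Agent.Lib.MP_b2e238_gt

/-- A smooth increasing bijection of the line with a smooth inverse: a shift below `13 / 20`, the
identity above `4 / 5`. -/
theorem pin_line : ∃ f g : ℝ → ℝ, ContDiff ℝ ∞ f ∧ ContDiff ℝ ∞ g ∧ StrictMono f ∧ StrictMono g ∧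
    (∀ x, g (f x) = x) ∧ (∀ x, f (g x) = x) ∧ (∀ x ≤ 13 / 20, f x = x - 3 / 5) ∧
    ∀ x, 4 / 5 ≤ x → f x = x := by
  set f : ℝ → ℝ := fun r => r - 3 / 5 * (1 - cut (13 / 20) (4 / 5) r) with hf
  have c := cut_sm (13 / 20) (4 / 5)
  have m : Monotone (cut (13 / 20) (4 / 5)) := cut_mono (by norm_num)
  have s : ContDiff ℝ ∞ f := contDiff_id.sub (contDiff_const.mul (contDiff_const.sub c))
  have sm : StrictMono f := fun x y h => by
    have := m h.le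
    simp only [hf]; linarith
  have su : Function.Surjective f := fun y => by
    have a := cut_mem (13 / 20) (4 / 5) y
    have b := cut_mem (13 / 20) (4 / 5) (y + 3 / 5)
    obtain ⟨x, -, e⟩ := intermediate_value_Icc (show y ≤ y + 3 / 5 by linarith)
      s.continuous.continuousOn (show y ∈ Icc (f y) (f (y + 3 / 5)) from
        ⟨by simp only [hf]; linarith, by simp only [hf]; linarith⟩)
    exact ⟨x, e⟩
  have d (x : ℝ) : HasDerivAt f (1 - 3 / 5 * (0 - deriv (cut (13 / 20) (4 / 5)) x)) x :=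
    (hasDerivAt_id x).sub (((hasDerivAt_const x (1 : ℝ)).sub
      (c.differentiable (by simp) x).hasDerivAt).const_mul _)
  let E := sm.orderIsoOfSurjective f su
  refine ⟨f, E.symm, s, E.toHomeomorph.contDiff_symm_deriv (fun x => ?_) d s, sm,
    E.symm.strictMono, E.symm_apply_apply, E.apply_symm_apply, fun x h => ?_, fun x h => ?_⟩
  · have := m.deriv_nonneg (x := x)
    exact ne_of_gt (by linarith)
  · simp only [hf, cut_zero (b := 4 / 5) (by norm_num) h]; ring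
  · simp only [hf, cut_one (a := 13 / 20) (by norm_num) h]; ring

theorem pin_rad {f : ℝ → ℝ} (h : ContDiff ℝ ∞ f) {Q : ℂ} (k : Q ≠ 0) :
    ContDiffAt ℝ ∞ (fun Q : ℂ => (f ‖Q‖ : ℝ) * ph Q) Q :=
  (Complex.ofRealCLM.contDiff.contDiffAt.comp Q
    (h.contDiffAt.comp Q (contDiffAt_norm ℝ k))).mul (ph_at contDiffAt_id k)

theorem pin_norm {r : ℝ} (h : 0 < r) {Q : ℂ} (k : Q ≠ 0) : ‖(r : ℂ) * ph Q‖ = r := by
  rw [norm_mul, ph_norm k, mul_one, Complex.norm_real, Real.norm_of_nonneg h.le]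

theorem pinch : ∃ Λ, Pin Λ := by
  obtain ⟨f, g, cf, cg, mf, mg, gf, fg, lo, hi⟩ := pin_line
  have f0 : f (3 / 5) = 0 := by rw [lo _ (by norm_num), sub_self]
  have a {Q : ℂ} (k : Q ≠ 0) : 3 / 5 < g ‖Q‖ := by
    rw [← gf (3 / 5), f0]; exact mg (norm_pos_iff.2 k)
  have a' {Q : ℂ} (k : Q ≠ 0) : 0 < g ‖Q‖ := lt_trans (by norm_num) (a k)
  have b {Q : ℂ} (k : 3 / 5 < ‖Q‖) : 0 < f ‖Q‖ := f0 ▸ mf k
  have b' {Q : ℂ} (k : 3 / 5 < ‖Q‖) : Q ≠ 0 := norm_pos_iff.1 (lt_trans (by norm_num) k)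
  refine ⟨fun Q => (g ‖Q‖ : ℝ) * ph Q, ⟨fun Q => (f ‖Q‖ : ℝ) * ph Q,
    fun Q k => (pin_rad cg k).contDiffWithinAt, fun Q k => (pin_rad cf (b' k)).contDiffWithinAt,
    fun Q k => ?_, fun Q k => ?_, fun Q k => ?_, fun Q k => ?_⟩, fun Q k l => ?_, fun Q k => ?_,
    fun Q k => ⟨ph_pos_mul (a' k) (ph_norm k), fun l => ?_⟩⟩
  · show 3 / 5 < ‖_‖
    rw [pin_norm (a' k) k]; exact a k
  · refine norm_pos_iff.1 ?_
    rw [pin_norm (b k) (b' k)]; exact b k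
  · simp only [pin_norm (a' k) k, ph_pos_mul (a' k) (ph_norm k), fg, ph_mul_norm k]
  · simp only [pin_norm (b k) (b' k), ph_pos_mul (b k) (ph_norm (b' k)), gf, ph_mul_norm (b' k)]
  · have e : g ‖Q‖ = 3 / 5 + ‖Q‖ := by
      rw [← gf (3 / 5 + ‖Q‖), lo _ (by linarith), add_sub_cancel_left]
    simp only [e]
  · have e : g ‖Q‖ = ‖Q‖ := by conv_rhs => rw [← gf ‖Q‖, hi _ k]
    simp only [e, ph_mul_norm (b' (Q := Q) (by linarith))]
  · rw [pin_norm (a' k) k, ← gf (4 / 5), hi _ le_rfl]; exact mg l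

theorem pin_den {Z : ℂ} (h : Z ≠ 1) :
    ((cut (1 / 9) (1 / 4) (‖Z‖ ^ 2) : ℝ) * Z - (1 - cut 25 36 (‖Z‖ ^ 2) : ℝ) : ℂ) ≠ 0 := by
  intro e
  have n := norm_nonneg Z
  have e' := congrArg norm (sub_eq_zero.1 e)
  have a := cut_mem (1 / 9) (1 / 4) (‖Z‖ ^ 2)
  have b := cut_mem 25 36 (‖Z‖ ^ 2)
  rw [norm_mul, Complex.norm_real, Complex.norm_real, Real.norm_of_nonneg a.1,
    Real.norm_of_nonneg (sub_nonneg.2 b.2)] at e'
  rcases le_total ‖Z‖ (1 / 2) with k | k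
  · rw [cut_zero (a := 25) (by norm_num) (by nlinarith)] at e'
    nlinarith
  · rw [cut_one (a := 1 / 9) (by norm_num) (by nlinarith)] at e e'
    rw [cut_zero (a := 25) (by norm_num) (by nlinarith)] at e
    exact h (by simpa [sub_eq_zero] using e)

theorem pin_inv (w : ℂ) : ph w⁻¹ = (ph w)⁻¹ := by
  simp only [ph, norm_inv, Complex.ofReal_inv, div_inv_eq_mul, inv_div]
  rw [div_eq_mul_inv, mul_comm]

theorem dG_facts : ContDiffOn ℝ ∞ dG ({0, 1}ᶜ : Set ℂ) ∧ MapsTo dG ({0, 1}ᶜ : Set ℂ) S1 ∧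
    (∀ Z ≠ 0, ‖Z‖ ≤ 1 / 3 → dG Z = -ph Z) ∧ (∀ Z, 6 ≤ ‖Z‖ → dG Z = 1) ∧
    ∀ Z ≠ 0, ‖1 - Z⁻¹‖ ≤ 4 / 5 → dG Z = (ph (1 - Z⁻¹))⁻¹ := by
  have q : ContDiff ℝ ∞ fun Z : ℂ => ‖Z‖ ^ 2 := contDiff_norm_sq ℝ
  refine ⟨fun Z h => ?_, fun Z h => ?_, fun Z h k => ?_, fun Z k => ?_, fun Z h k => ?_⟩
  · obtain ⟨h0, h1⟩ := not_or.1 h
    have c : ContDiff ℝ ∞ fun Z : ℂ =>
        ((cut (1 / 9) (1 / 4) (‖Z‖ ^ 2) : ℝ) * Z - (1 - cut 25 36 (‖Z‖ ^ 2) : ℝ) : ℂ) :=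
      ((Complex.ofRealCLM.contDiff.comp ((cut_sm _ _).comp q)).mul contDiff_id).sub
        (Complex.ofRealCLM.contDiff.comp (contDiff_const.sub ((cut_sm _ _).comp q)))
    have s := contDiffAt_id.mul (c.contDiffAt.inv (pin_den h1))
    exact (ph_at s (div_ne_zero h0 (pin_den h1))).contDiffWithinAt
  · obtain ⟨h0, h1⟩ := not_or.1 h
    exact mem_sphere_zero_iff_norm.2 (ph_norm (div_ne_zero h0 (pin_den h1)))
  · have n := norm_nonneg Z
    rw [dG, cut_zero (by norm_num) (by nlinarith), cut_zero (by norm_num) (by nlinarith)]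
    simp [ph, div_neg, neg_div]
  · have h : Z ≠ 0 := norm_pos_iff.1 (by linarith)
    rw [dG, cut_one (by norm_num) (by nlinarith), cut_one (by norm_num) (by nlinarith)]
    simp [ph, h]
  · have n := norm_pos_iff.2 h
    have a := abs_le.1 ((abs_norm_sub_norm_le _ _).trans k)
    rw [norm_one, norm_inv] at a
    have i := mul_inv_cancel₀ n.ne'
    have l : 5 / 9 ≤ ‖Z‖ := by nlinarith
    have u : ‖Z‖ ≤ 5 := by nlinarith
    rw [dG, cut_one (by norm_num) (by nlinarith), cut_zero (by norm_num) (by nlinarith), ← pin_inv]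
    congr 1
    rw [← one_div Z, one_sub_div h, inv_div]
    simp

theorem dM_facts : ContDiffOn ℝ ∞ dM ({0} ∪ Z3)ᶜ ∧ ∀ z ∉ Z3, 0 < dM z ∧ dM z ≤ 1 ∧
    (‖dQ z‖ ≤ 1 / 40 → dM z = ‖dQ z‖) ∧ (1 / 20 ≤ ‖dQ z‖ → dM z = 1) := by
  have n {z : ℂ} (h : z ∉ Z3) : dQ z ≠ 0 := fun e => h (inv_eq_one.1 (sub_eq_zero.1 e).symm)
  refine ⟨fun z h => ?_, fun z h => ?_⟩
  · obtain ⟨h0, h1⟩ := not_or.1 h
    have a : ContDiffAt ℝ ∞ dQ z :=
      contDiffAt_const.sub ((contDiffAt_id.pow 3).inv (pow_ne_zero 3 h0))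
    have b : ContDiffAt ℝ ∞ (fun z => ‖dQ z‖) z := (contDiffAt_norm ℝ (n h1)).comp z a
    have c := (cut_sm (1 / 40) (1 / 20)).contDiffAt.comp z b
    exact ((b.mul (contDiffAt_const.sub c)).add c).contDiffWithinAt
  · have p := norm_pos_iff.2 (n h)
    have c := cut_mem (1 / 40) (1 / 20) ‖dQ z‖
    have o (k : 1 / 20 ≤ ‖dQ z‖) : dM z = 1 := by rw [dM, cut_one (by norm_num) k]; ring
    refine ⟨?_, ?_, fun k => by rw [dM, cut_zero (by norm_num) k]; ring, o⟩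
    all_goals rcases le_total ‖dQ z‖ (1 / 20) with k | k
    · rw [dM]; nlinarith
    · rw [o k]; exact one_pos
    · rw [dM]; nlinarith
    · rw [o k]

end Pool.Agent.Lib.MP_b2e238_gt
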